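import Pool.Agent.P.MP_247656_co.R.Casc

/-! The shifted case: a shifted family whose top vertex is superfluous but has large degree. -/

open Finset

namespace Pool.Agent.P.MP_247656_co.R

lemma lk_mono (v : ℕ) {F G : Finset (Finset ℕ)} (h : F ⊆ G) : lk v F ⊆ lk v G := by
  intro A hA
  rw [mem_lk] at *
  exact ⟨h hA.1, hA.2⟩

lemma dl_mono (v : ℕ) {F G : Finset (Finset ℕ)} (h : F ⊆ G) : dl v F ⊆ dl v G := by
  intro A hA
  rw [mem_dl] at *
  exact ⟨h hA.1, hA.2⟩

lemma sig_split_le {r : ℕ} {F : Finset (Finset ℕ)} (h : Unif (r + 1) F) (v : ℕ) :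
    sig (r + 1) (dl v F).card + sig r (lk v F).card ≤ (shadow F).card := by
  rw [card_shadow_split v F]
  have h1 := sig_le (h.dl v) le_rfl
  have h2 := sig_le (h.lk v) le_rfl
  have h3 : (shadow (dl v F)).card ≤ (shadow (dl v F) ∪ lk v F).card :=
    card_le_card subset_union_left
  omega

lemma rb_self (m : ℕ) : rb (m : ℝ) m = 1 := by rw [rb_nat]; simp

lemma rb_self_succ (m : ℕ) : rb (m : ℝ) (m + 1) = 0 := by rw [rb_nat]; simp

/-- the statement for shifted families -/
def StA (j q : ℕ) : Prop := ∀ (s : ℕ) (a : ℕ → ℕ) (x y : ℝ) (Ω : Finset ℕ)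
  (F : Finset (Finset ℕ)) (m w : ℕ),
  Par j q x y → Cas j q s a → Ω.card = m + 1 → Fits a s m → Unif (j + 2 + s) F → Inside Ω F →
  Shifted Ω F → w ∈ Ω → (∀ u ∈ Ω, u ≤ w) → 1 ≤ (lk w F).card →
  rb x (j + 1) ≤ (lk w F).card → sz j q s a x y ≤ F.card → bd j q s a x y ≤ (shadow F).card

lemma L2' {j q s f : ℕ} {a : ℕ → ℕ} {x y : ℝ} (hp : Par j q x y) (hc : Cas j q s a)
    (h : (T a (j + 2) s : ℝ) - rb y q ≤ f) :
    (T a (j + 1) s : ℝ) - rb y (q + 1) ≤ sig (j + 2 + s) f := by
  have h1 := L2 (a := a) (s := s) (k := j + 1) (q := q) (f := f) (w := y) hc.inc hp.hq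
    (by rw [hc.h0]; ring) (by linarith [hp.hy1])
    (by rw [hc.h0]; push_cast; linarith [hp.hy2]) h
  have h2 : 0 ≤ rb y (q + 1) := rb_nonneg (by push_cast; linarith [hp.hy1])
  rw [max_eq_right h2] at h1
  exact h1

lemma A_zero {j q s : ℕ} {a : ℕ → ℕ} {y : ℝ} {Ω : Finset ℕ} {F : Finset (Finset ℕ)} {m w : ℕ}
    (hp : Par j q j y) (hc : Cas j q s a) (hΩ : Ω.card = m + 1) (hfit : Fits a s m)
    (hU : Unif (j + 2 + s) F) (hin : Inside Ω F) (hS : Shifted Ω F) (hw : w ∈ Ω)
    (hmax : ∀ u ∈ Ω, u ≤ w) (h1 : 1 ≤ (lk w F).card) (hsz : sz j q s a j y ≤ F.card) :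
    bd j q s a j y ≤ (shadow F).card := by
  have e : j + 2 + s = j + s + 2 := by ring
  have hT := T_le_of_fits hc.inc hfit (j + 2)
  have hU0 := U0 (j + s) Ω F m (min F.card (m.choose (j + s + 2))) w hΩ (e ▸ hU) hin hS hw hmax h1
    (min_le_left _ _) (min_le_right _ _)
  have hY : 0 ≤ rb y q := rb_nonneg (by linarith [hp.hy1])
  have hL := L2' (f := min F.card (m.choose (j + s + 2))) hp hc (by
    unfold sz at hsz
    rw [rb_self_succ] at hsz
    rw [e] at hT
    have hT' : (T a (j + 2) s : ℝ) ≤ (m.choose (j + s + 2) : ℝ) := by exact_mod_cast hT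
    push_cast
    exact le_min (by linarith) (by linarith))
  rw [e] at hL
  unfold bd
  rw [rb_self]
  have : ((sig (j + s + 2) (min F.card (m.choose (j + s + 2))) : ℝ)) + 1 ≤ (shadow F).card := by
    exact_mod_cast hU0
  linarith

lemma A_core {j q : ℕ} (IH1 : StA (j + 1) q) (IH2 : StA j (q + 1))
    {s : ℕ} {a : ℕ → ℕ} {x y : ℝ} {Ω : Finset ℕ} {F : Finset (Finset ℕ)} {m w : ℕ}
    (hp : Par (j + 1) (q + 1) x y) (hc : Cas (j + 1) (q + 1) s a) (hΩ : Ω.card = m + 1)
    (hfit : Fits a s m) (hU : Unif (j + 1 + 2 + s) F) (hin : Inside Ω F) (hS : Shifted Ω F)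
    (hw : w ∈ Ω) (hmax : ∀ u ∈ Ω, u ≤ w)
    (hg : rb x (j + 1 + 1) ≤ (lk w F).card) (hsz : sz (j + 1) (q + 1) s a x y ≤ F.card)
    (hx : (j : ℝ) + 2 ≤ x) (htop : x = (j : ℝ) + q + 1 ∨ y = (j : ℝ) + q + 1) :
    bd (j + 1) (q + 1) s a x y ≤ (shadow F).card := by
  obtain ⟨-, -, hx1, hx2, hy1, hy2⟩ := hp
  push_cast at hx1 hx2 hy1 hy2
  have hq1 : 1 ≤ q := by
    have : (1 : ℝ) ≤ q := by linarith
    exact_mod_cast this
  have h0 := hc.h0
  have hinc := hc.inc
  have ha0 : 1 ≤ a 0 := by omega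
  have hm : 4 ≤ m := by
    have h1 := hinc.le (le_refl s)
    unfold Fits at hfit
    omega
  obtain ⟨m', rfl⟩ : ∃ m', m = m' + 1 := ⟨m - 1, by omega⟩
  have hne : Ω.Nonempty := ⟨w, hw⟩
  set v := Ω.min' hne with hv
  have hvΩ : v ∈ Ω := min'_mem _ _
  have hmin : ∀ u ∈ Ω, v ≤ u := fun u hu => min'_le _ _ hu
  have hvw : w ≠ v := by
    intro h
    have : Ω ⊆ {w} := by
      intro u hu
      have h1 := hmax u hu
      have h2 := hmin u hu
      rw [mem_singleton]; omega
    have := card_le_card this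
    rw [card_singleton] at this
    omega
  set a' : ℕ → ℕ := fun i => a i - 1 with ha'
  have hinc' : Inc a' s := hinc.pred ha0
  have hfit' : Fits a' s m' := hfit.pred hinc ha0
  have ha'0 : a' 0 = j + q + 3 := by simp only [ha']; omega
  have hΩ' : (Ω.erase v).card = m' + 1 := by rw [card_erase_of_mem hvΩ]; omega
  have hw' : w ∈ Ω.erase v := mem_erase.2 ⟨hvw, hw⟩
  have hmax' : ∀ u ∈ Ω.erase v, u ≤ w := fun u hu => hmax u (mem_of_mem_erase hu)
  have hU' : Unif (j + 2 + s + 1) F := by
    have e : j + 2 + s + 1 = j + 1 + 2 + s := by ring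
    rw [e]; exact hU
  have hU1 : Unif (j + 2 + s) (lk v F) := hU'.lk v
  have hU0 : Unif (j + 2 + s + 1) (dl v F) := hU'.dl v
  have hsub : shadow (dl v F) ⊆ lk v F := hS.shadow_dl_subset hin hvΩ hmin
  have hcs := hS.card_shadow hin hvΩ hmin
  have hsplit := card_lk_add_dl v F
  have hesplit : (lk w (lk v F)).card + (lk w (dl v F)).card = (lk w F).card := by
    rw [lk_lk w v F hvw, lk_dl w v F hvw]
    exact card_lk_add_dl v (lk w F)
  have hT2 := T_pascal hinc ha0 (j + 2)
  have hT1 := T_pascal hinc ha0 (j + 1)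
  rw [← ha'] at hT2 hT1
  have pg := rb_pascal x (j + 1)
  have pl := rb_pascal x j
  have pY := rb_pascal y q
  have pm := rb_pascal y (q + 1)
  have hg2 : 0 ≤ rb (x - 1) (j + 1 + 1) := rb_nonneg (by push_cast; linarith)
  have hY1 : 0 ≤ rb (y - 1) (q + 1) := rb_nonneg (by push_cast; linarith)
  have hg1 : 1 ≤ rb (x - 1) (j + 1) := by
    have := rb_mono (z := ((j + 1 : ℕ) : ℝ)) (w := x - 1) (m := j + 1) (by linarith)
      (by push_cast; linarith)
    rwa [rb_self] at this
  have hesplitR : ((lk w (lk v F)).card : ℝ) + (lk w (dl v F)).card = (lk w F).card := by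
    exact_mod_cast hesplit
  have hsplitR : ((lk v F).card : ℝ) + (dl v F).card = F.card := by exact_mod_cast hsplit
  have hT2R : (T a (j + 2 + 1) s : ℝ) = T a' (j + 2 + 1) s + T a' (j + 2) s := by
    exact_mod_cast hT2
  have hT1R : (T a (j + 1 + 1) s : ℝ) = T a' (j + 1 + 1) s + T a' (j + 1) s := by
    exact_mod_cast hT1
  -- Claim 1
  have c1 : rb (x - 1) (j + 1) ≤ (lk w (lk v F)).card := by
    by_cases h : ((lk w (dl v F)).card : ℝ) ≤ rb (x - 1) (j + 1 + 1)
    · linarith
    · push Not at h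
      have h1 : 1 ≤ (lk w (dl v F)).card := by
        have : (0 : ℝ) < (lk w (dl v F)).card := by linarith
        exact_mod_cast this
      have h2 := lov (l := j + 2 + s) (p := j + 1) (by omega) h1 (x := x - 1)
        (by push_cast; linarith) h.le
      have h3 := sig_le (hU0.lk w) le_rfl
      have h4 : shadow (lk w (dl v F)) ⊆ lk w (lk v F) := by
        rw [← lk_shadow]; exact lk_mono w hsub
      have h5 := card_le_card h4
      have : (sig (j + 2 + s) (lk w (dl v F)).card : ℝ) ≤ (lk w (lk v F)).card := by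
        exact_mod_cast h3.trans h5
      linarith
  unfold sz at hsz
  have e3 : j + 1 + 2 = j + 2 + 1 := by ring
  rw [e3] at hsz
  -- Claim 2
  have c2 : (T a' (j + 2) s : ℝ) - rb (y - 1) (q + 1) + rb (x - 1) (j + 1) ≤ (lk v F).card := by
    by_contra hcon
    push Not at hcon
    by_cases h : ((lk w (dl v F)).card : ℝ) ≤ rb (x - 1) (j + 1 + 1)
    · have hs0 := card_lk_add_dl w (dl v F)
      have hs1 := card_lk_add_dl w (lk v F)
      have hs0R : ((lk w (dl v F)).card : ℝ) + (dl w (dl v F)).card = (dl v F).card := by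
        exact_mod_cast hs0
      have hs1R : ((lk w (lk v F)).card : ℝ) + (dl w (lk v F)).card = (lk v F).card := by
        exact_mod_cast hs1
      have h1 := L2 (a := a') (s := s) (k := j + 2) (q := q) (f := (dl w (dl v F)).card)
        (w := y - 1) hinc' hq1 (by omega) (by linarith)
        (by rw [ha'0]; push_cast; linarith) (by linarith)
      rw [max_eq_right hY1] at h1
      have e4 : j + 2 + 1 + s = j + 2 + s + 1 := by ring
      rw [e4] at h1
      have h3 := sig_le (hU0.dl w) le_rfl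
      have h4 : shadow (dl w (dl v F)) ⊆ dl w (lk v F) := by
        refine subset_trans ?_ (dl_mono w hsub)
        rw [dl_shadow]; exact subset_union_left
      have h5 := card_le_card h4
      have : (sig (j + 2 + s + 1) (dl w (dl v F)).card : ℝ) ≤ (dl w (lk v F)).card := by
        exact_mod_cast h3.trans h5
      linarith
    · push Not at h
      have h1 : 1 ≤ (lk w (dl v F)).card := by
        have : (0 : ℝ) < (lk w (dl v F)).card := by linarith
        exact_mod_cast this
      have h2 := IH1 s a' (x - 1) (y - 1) (Ω.erase v) (dl v F) m' w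
        ⟨by omega, hq1, by push_cast; linarith, by push_cast; linarith, by linarith,
          by push_cast; linarith⟩ ⟨by omega, hinc'⟩ hΩ' hfit' (hU.dl v) (hin.dl v) (hS.dl v) hw'
        hmax' h1 h.le (by unfold sz; rw [e3]; linarith)
      unfold bd at h2
      have h5 : ((shadow (dl v F)).card : ℝ) ≤ (lk v F).card := by
        exact_mod_cast card_le_card hsub
      have e5 : j + 1 + 1 = j + 2 := by ring
      rw [e5] at h2
      linarith
  have hcsR : ((shadow F).card : ℝ) = (lk v F).card + (shadow (lk v F)).card := by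
    exact_mod_cast hcs
  have e5 : j + 1 + 1 = j + 2 := by ring
  unfold bd
  by_cases hy : (q : ℝ) + 2 ≤ y
  · have hj : 1 ≤ j := by
      have : (1 : ℝ) ≤ j := by linarith
      exact_mod_cast this
    have h1 : 1 ≤ (lk w (lk v F)).card := by
      have : (1 : ℝ) ≤ (lk w (lk v F)).card := by linarith
      exact_mod_cast this
    have h2 := IH2 s a' (x - 1) (y - 1) (Ω.erase v) (lk v F) m' w
      ⟨hj, by omega, by linarith, by push_cast; linarith, by push_cast; linarith,
        by push_cast; linarith⟩ ⟨by omega, hinc'⟩ hΩ' hfit' hU1 (hin.lk v) (hS.lk v) hw'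
      hmax' h1 c1 (by unfold sz; linarith)
    unfold bd at h2
    rw [e5] at hT1R ⊢
    linarith
  · push Not at hy
    have c3 : (T a' (j + 2) s : ℝ) + rb (x - 1) (j + 1) ≤ (lk v F).card := by
      rcases htop with ht | ht
      · have hlt : rb (y - 1) (q + 1) < 1 := by
          have := rb_strictMono (z := y - 1) (w := ((q + 1 : ℕ) : ℝ)) (m := q + 1) (by omega)
            (by push_cast; linarith) (by push_cast; linarith)
          rwa [rb_self] at this
        have hx' : x - 1 = ((j + q : ℕ) : ℝ) := by push_cast; linarith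
        rw [hx', rb_nat] at c2 ⊢
        have : ((T a' (j + 2) s + (j + q).choose (j + 1) : ℕ) : ℝ) < ((lk v F).card + 1 : ℕ) := by
          push_cast; linarith
        have h6 : T a' (j + 2) s + (j + q).choose (j + 1) ≤ (lk v F).card := by
          have := Nat.cast_lt.1 this
          omega
        exact_mod_cast h6
      · have hj : j = 0 := by
          have : (j : ℝ) < 1 := by linarith
          have : j < 1 := by exact_mod_cast this
          omega
        have hy' : y - 1 = (q : ℝ) := by rw [ht, hj]; push_cast; ring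
        rw [hy', rb_self_succ] at c2
        linarith
    have h1 : T a' (j + 2) s + 1 ≤ (lk v F).card := by
      have : ((T a' (j + 2) s + 1 : ℕ) : ℝ) ≤ (lk v F).card := by push_cast; linarith
      exact_mod_cast this
    have h2 := L1 (a := a') (s := s) (p := j) (f := (lk v F).card) (u := x - 1) hinc'
      (by omega) (by linarith) (by rw [ha'0]; push_cast; linarith) h1 c3
    have h3 : (sig (j + 2 + s) (lk v F).card : ℝ) ≤ (shadow (lk v F)).card := by
      exact_mod_cast sig_le hU1 le_rfl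
    have hμ : 0 ≤ rb y (q + 1 + 1) := rb_nonneg (by push_cast; linarith)
    rw [e5] at hT1R ⊢
    linarith

lemma rb_top (j q : ℕ) (hq : 1 ≤ q) :
    rb ((j : ℝ) + q) q = rb ((j : ℝ) + q - 1) q + rb ((j : ℝ) + q - 1) j := by
  obtain ⟨q', rfl⟩ : ∃ q', q = q' + 1 := ⟨q - 1, by omega⟩
  rw [rb_pascal]
  congr 1
  have e : ((j : ℝ) + ((q' + 1 : ℕ) : ℝ) - 1) = ((j + q' : ℕ) : ℝ) := by push_cast; ring
  rw [e, rb_nat, rb_nat, Nat.choose_symm_add]

lemma stA_step {j q : ℕ} (IH : ∀ j' q', j' + q' < j + q → StA j' q') : StA j q := by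
  intro s a x y Ω F m w hp hc hΩ hfit hU hin hS hw hmax h1 hg hsz
  obtain ⟨j, rfl⟩ : ∃ j', j = j' + 1 := ⟨j - 1, by have := hp.hj; omega⟩
  obtain ⟨q, rfl⟩ : ∃ q', q = q' + 1 := ⟨q - 1, by have := hp.hq; omega⟩
  have IH1 := IH (j + 1) q (by omega)
  have IH2 := IH j (q + 1) (by omega)
  have hp0 := hp
  obtain ⟨hj, hq, hx1, hx2, hy1, hy2⟩ := hp
  set z : ℝ := ((j + 1 : ℕ) : ℝ) + ((q + 1 : ℕ) : ℝ) - 1 with hz
  have hG : rb x (j + 1 + 1) ≤ rb z (j + 1 + 1) := rb_mono (by push_cast at *; linarith) hx2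
  have hY : rb y (q + 1) ≤ rb z (q + 1) := rb_mono (by linarith) hy2
  have hg0 : 0 ≤ rb x (j + 1 + 1) := rb_nonneg (by push_cast at *; linarith)
  have hY0 : 0 ≤ rb y (q + 1) := rb_nonneg (by linarith)
  set η := min (rb z (j + 1 + 1) - rb x (j + 1 + 1)) (rb z (q + 1) - rb y (q + 1)) with hη
  have hη1 : η ≤ rb z (j + 1 + 1) - rb x (j + 1 + 1) := min_le_left _ _
  have hη2 : η ≤ rb z (q + 1) - rb y (q + 1) := min_le_right _ _
  have hη0 : 0 ≤ η := le_min (by linarith) (by linarith)
  have hzz : z ≤ ((j + 1 : ℕ) : ℝ) + ((q + 1 : ℕ) : ℝ) := by linarith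
  have hzj : ((j + 1 + 1 : ℕ) : ℝ) - 1 ≤ z := by push_cast at *; linarith
  have hzq : ((q + 1 : ℕ) : ℝ) - 1 ≤ z := by linarith
  by_cases hb : ((lk w F).card : ℝ) ≤ rb x (j + 1 + 1) + η
  · have m1 := rb_mono hzj hzz
    have m2 := rb_mono hzq hzz
    have hsplitR : ((lk w F).card : ℝ) + (dl w F).card = F.card := by
      exact_mod_cast card_lk_add_dl w F
    have h2 := bandN (f := (dl w F).card) (l := j + 1 + 1 + s) hp0 hc (by omega) h1 hg
      (by linarith) (by linarith) (by linarith)
    have e : j + 1 + 2 + s = j + 1 + 1 + s + 1 := by ring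
    rw [e] at h2 hU
    have h3 : ((sig (j + 1 + 1 + s + 1) (dl w F).card : ℝ)) + sig (j + 1 + 1 + s) (lk w F).card
        ≤ (shadow F).card := by exact_mod_cast sig_split_le hU w
    linarith
  · push Not at hb
    obtain ⟨x', hx'1, hx'⟩ := rb_surj (m := j + 1 + 1) (by omega)
      (c := rb x (j + 1 + 1) + η) (by linarith)
    obtain ⟨y', hy'1, hy'⟩ := rb_surj (m := q + 1) (by omega)
      (c := rb y (q + 1) + η) (by linarith)
    have hxx : x ≤ x' := le_of_rb_le (m := j + 1 + 1) (by omega) hx'1 (by linarith)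
    have hyy : y ≤ y' := le_of_rb_le (m := q + 1) (by omega) hy'1 (by linarith)
    have hxz : x' ≤ z := le_of_rb_le (m := j + 1 + 1) (by omega) hzj (by linarith)
    have hyz : y' ≤ z := le_of_rb_le (m := q + 1) (by omega) hzq (by linarith)
    have hp' : Par (j + 1) (q + 1) x' y' := ⟨hj, hq, by linarith, hxz, by linarith, hyz⟩
    have hband := band hp0 hxx (by linarith) hyy (by linarith) (by linarith)
    have hsz' : sz (j + 1) (q + 1) s a x' y' ≤ F.card := by
      unfold sz at hsz ⊢; linarith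
    have htop : x' = z ∨ y' = z := by
      rcases min_choice (rb z (j + 1 + 1) - rb x (j + 1 + 1)) (rb z (q + 1) - rb y (q + 1))
        with h | h
      · left
        exact le_antisymm hxz (le_of_rb_le (m := j + 1 + 1) (by omega) hx'1 (by linarith))
      · right
        exact le_antisymm hyz (le_of_rb_le (m := q + 1) (by omega) hy'1 (by linarith))
    have hz' : z = (j : ℝ) + q + 1 := by rw [hz]; push_cast; ring
    suffices h : bd (j + 1) (q + 1) s a x' y' ≤ (shadow F).card by
      unfold bd at h ⊢; linarith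
    by_cases hA : (j : ℝ) + 2 ≤ x'
    · exact A_core IH1 IH2 hp' hc hΩ hfit hU hin hS hw hmax (by linarith) hsz' hA
        (by rw [← hz']; exact htop)
    · push Not at hA
      by_cases hB : x' = ((j + 1 : ℕ) : ℝ)
      · rw [hB] at hp' hsz' ⊢
        exact A_zero hp' hc hΩ hfit hU hin hS hw hmax h1 hsz'
      · have hB' : ((j + 1 : ℕ) : ℝ) < x' := lt_of_le_of_ne hp'.hx1 (Ne.symm hB)
        have hq1 : 1 ≤ q := by
          have : (0 : ℝ) < q := by push_cast at hB'; linarith
          exact_mod_cast this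
        have hq1R : (1 : ℝ) ≤ q := by exact_mod_cast hq1
        have hyz' : y' = z := by
          rcases htop with h | h
          · exfalso; linarith
          · exact h
        have hp'' : Par (j + 1) (q + 1) ((j + 1 + 1 : ℕ) : ℝ) y' :=
          ⟨hj, hq, by push_cast; linarith, by push_cast at *; linarith, by linarith, hyz⟩
        have hgpos : 0 < rb x' (j + 1 + 1) := rb_pos (by push_cast at *; linarith)
        have hzn : z = ((j + q + 1 : ℕ) : ℝ) := by rw [hz']; push_cast; ring
        have hsz'' : sz (j + 1) (q + 1) s a ((j + 1 + 1 : ℕ) : ℝ) y' ≤ F.card := by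
          unfold sz at hsz' ⊢
          rw [rb_self]
          rw [hyz', hzn, rb_nat] at hsz' ⊢
          have : ((T a (j + 1 + 2) s : ℕ) : ℝ) < ((F.card + (j + q + 1).choose (q + 1) : ℕ) : ℝ) := by
            push_cast; linarith
          have h6 : T a (j + 1 + 2) s + 1 ≤ F.card + (j + q + 1).choose (q + 1) :=
            Nat.cast_lt.1 this
          have h7 : (T a (j + 1 + 2) s : ℝ) + 1 ≤ F.card + (j + q + 1).choose (q + 1) := by
            exact_mod_cast h6
          linarith
        have h8 := A_core IH1 IH2 hp'' hc hΩ hfit hU hin hS hw hmax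
          (by rw [rb_self]; exact_mod_cast h1) hsz'' (by push_cast; linarith)
          (Or.inr (by rw [hyz', hz']))
        have h9 : rb x' (j + 1) ≤ rb ((j + 1 + 1 : ℕ) : ℝ) (j + 1) :=
          rb_mono (by linarith) (by push_cast; linarith)
        unfold bd at h8 ⊢
        linarith

theorem stA (j q : ℕ) : StA j q := by
  have : ∀ N j q, j + q = N → StA j q := by
    intro N
    induction N using Nat.strong_induction_on with
    | _ N ih =>
      intro j q h
      exact stA_step (fun j' q' h' => ih (j' + q') (by omega) j' q' rfl)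
  exact this _ j q rfl

end Pool.Agent.P.MP_247656_co.R
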