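import Pool.Agent.P.MP_247656_co.R.Defs

open Finset

namespace Pool.Agent.P.MP_247656_co.R

lemma rb_zero (z : ℝ) : rb z 0 = 1 := by simp [rb]

lemma rb_succ (z : ℝ) (m : ℕ) : rb z (m + 1) = rb z m * (z - m) / (m + 1) := by
  have h1 : (m.factorial : ℝ) ≠ 0 := by exact_mod_cast m.factorial_ne_zero
  have h2 : ((m : ℝ) + 1) ≠ 0 := by positivity
  simp only [rb, prod_range_succ, Nat.factorial_succ, Nat.cast_mul, Nat.cast_add, Nat.cast_one]
  field_simp

private lemma rb_succ' (z : ℝ) (m : ℕ) : rb z (m + 1) = z * rb (z - 1) m / (m + 1) := by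
  have h1 : (m.factorial : ℝ) ≠ 0 := by exact_mod_cast m.factorial_ne_zero
  have h2 : ((m : ℝ) + 1) ≠ 0 := by positivity
  have h3 : ∏ i ∈ range m, (z - ((i + 1 : ℕ) : ℝ)) = ∏ i ∈ range m, (z - 1 - (i : ℝ)) :=
    prod_congr rfl fun i _ => by push_cast; ring
  simp only [rb]
  rw [prod_range_succ', h3, Nat.factorial_succ]
  push_cast
  field_simp
  ring

lemma rb_pascal (z : ℝ) (m : ℕ) : rb z (m + 1) = rb (z - 1) (m + 1) + rb (z - 1) m := by
  have h2 : ((m : ℝ) + 1) ≠ 0 := by positivity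
  rw [rb_succ' z m, rb_succ (z - 1) m]
  field_simp
  ring

lemma rb_nat (n m : ℕ) : rb (n : ℝ) m = (n.choose m : ℝ) := by
  induction n generalizing m with
  | zero =>
    cases m with
    | zero => simp [rb_zero]
    | succ m => rw [rb_succ']; simp
  | succ n ih =>
    cases m with
    | zero => simp [rb_zero]
    | succ m =>
      rw [rb_pascal, Nat.choose_succ_succ]
      have : ((n + 1 : ℕ) : ℝ) - 1 = n := by push_cast; ring
      rw [this, ih, ih]
      push_cast
      ring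

private lemma fac_le {z : ℝ} {m : ℕ} (h : (m : ℝ) - 1 ≤ z) {i : ℕ} (hi : i ∈ range m) :
    0 ≤ z - i := by
  have : ((i + 1 : ℕ) : ℝ) ≤ m := by exact_mod_cast mem_range.1 hi
  push_cast at this
  linarith

lemma rb_nonneg {z : ℝ} {m : ℕ} (h : (m : ℝ) - 1 ≤ z) : 0 ≤ rb z m := by
  exact div_nonneg (prod_nonneg fun i hi => fac_le h hi) (by positivity)

lemma rb_pos {z : ℝ} {m : ℕ} (h : (m : ℝ) - 1 < z) : 0 < rb z m := by
  refine div_pos (prod_pos fun i hi => ?_) (by exact_mod_cast m.factorial_pos)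
  have : ((i + 1 : ℕ) : ℝ) ≤ m := by exact_mod_cast mem_range.1 hi
  push_cast at this
  linarith

lemma rb_mono {z w : ℝ} {m : ℕ} (h : (m : ℝ) - 1 ≤ z) (hzw : z ≤ w) : rb z m ≤ rb w m := by
  refine div_le_div_of_nonneg_right ?_ (by positivity)
  exact prod_le_prod (fun i hi => fac_le h hi) fun i _ => by linarith

lemma rb_strictMono {z w : ℝ} {m : ℕ} (hm : 1 ≤ m) (h : (m : ℝ) - 1 ≤ z) (hzw : z < w) :
    rb z m < rb w m := by
  obtain ⟨k, rfl⟩ : ∃ k, m = k + 1 := ⟨m - 1, by omega⟩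
  push_cast at h
  rw [rb_succ, rb_succ]
  have h1 : rb z k ≤ rb w k := rb_mono (by linarith) hzw.le
  have h2 : 0 < rb w k := rb_pos (by linarith)
  have h3 : 0 ≤ z - k := by linarith
  refine div_lt_div_of_pos_right ?_ (by positivity)
  calc rb z k * (z - k) ≤ rb w k * (z - k) := mul_le_mul_of_nonneg_right h1 h3
    _ < rb w k * (w - k) := mul_lt_mul_of_pos_left (by linarith) h2

lemma rb_surj {m : ℕ} (hm : 1 ≤ m) {c : ℝ} (hc : 0 ≤ c) :
    ∃ z : ℝ, (m : ℝ) - 1 ≤ z ∧ rb z m = c := by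
  obtain ⟨k, rfl⟩ : ∃ k, m = k + 1 := ⟨m - 1, by omega⟩
  have hcont : Continuous fun z : ℝ => rb z (k + 1) := by
    unfold rb
    fun_prop
  have h0 : rb (k : ℝ) (k + 1) = 0 := by rw [rb_succ]; simp
  have hk : (0 : ℝ) ≤ k := Nat.cast_nonneg k
  have h1 : c ≤ rb ((k : ℝ) + c * (k + 1)) (k + 1) := by
    rw [rb_succ]
    have h2 : rb (k : ℝ) k ≤ rb ((k : ℝ) + c * (k + 1)) k :=
      rb_mono (by linarith) (by nlinarith)
    rw [rb_nat, Nat.choose_self] at h2
    push_cast at h2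
    rw [le_div_iff₀ (by positivity)]
    have h3 : 0 ≤ c * (k + 1) := by positivity
    nlinarith
  have hle : (k : ℝ) ≤ (k : ℝ) + c * (k + 1) := by nlinarith
  obtain ⟨z, hz, hz'⟩ := intermediate_value_Icc hle hcont.continuousOn
    (show c ∈ Set.Icc _ _ from ⟨by simpa [h0] using hc, h1⟩)
  exact ⟨z, by push_cast; linarith [hz.1], hz'⟩

lemma le_of_rb_le {z w : ℝ} {m : ℕ} (hm : 1 ≤ m) (hw : (m : ℝ) - 1 ≤ w) (h : rb z m ≤ rb w m) :
    z ≤ w := by
  by_contra hc
  exact absurd (rb_strictMono hm hw (not_le.1 hc)) (not_lt.2 h)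

lemma lt_of_rb_lt {z w : ℝ} {m : ℕ} (hw : (m : ℝ) - 1 ≤ w) (h : rb z m < rb w m) :
    z < w := by
  by_contra hc
  exact absurd (rb_mono hw (not_lt.1 hc)) (not_le.2 h)

private lemma concave_log_affine {S : Set ℝ} (hS : Convex ℝ S) (α β : ℝ)
    (h : ∀ z ∈ S, 0 < α * z + β) : ConcaveOn ℝ S fun z => Real.log (α * z + β) := by
  refine ⟨hS, fun x hx y hy a b ha hb hab => ?_⟩
  have := strictConcaveOn_log_Ioi.concaveOn.2 (h x hx) (h y hy) ha hb hab
  simp only [smul_eq_mul] at this ⊢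
  have e : α * (a * x + b * y) + β = a * (α * x + β) + b * (α * y + β) := by
    linear_combination (-β) * hab
  rw [e]
  exact this

private lemma concave_sum {S : Set ℝ} (hS : Convex ℝ S) (s : Finset ℕ) (f : ℕ → ℝ → ℝ)
    (h : ∀ i ∈ s, ConcaveOn ℝ S (f i)) : ConcaveOn ℝ S fun z => ∑ i ∈ s, f i z := by
  induction s using Finset.induction_on with
  | empty => simpa using concaveOn_const (0 : ℝ) hS
  | insert a s ha ih =>
    simp only [sum_insert ha]
    exact (h a (mem_insert_self _ _)).add (ih fun i hi => h i (mem_insert_of_mem hi))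

/-- the product-of-affine-functions lemma -/
lemma lemmaF {j q : ℕ} (hq : 1 ≤ q) {x u : ℝ} (hx : (j : ℝ) ≤ x) (hx2 : x ≤ (j : ℝ) + q - 1)
    (hxu : x ≤ u) (hu : u ≤ (j : ℝ) + q) :
    q * rb x j - j * rb x (j + 1) ≤ q * rb u j - j * rb u (j + 1) := by
  have hj0 : (0 : ℝ) ≤ j := Nat.cast_nonneg j
  have hq1 : (1 : ℝ) ≤ q := by exact_mod_cast hq
  have hfac : (0 : ℝ) < j.factorial := by exact_mod_cast j.factorial_pos
  set S : Set ℝ := Set.Icc (j : ℝ) (j + q) with hSdef
  have hS : Convex ℝ S := convex_Icc _ _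
  set P : ℝ → ℝ := fun z =>
    (∏ i ∈ range j, (1 * z + -(i : ℝ))) * (-(j : ℝ) * z + (q * (j + 1) + j * j)) with hP
  have hfP : ∀ z, q * rb z j - j * rb z (j + 1) = P z / (j.factorial * (j + 1)) := by
    intro z
    have : ∏ i ∈ range j, (1 * z + -(i : ℝ)) = ∏ i ∈ range j, (z - (i : ℝ)) :=
      prod_congr rfl fun i _ => by ring
    rw [rb_succ, hP]
    simp only [this, rb]
    field_simp
    ring
  have p1 : ∀ i ∈ range j, ∀ z ∈ S, 0 < 1 * z + -(i : ℝ) := by
    intro i hi z hz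
    have : ((i + 1 : ℕ) : ℝ) ≤ j := by exact_mod_cast mem_range.1 hi
    push_cast at this
    linarith [hz.1]
  have p2 : ∀ z ∈ S, 0 < -(j : ℝ) * z + (q * (j + 1) + j * j) := by
    intro z hz
    nlinarith [mul_le_mul_of_nonneg_left hz.2 hj0]
  have hpos : ∀ z ∈ S, 0 < P z := fun z hz =>
    mul_pos (prod_pos fun i hi => p1 i hi z hz) (p2 z hz)
  have hconc : ConcaveOn ℝ S fun z => Real.log (P z) := by
    have c1 := concave_sum hS (range j) (fun i z => Real.log (1 * z + -(i : ℝ)))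
      fun i hi => concave_log_affine hS 1 (-(i : ℝ)) (p1 i hi)
    have c2 := concave_log_affine hS (-(j : ℝ)) (q * (j + 1) + j * j) p2
    refine (c1.add c2).congr fun z hz => ?_
    simp only [hP, Pi.add_apply]
    rw [Real.log_mul (prod_pos fun i hi => p1 i hi z hz).ne' (p2 z hz).ne',
      Real.log_prod fun i hi => (p1 i hi z hz).ne']
  have hab : P (j + q - 1) = P (j + q) := by
    have e1 := hfP (j + q - 1)
    have e2 := hfP (j + q)
    have e3 : q * rb ((j : ℝ) + q - 1) j - j * rb ((j : ℝ) + q - 1) (j + 1)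
        = q * rb ((j : ℝ) + q) j - j * rb ((j : ℝ) + q) (j + 1) := by
      have a1 := rb_succ' ((j : ℝ) + q) j
      have a2 := rb_succ ((j : ℝ) + q) j
      have a3 := rb_succ ((j : ℝ) + q - 1) j
      have h2 : ((j : ℝ) + 1) ≠ 0 := by positivity
      have a4 : rb ((j : ℝ) + q) j * q = (j + q) * rb ((j : ℝ) + q - 1) j := by
        rw [a1] at a2
        field_simp at a2
        linear_combination -a2
      rw [a1, a3]
      field_simp
      linear_combination -((j : ℝ) + 1) * a4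
    rw [e1, e2] at e3
    have : (0 : ℝ) < j.factorial * (j + 1) := by positivity
    field_simp at e3
    exact e3
  have hxS : x ∈ S := ⟨hx, by linarith⟩
  have hbS : (j : ℝ) + q ∈ S := ⟨by linarith, le_rfl⟩
  have huS : u ∈ S := ⟨by linarith, hu⟩
  have hd : 0 < (j : ℝ) + q - x := by linarith
  have hxb : Real.log (P x) ≤ Real.log (P (j + q)) := by
    have ht : 0 < 1 / ((j : ℝ) + q - x) := by positivity
    have ht1 : 0 ≤ 1 - 1 / ((j : ℝ) + q - x) := by
      rw [sub_nonneg, div_le_one hd]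
      linarith
    have := hconc.2 hxS hbS ht.le ht1 (by ring)
    simp only [smul_eq_mul] at this
    have e : 1 / ((j : ℝ) + q - x) * x + (1 - 1 / ((j : ℝ) + q - x)) * (j + q) = j + q - 1 := by
      field_simp
      ring
    rw [e, hab] at this
    by_contra hc
    have := mul_lt_mul_of_pos_left (not_le.1 hc) ht
    linarith
  have hseg : u ∈ segment ℝ x ((j : ℝ) + q) := by
    rw [segment_eq_Icc (by linarith)]
    exact ⟨hxu, hu⟩
  have hmin := hconc.ge_on_segment hxS hbS hseg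
  rw [min_eq_left hxb] at hmin
  have hPle : P x ≤ P u := (Real.log_le_log_iff (hpos x hxS) (hpos u huS)).1 hmin
  rw [hfP, hfP]
  exact div_le_div_of_nonneg_right hPle (by positivity)

/-- raising both parameters inside the band only increases the bound -/
lemma band {j q : ℕ} {x y u w : ℝ} (h : Par j q x y) (hxu : x ≤ u) (hu : u ≤ (j : ℝ) + q)
    (hyw : y ≤ w) (hw : w ≤ (j : ℝ) + q)
    (he : rb w q - rb y q ≤ rb u (j + 1) - rb x (j + 1)) :
    rb x j - rb y (q + 1) ≤ rb u j - rb w (q + 1) := by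
  have h1 := lemmaF h.hq h.hx1 h.hx2 hxu hu
  have h2 := lemmaF (j := q) (q := j) h.hj h.hy1 (by linarith [h.hy2]) hyw (by linarith)
  have hq : (0 : ℝ) < q := by exact_mod_cast h.hq
  have hj : (0 : ℝ) ≤ j := Nat.cast_nonneg j
  have h3 := mul_le_mul_of_nonneg_left he hj
  refine le_of_mul_le_mul_left ?_ hq
  nlinarith

lemma rb_subadd {j : ℕ} {x x' z : ℝ} (hx : (j : ℝ) < x) (hx' : (j : ℝ) ≤ x') (hz : (j : ℝ) ≤ z)
    (h : rb x (j + 1) = rb x' (j + 1) + rb z (j + 1)) :
    rb x j ≤ rb x' j + rb z j := by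
  have n1 : 0 ≤ rb x' (j + 1) := rb_nonneg (by push_cast; linarith)
  have n2 : 0 ≤ rb z (j + 1) := rb_nonneg (by push_cast; linarith)
  have l1 : x' ≤ x := le_of_rb_le (m := j + 1) (by omega) (by push_cast; linarith) (by linarith)
  have l2 : z ≤ x := le_of_rb_le (m := j + 1) (by omega) (by push_cast; linarith) (by linarith)
  have m1 : 0 ≤ rb x' j := rb_nonneg (by linarith)
  have m2 : 0 ≤ rb z j := rb_nonneg (by linarith)
  rw [rb_succ, rb_succ, rb_succ] at h
  have hj : ((j : ℝ) + 1) ≠ 0 := by positivity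
  field_simp at h
  have hd : 0 < x - j := by linarith
  refine le_of_mul_le_mul_right ?_ hd
  nlinarith [mul_le_mul_of_nonneg_left l1 m1, mul_le_mul_of_nonneg_left l2 m2]

end Pool.Agent.P.MP_247656_co.R
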