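import Pool.Agent.P.MP_247656_co.R.Lov

open Finset

namespace Pool.Agent.P.MP_247656_co.R

lemma T_zero (a : ℕ → ℕ) (k : ℕ) : T a k 0 = (a 0).choose k := by simp [T]

lemma T_succ (a : ℕ → ℕ) (k s : ℕ) :
    T a k (s + 1) = T a k s + (a (s + 1)).choose (k + s + 1) := by
  simp [T, Finset.sum_range_succ, add_assoc]

lemma Inc.le {a : ℕ → ℕ} {s : ℕ} (h : Inc a s) {i : ℕ} (hi : i ≤ s) : a 0 + i ≤ a i := by
  induction i with
  | zero => simp
  | succ i ih =>
    have h1 := ih (by omega)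
    have h2 := h i (by omega)
    omega

lemma Inc.pred {a : ℕ → ℕ} {s : ℕ} (h : Inc a s) (h0 : 1 ≤ a 0) : Inc (fun i => a i - 1) s := by
  intro i hi
  have h1 := h.le (i := i) hi.le
  have h2 := h i hi
  show a i - 1 < a (i + 1) - 1
  omega

lemma T_pascal {a : ℕ → ℕ} {s : ℕ} (h : Inc a s) (h0 : 1 ≤ a 0) (k : ℕ) :
    T a (k + 1) s = T (fun i => a i - 1) (k + 1) s + T (fun i => a i - 1) k s := by
  unfold T
  rw [← Finset.sum_add_distrib]
  refine Finset.sum_congr rfl fun i hi => ?_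
  have h1 := h.le (i := i) (by have := mem_range.1 hi; omega)
  obtain ⟨b, hb⟩ : ∃ b, a i = b + 1 := ⟨a i - 1, by omega⟩
  have e : k + 1 + i = (k + i) + 1 := by omega
  simp only [hb, e, Nat.add_sub_cancel]
  rw [Nat.choose_succ_succ', add_comm]

lemma Fits.pred {a : ℕ → ℕ} {s M : ℕ} (h : Fits a s (M + 1)) (hi : Inc a s) (h0 : 1 ≤ a 0) :
    Fits (fun i => a i - 1) s M := by
  have h1 := hi.le (i := s) le_rfl
  unfold Fits at h ⊢
  show a s - 1 + min s 1 ≤ M
  omega

private lemma le_T (a : ℕ → ℕ) (k s : ℕ) : (a 0).choose k ≤ T a k s := by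
  induction s with
  | zero => rw [T_zero]
  | succ s ih => rw [T_succ]; omega

private lemma T_add_le {a : ℕ → ℕ} {s k v : ℕ} (hi : Inc a s)
    (hv : (a 0).choose k + v ≤ (a 0 + 1).choose k) :
    T a k s + v ≤ (a s + 1).choose (k + s) := by
  induction s with
  | zero => rw [T_zero]; exact hv
  | succ s ih =>
    have h1 := ih fun i h => hi i (by omega)
    have h2 : (a s + 1).choose (k + s) ≤ (a (s + 1)).choose (k + s) :=
      Nat.choose_le_choose _ (hi s (by omega))
    rw [T_succ, ← add_assoc k s 1, Nat.choose_succ_succ']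
    omega

lemma T_le_of_fits {a : ℕ → ℕ} {s M : ℕ} (hi : Inc a s) (h : Fits a s M) (k : ℕ) :
    T a k s ≤ M.choose (k + s) := by
  unfold Fits at h
  rcases Nat.eq_zero_or_pos s with rfl | hs
  · rw [T_zero]
    exact Nat.choose_le_choose k (by omega)
  · have h1 := T_add_le hi (k := k) (v := 0) (Nat.choose_le_choose k (Nat.le_succ _))
    have h2 : (a s + 1).choose (k + s) ≤ M.choose (k + s) :=
      Nat.choose_le_choose _ (by omega)
    omega

lemma fits_of_T_le {a : ℕ → ℕ} {s M k : ℕ} (hi : Inc a s) (hk : 1 ≤ k) (h0 : k ≤ a 0)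
    (h : T a k s ≤ M.choose (k + s)) : Fits a s M := by
  unfold Fits
  by_contra hc
  rcases Nat.eq_zero_or_pos s with rfl | hs
  · rw [T_zero] at h
    obtain ⟨b, hb⟩ : ∃ b, a 0 = b + 1 := ⟨a 0 - 1, by omega⟩
    obtain ⟨l, rfl⟩ : ∃ l, k = l + 1 := ⟨k - 1, by omega⟩
    have h1 : M.choose (l + 1) ≤ b.choose (l + 1) := Nat.choose_le_choose _ (by omega)
    have h2 : 0 < b.choose l := Nat.choose_pos (by omega)
    rw [hb, Nat.choose_succ_succ'] at h
    simp only [add_zero] at h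
    omega
  · obtain ⟨t, rfl⟩ : ∃ t, s = t + 1 := ⟨s - 1, by omega⟩
    have h1 : M.choose (k + (t + 1)) ≤ (a (t + 1)).choose (k + t + 1) :=
      Nat.choose_le_choose _ (by omega)
    have h2 : 0 < (a 0).choose k := Nat.choose_pos h0
    have h3 := le_T a k t
    rw [T_succ] at h
    omega

lemma T_gap {a : ℕ → ℕ} {s M k : ℕ} (hi : Inc a s) (h0 : k + 1 ≤ a 0)
    (h : M.choose (k + 1 + s) < T a (k + 1) s) :
    M.choose (k + 1 + s) + (a 0 - 1).choose k ≤ T a (k + 1) s := by
  obtain ⟨b, hb⟩ : ∃ b, a 0 = b + 1 := ⟨a 0 - 1, by omega⟩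
  have hp : (a 0).choose (k + 1) = b.choose k + b.choose (k + 1) := by
    rw [hb, Nat.choose_succ_succ']
  have hb' : a 0 - 1 = b := by omega
  rw [hb']
  have hnf : ¬ Fits a s M := fun hf => absurd (T_le_of_fits hi hf (k + 1)) (not_le.2 h)
  unfold Fits at hnf
  rcases Nat.eq_zero_or_pos s with rfl | hs
  · rw [T_zero]
    have h1 : M.choose (k + 1) ≤ b.choose (k + 1) := Nat.choose_le_choose _ (by omega)
    simp only [add_zero]
    omega
  · obtain ⟨t, rfl⟩ : ∃ t, s = t + 1 := ⟨s - 1, by omega⟩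
    have h1 : M.choose (k + 1 + (t + 1)) ≤ (a (t + 1)).choose (k + 1 + t + 1) :=
      Nat.choose_le_choose _ (by omega)
    have h3 := le_T a (k + 1) t
    rw [T_succ]
    omega

lemma sig_T_add {a : ℕ → ℕ} {s k v : ℕ} (hi : Inc a s) (hk : 1 ≤ k) (h0 : k + 1 ≤ a 0)
    (hv : v ≤ (a 0).choose k) :
    sig (k + 1 + s) (T a (k + 1) s + v) = T a k s + sig k v := by
  induction s with
  | zero =>
    rw [T_zero, T_zero]
    exact sig_casc hk hv (Or.inl h0)
  | succ s ih =>
    have hi' : Inc a s := fun i h => hi i (by omega)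
    have h1 := T_add_le hi' (k := k + 1) (v := v) (by rw [Nat.choose_succ_succ']; omega)
    have h2 : (a s + 1).choose (k + 1 + s) ≤ (a (s + 1)).choose (k + 1 + s) :=
      Nat.choose_le_choose _ (hi s (by omega))
    have h3 := hi.le (i := s + 1) le_rfl
    have h4 := sig_casc (r := k + 1 + s) (M := a (s + 1)) (v := T a (k + 1) s + v) (by omega)
      (h1.trans h2) (Or.inl (by omega))
    have e1 : T a (k + 1) (s + 1) + v
        = (a (s + 1)).choose (k + 1 + s + 1) + (T a (k + 1) s + v) := by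
      rw [T_succ]; omega
    have e2 : k + s + 1 = k + 1 + s := by omega
    rw [e1, T_succ, e2, ← add_assoc (k + 1) s 1, h4, ih hi']
    omega

lemma sig_T_sub {a : ℕ → ℕ} {s k d : ℕ} (hi : Inc a s) (h0 : k + 1 ≤ a 0)
    (hd : d ≤ (a 0).choose (k + 1)) :
    sig (k + 1 + s) (T a (k + 1) s - d) + (a 0).choose k
      = T a k s + sig (k + 1) ((a 0).choose (k + 1) - d) := by
  induction s with
  | zero =>
    rw [T_zero, T_zero, add_zero, add_comm]
  | succ s ih =>
    have hi' : Inc a s := fun i h => hi i (by omega)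
    have h1 := T_add_le hi' (k := k + 1) (v := 0) (Nat.choose_le_choose _ (Nat.le_succ _))
    have h2 : (a s + 1).choose (k + 1 + s) ≤ (a (s + 1)).choose (k + 1 + s) :=
      Nat.choose_le_choose _ (hi s (by omega))
    have h3 := hi.le (i := s + 1) le_rfl
    have h5 := le_T a (k + 1) s
    have h4 := sig_casc (r := k + 1 + s) (M := a (s + 1)) (v := T a (k + 1) s - d) (by omega)
      (by omega) (Or.inl (by omega))
    have e1 : T a (k + 1) (s + 1) - d
        = (a (s + 1)).choose (k + 1 + s + 1) + (T a (k + 1) s - d) := by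
      rw [T_succ]; omega
    have e2 : k + s + 1 = k + 1 + s := by omega
    have h6 := ih hi'
    rw [e1, T_succ, e2, ← add_assoc (k + 1) s 1, h4]
    omega

/-- Lovasz above a cascade -/
lemma L1 {a : ℕ → ℕ} {s p f : ℕ} {u : ℝ} (hi : Inc a s) (h0 : p + 2 ≤ a 0) (hu : (p : ℝ) ≤ u)
    (hu2 : u ≤ a 0) (h1 : T a (p + 2) s + 1 ≤ f) (h : (T a (p + 2) s : ℝ) + rb u (p + 1) ≤ f) :
    (T a (p + 1) s : ℝ) + rb u p ≤ sig (p + 2 + s) f := by
  set v : ℕ := min (f - T a (p + 2) s) ((a 0).choose (p + 1)) with hv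
  have hpos : 0 < (a 0).choose (p + 1) := Nat.choose_pos (by omega)
  have hv1 : 1 ≤ v := by omega
  have hv2 : rb u (p + 1) ≤ v := by
    have e1 : rb u (p + 1) ≤ ((f - T a (p + 2) s : ℕ) : ℝ) := by
      rw [Nat.cast_sub (by omega)]; linarith
    have e2 : rb u (p + 1) ≤ (((a 0).choose (p + 1) : ℕ) : ℝ) := by
      rw [← rb_nat]
      exact rb_mono (by push_cast; linarith) hu2
    rw [hv, Nat.cast_min]
    exact le_min e1 e2
  have h2 := lov (l := p + 1) le_rfl hv1 hu hv2
  have h3 := sig_T_add (k := p + 1) (v := v) hi (by omega) h0 (by omega)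
  have h4 : sig (p + 2 + s) (T a (p + 2) s + v) ≤ sig (p + 2 + s) f :=
    sig_mono (by omega) (by omega)
  have h5 : T a (p + 1) s + sig (p + 1) v ≤ sig (p + 2 + s) f := h3 ▸ h4
  have h6 : ((T a (p + 1) s + sig (p + 1) v : ℕ) : ℝ) ≤ sig (p + 2 + s) f := by exact_mod_cast h5
  push_cast at h6
  linarith

/-- Lovasz below a cascade -/
lemma L2 {a : ℕ → ℕ} {s k q f : ℕ} {w : ℝ} (hi : Inc a s) (hq : 1 ≤ q) (h0 : a 0 = k + 1 + q)
    (hw : (q : ℝ) - 1 ≤ w) (hw2 : w ≤ a 0) (h : (T a (k + 1) s : ℝ) - rb w q ≤ f) :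
    (T a k s : ℝ) - max 0 (rb w (q + 1)) ≤ sig (k + 1 + s) f := by
  set d : ℕ := T a (k + 1) s - f with hd
  have hw0 : 0 ≤ rb w q := rb_nonneg hw
  have hd1 : (d : ℝ) ≤ rb w q := by
    rcases le_total f (T a (k + 1) s) with hle | hle
    · rw [hd, Nat.cast_sub hle]; linarith
    · rw [hd, Nat.sub_eq_zero_of_le hle]; simpa using hw0
  have hsymm : (a 0).choose q = (a 0).choose (k + 1) :=
    Nat.choose_symm_of_eq_add (by omega)
  have hd2 : d ≤ (a 0).choose (k + 1) := by
    have e1 : rb w q ≤ rb (a 0 : ℝ) q := rb_mono hw hw2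
    rw [rb_nat, hsymm] at e1
    exact_mod_cast hd1.trans e1
  have h1 := sig_T_sub (d := d) hi (k := k) (by omega) hd2
  have h2 : sig (k + 1 + s) (T a (k + 1) s - d) ≤ sig (k + 1 + s) f :=
    sig_mono (by omega) (by omega)
  obtain ⟨P, hP, hPc⟩ := exists_seg (r := k + 1) (by omega) ((a 0).choose (k + 1) - d)
  have hin : Inside (range (a 0)) P := seg_inside hP (by omega)
  have h3 := sig_seg hP
  rw [hPc] at h3
  have hsub : shadow P ⊆ powersetCard k (range (a 0)) := fun B hB =>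
    mem_powersetCard.2 ⟨hin.shadow B hB, (seg_unif hP).shadow B hB⟩
  have hin2 : Inside (range (a 0)) (powersetCard k (range (a 0)) \ shadow P) := fun B hB =>
    (mem_powersetCard.1 (mem_sdiff.1 hB).1).1
  have h4 := card_shadow_dual (seg_unif hP) hin
  have h5 := card_image_sdiff hin2
  set N := (powersetCard k (range (a 0)) \ shadow P).image (fun B => range (a 0) \ B) with hN
  rw [card_sdiff_of_subset hsub, card_powersetCard, card_range] at h5
  rw [card_range] at h4
  have h6 : (shadow P).card ≤ (a 0).choose k := by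
    have := card_le_card hsub
    rwa [card_powersetCard, card_range] at this
  have hNU : Unif (q + 1) N := by
    intro A hA
    obtain ⟨B, hB, rfl⟩ := mem_image.1 hA
    obtain ⟨hB1, hB2⟩ := mem_powersetCard.1 (mem_sdiff.1 hB).1
    rw [card_sdiff_of_subset hB1, card_range, hB2]
    omega
  have key : (N.card : ℝ) ≤ max 0 (rb w (q + 1)) := by
    by_contra hc
    rw [not_le, max_lt_iff] at hc
    obtain ⟨w', hw', hw'2⟩ := rb_surj (m := q + 1) (by omega) (c := (N.card : ℝ)) hc.1.le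
    have l1 : w < w' := lt_of_rb_lt hw' (by rw [hw'2]; exact hc.2)
    have hN1 : 1 ≤ N.card := by exact_mod_cast hc.1
    have l2 := lov (l := q + 1) (p := q) (x := w') le_rfl hN1
      (by push_cast at hw'; linarith) hw'2.le
    have l3 : sig (q + 1) N.card ≤ d := (sig_le hNU le_rfl).trans (by omega)
    have l4 : (sig (q + 1) N.card : ℝ) ≤ d := by exact_mod_cast l3
    have l5 := rb_strictMono hq hw l1
    linarith
  have h7 : T a k s ≤ sig (k + 1 + s) f + N.card := by omega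
  have h8 : (T a k s : ℝ) ≤ sig (k + 1 + s) f + N.card := by exact_mod_cast h7
  linarith

/-- the band lemma in numerical form -/
lemma bandN {j q s f e l : ℕ} {a : ℕ → ℕ} {x y : ℝ} (hp : Par j q x y) (hc : Cas j q s a)
    (hl : j + 1 ≤ l) (he1 : 1 ≤ e) (he : rb x (j + 1) ≤ e)
    (he2 : (e : ℝ) - rb x (j + 1) ≤ rb ((j : ℝ) + q) q - rb y q)
    (he3 : (e : ℝ) ≤ rb ((j : ℝ) + q) (j + 1))
    (hf : sz j q s a x y ≤ (f : ℝ) + e) :
    bd j q s a x y ≤ (sig (j + 2 + s) f : ℝ) + sig l e := by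
  have hj0 : (0 : ℝ) ≤ j := Nat.cast_nonneg j
  have hq0 : (0 : ℝ) ≤ q := Nat.cast_nonneg q
  have hy0 : 0 ≤ rb y q := rb_nonneg (by linarith [hp.hy1])
  obtain ⟨u, hu1, hu2⟩ := rb_surj (m := j + 1) (by omega) (c := (e : ℝ)) (Nat.cast_nonneg e)
  obtain ⟨w, hw1, hw2⟩ := rb_surj (m := q) hp.hq (c := rb y q + e - rb x (j + 1)) (by linarith)
  have hxu : x ≤ u := le_of_rb_le (m := j + 1) (by omega) hu1 (by rw [hu2]; exact he)
  have huj : u ≤ (j : ℝ) + q :=
    le_of_rb_le (m := j + 1) (by omega) (by push_cast; linarith) (by rw [hu2]; exact he3)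
  have hyw : y ≤ w := le_of_rb_le (m := q) hp.hq hw1 (by rw [hw2]; linarith)
  have hwj : w ≤ (j : ℝ) + q :=
    le_of_rb_le (m := q) hp.hq (by linarith) (by rw [hw2]; linarith)
  have hb := band hp hxu huj hyw hwj (by rw [hw2, hu2]; linarith)
  have hl2 := lov hl he1 (x := u) (by push_cast at hu1; linarith) hu2.le
  have ha0 : ((a 0 : ℕ) : ℝ) = j + q + 2 := by rw [hc.h0]; push_cast; ring
  unfold sz at hf
  have h2 := L2 (k := j + 1) (f := f) hc.inc hp.hq (by rw [hc.h0]; omega) hw1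
    (by rw [ha0]; linarith) (by rw [hw2]; linarith)
  have hw0 : 0 ≤ rb w (q + 1) := rb_nonneg (by push_cast; linarith [hp.hy1])
  rw [max_eq_right hw0] at h2
  unfold bd
  have e : j + 1 + 1 + s = j + 2 + s := by omega
  rw [e] at h2
  linarith

end Pool.Agent.P.MP_247656_co.R
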