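import Pool.Agent.P.MP_247656_co.R.Defs

open Finset

namespace Pool.Agent.P.MP_247656_co.R

lemma mem_lk {v : ℕ} {F : Finset (Finset ℕ)} {A : Finset ℕ} :
    A ∈ lk v F ↔ insert v A ∈ F ∧ v ∉ A := mem_memberSubfamily

lemma mem_dl {v : ℕ} {F : Finset (Finset ℕ)} {A : Finset ℕ} :
    A ∈ dl v F ↔ A ∈ F ∧ v ∉ A := mem_nonMemberSubfamily

lemma card_lk_add_dl (v : ℕ) (F : Finset (Finset ℕ)) :
    (lk v F).card + (dl v F).card = F.card :=
  card_memberSubfamily_add_card_nonMemberSubfamily v F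

lemma card_lk (v : ℕ) (F : Finset (Finset ℕ)) :
    (lk v F).card = (F.filter (fun A => v ∈ A)).card := by
  refine card_bij (fun A _ => insert v A) (fun A hA => ?_) (fun A hA B hB h => ?_) fun B hB => ?_
  · exact mem_filter.2 ⟨(mem_lk.1 hA).1, mem_insert_self _ _⟩
  · rw [← erase_insert (mem_lk.1 hA).2, h, erase_insert (mem_lk.1 hB).2]
  · obtain ⟨h1, h2⟩ := mem_filter.1 hB
    exact ⟨B.erase v, mem_lk.2 ⟨by rwa [insert_erase h2], notMem_erase _ _⟩, insert_erase h2⟩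

lemma lk_union (v : ℕ) (F G : Finset (Finset ℕ)) : lk v (F ∪ G) = lk v F ∪ lk v G :=
  memberSubfamily_union v F G

lemma dl_union (v : ℕ) (F G : Finset (Finset ℕ)) : dl v (F ∪ G) = dl v F ∪ dl v G :=
  nonMemberSubfamily_union v F G

lemma lk_shadow (v : ℕ) (F : Finset (Finset ℕ)) : lk v (shadow F) = shadow (lk v F) := by
  ext A
  simp only [mem_lk, mem_shadow_iff_insert_mem, mem_insert, not_or]
  constructor
  · rintro ⟨⟨a, ⟨h1, h2⟩, h3⟩, h4⟩
    exact ⟨a, h2, by rwa [insert_comm], fun h => h1 h.symm, h4⟩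
  · rintro ⟨a, h2, h3, h1, h4⟩
    exact ⟨⟨a, ⟨fun h => h1 h.symm, h2⟩, by rwa [insert_comm]⟩, h4⟩

lemma dl_shadow (v : ℕ) (F : Finset (Finset ℕ)) :
    dl v (shadow F) = shadow (dl v F) ∪ lk v F := by
  ext A
  simp only [mem_union, mem_lk, mem_dl, mem_shadow_iff_insert_mem, mem_insert, not_or]
  constructor
  · rintro ⟨⟨a, h1, h2⟩, h3⟩
    by_cases h : v = a
    · subst h
      exact Or.inr ⟨h2, h3⟩
    · exact Or.inl ⟨a, h1, h2, h, h3⟩
  · rintro (⟨a, h1, h2, _, h3⟩ | ⟨h2, h3⟩)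
    · exact ⟨⟨a, h1, h2⟩, h3⟩
    · exact ⟨⟨v, h3, h2⟩, h3⟩

lemma card_shadow_split (v : ℕ) (F : Finset (Finset ℕ)) :
    (shadow F).card = (shadow (dl v F) ∪ lk v F).card + (shadow (lk v F)).card := by
  rw [← card_lk_add_dl v (shadow F), lk_shadow, dl_shadow, add_comm]

lemma lk_lk (u v : ℕ) (F : Finset (Finset ℕ)) (h : u ≠ v) : lk u (lk v F) = lk v (lk u F) := by
  ext A
  simp only [mem_lk, mem_insert, not_or]
  rw [insert_comm v u]
  have := h.symm
  tauto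

lemma lk_dl (u v : ℕ) (F : Finset (Finset ℕ)) (h : u ≠ v) : lk u (dl v F) = dl v (lk u F) := by
  ext A
  simp only [mem_lk, mem_dl, mem_insert, not_or]
  have := h.symm
  tauto

lemma dl_dl (u v : ℕ) (F : Finset (Finset ℕ)) : dl u (dl v F) = dl v (dl u F) := by
  ext A
  simp only [mem_dl]
  tauto

lemma Unif.lk {r : ℕ} {F : Finset (Finset ℕ)} (h : Unif (r + 1) F) (v : ℕ) : Unif r (lk v F) := by
  intro A hA
  have := h _ (mem_lk.1 hA).1
  rw [card_insert_of_notMem (mem_lk.1 hA).2] at this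
  omega

lemma Unif.dl {r : ℕ} {F : Finset (Finset ℕ)} (h : Unif r F) (v : ℕ) : Unif r (dl v F) := by
  exact fun A hA => h A (mem_dl.1 hA).1

lemma Unif.shadow {r : ℕ} {F : Finset (Finset ℕ)} (h : Unif (r + 1) F) : Unif r (shadow F) := by
  intro A hA
  obtain ⟨a, h1, h2⟩ := mem_shadow_iff_insert_mem.1 hA
  have := h _ h2
  rw [card_insert_of_notMem h1] at this
  omega

lemma Inside.lk {Ω : Finset ℕ} {F : Finset (Finset ℕ)} (h : Inside Ω F) (v : ℕ) :
    Inside (Ω.erase v) (lk v F) := by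
  intro A hA x hx
  obtain ⟨h1, h2⟩ := mem_lk.1 hA
  exact mem_erase.2 ⟨fun e => h2 (e ▸ hx), h _ h1 (mem_insert_of_mem hx)⟩

lemma Inside.dl {Ω : Finset ℕ} {F : Finset (Finset ℕ)} (h : Inside Ω F) (v : ℕ) :
    Inside (Ω.erase v) (dl v F) := by
  intro A hA x hx
  obtain ⟨h1, h2⟩ := mem_dl.1 hA
  exact mem_erase.2 ⟨fun e => h2 (e ▸ hx), h _ h1 hx⟩

lemma Inside.shadow {Ω : Finset ℕ} {F : Finset (Finset ℕ)} (h : Inside Ω F) :
    Inside Ω (shadow F) := by
  intro A hA x hx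
  obtain ⟨a, _, h2⟩ := mem_shadow_iff_insert_mem.1 hA
  exact h _ h2 (mem_insert_of_mem hx)

lemma Shifted.lk {Ω : Finset ℕ} {F : Finset (Finset ℕ)} (h : Shifted Ω F) (v : ℕ) :
    Shifted (Ω.erase v) (lk v F) := by
  intro A hA i hi j hj hij hiA
  obtain ⟨h1, h2⟩ := mem_lk.1 hA
  obtain ⟨hi1, hi2⟩ := mem_erase.1 hi
  have hjv : v ≠ j := fun e => h2 (e ▸ hj)
  have h3 := h _ h1 i hi2 j (mem_insert_of_mem hj) hij (by simp [hi1, hiA])
  refine mem_lk.2 ⟨?_, ?_⟩
  · rwa [erase_insert_of_ne hjv, insert_comm] at h3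
  · simp only [mem_insert, mem_erase, not_or]
    exact ⟨fun e => hi1 e.symm, fun e => h2 e.2⟩

lemma Shifted.dl {Ω : Finset ℕ} {F : Finset (Finset ℕ)} (h : Shifted Ω F) (v : ℕ) :
    Shifted (Ω.erase v) (dl v F) := by
  intro A hA i hi j hj hij hiA
  obtain ⟨h1, h2⟩ := mem_dl.1 hA
  obtain ⟨hi1, hi2⟩ := mem_erase.1 hi
  refine mem_dl.2 ⟨h _ h1 i hi2 j hj hij hiA, ?_⟩
  simp only [mem_insert, mem_erase, not_or]
  exact ⟨fun e => hi1 e.symm, fun e => h2 e.2⟩

/-- in a shifted family the shadow of the deletion of the least vertex lies in its link -/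
lemma Shifted.shadow_dl_subset {Ω : Finset ℕ} {F : Finset (Finset ℕ)} (h : Shifted Ω F)
    (hin : Inside Ω F) {v : ℕ} (hv : v ∈ Ω) (hmin : ∀ u ∈ Ω, v ≤ u) :
    shadow (R.dl v F) ⊆ R.lk v F := by
  intro B hB
  obtain ⟨A, hA, a, ha, rfl⟩ := mem_shadow_iff.1 hB
  obtain ⟨h1, h2⟩ := mem_dl.1 hA
  have hva : v < a := lt_of_le_of_ne (hmin a (hin A h1 ha)) fun e => h2 (e ▸ ha)
  exact mem_lk.2 ⟨h A h1 v hv a ha hva h2, fun e => h2 (mem_of_mem_erase e)⟩

lemma Shifted.card_shadow {Ω : Finset ℕ} {F : Finset (Finset ℕ)} (h : Shifted Ω F)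
    (hin : Inside Ω F) {v : ℕ} (hv : v ∈ Ω) (hmin : ∀ u ∈ Ω, v ≤ u) :
    (shadow F).card = (R.lk v F).card + (shadow (R.lk v F)).card := by
  rw [card_shadow_split v F, union_eq_right.2 (h.shadow_dl_subset hin hv hmin)]

/-- a nonempty family of r-sets has at least r sets in its shadow -/
lemma le_card_shadow {r : ℕ} {F : Finset (Finset ℕ)} (h : Unif r F) (hne : F.Nonempty) :
    r ≤ (shadow F).card := by
  obtain ⟨A, hA⟩ := hne
  rw [← h A hA]
  refine card_le_card_of_injOn (fun a => A.erase a) (fun a ha => ?_) (erase_injOn A)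
  exact mem_coe.2 (erase_mem_shadow hA ha)

lemma shadow_powersetCard_subset (r : ℕ) (Ω : Finset ℕ) :
    shadow (powersetCard (r + 1) Ω) ⊆ powersetCard r Ω := by
  intro B hB
  obtain ⟨a, h1, h2⟩ := mem_shadow_iff_insert_mem.1 hB
  obtain ⟨h3, h4⟩ := mem_powersetCard.1 h2
  rw [card_insert_of_notMem h1] at h4
  exact mem_powersetCard.2 ⟨(subset_insert _ _).trans h3, by omega⟩

lemma shadow_powersetCard {r : ℕ} {Ω : Finset ℕ} (h : r + 1 ≤ Ω.card) :
    shadow (powersetCard (r + 1) Ω) = powersetCard r Ω := by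
  refine (shadow_powersetCard_subset r Ω).antisymm fun B hB => ?_
  obtain ⟨h1, h2⟩ := mem_powersetCard.1 hB
  obtain ⟨a, ha, haB⟩ := exists_mem_notMem_of_card_lt_card (s := B) (t := Ω) (by omega)
  exact mem_shadow_iff_insert_mem.2 ⟨a, haB, mem_powersetCard.2
    ⟨insert_subset ha h1, by rw [card_insert_of_notMem haB, h2]⟩⟩

/-- the shadow is invariant under injective relabelling -/
lemma shadow_image {α β : Type*} [DecidableEq α] [DecidableEq β] {f : α → β}
    (hf : Function.Injective f) (F : Finset (Finset α)) :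
    shadow (F.image (fun A => A.image f)) = (shadow F).image (fun A => A.image f) := by
  ext B
  simp only [mem_shadow_iff, mem_image]
  constructor
  · rintro ⟨_, ⟨A, hA, rfl⟩, _, hb, rfl⟩
    obtain ⟨a, ha, rfl⟩ := mem_image.1 hb
    exact ⟨A.erase a, ⟨A, hA, a, ha, rfl⟩, image_erase hf A a⟩
  · rintro ⟨_, ⟨A, hA, a, ha, rfl⟩, rfl⟩
    exact ⟨A.image f, ⟨A, hA, rfl⟩, f a, mem_image_of_mem f ha, (image_erase hf A a).symm⟩

/-- complements: the shadow of the complements of the non-shadow sets avoids complements of F -/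
lemma card_shadow_dual {r : ℕ} {Ω : Finset ℕ} {F : Finset (Finset ℕ)} (hF : Unif (r + 1) F)
    (hin : Inside Ω F) :
    (shadow ((powersetCard r Ω \ shadow F).image (fun B => Ω \ B))).card + F.card
      ≤ Ω.card.choose (r + 1) := by
  have hsub : F ⊆ powersetCard (r + 1) Ω := fun A hA => mem_powersetCard.2 ⟨hin A hA, hF A hA⟩
  have h1 : shadow ((powersetCard r Ω \ shadow F).image (fun B => Ω \ B)) ⊆
      (powersetCard (r + 1) Ω \ F).image (fun B => Ω \ B) := by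
    intro C hC
    obtain ⟨_, hA, z, hz, rfl⟩ := mem_shadow_iff.1 hC
    obtain ⟨B, hB, rfl⟩ := mem_image.1 hA
    obtain ⟨hB1, hB2⟩ := mem_sdiff.1 hB
    obtain ⟨hB3, hB4⟩ := mem_powersetCard.1 hB1
    obtain ⟨hz1, hz2⟩ := mem_sdiff.1 hz
    refine mem_image.2 ⟨insert z B, mem_sdiff.2 ⟨mem_powersetCard.2
      ⟨insert_subset hz1 hB3, by rw [card_insert_of_notMem hz2, hB4]⟩, fun hm => hB2 ?_⟩, ?_⟩
    · exact mem_shadow_iff_insert_mem.2 ⟨z, hz2, hm⟩
    · exact sdiff_insert _ _ _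
  have h2 := (card_le_card h1).trans card_image_le
  have h3 := card_sdiff_add_card_eq_card hsub
  rw [card_powersetCard] at h3
  omega

lemma card_image_sdiff {Ω : Finset ℕ} {G : Finset (Finset ℕ)} (hin : Inside Ω G) :
    (G.image (fun B => Ω \ B)).card = G.card := by
  refine card_image_of_injOn fun A hA B hB h => ?_
  have h' : Ω \ A = Ω \ B := h
  rw [← Finset.sdiff_sdiff_eq_self (hin A hA), h', Finset.sdiff_sdiff_eq_self (hin B hB)]

end Pool.Agent.P.MP_247656_co.R
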