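import Pool.Agent.P.MP_247656_co.R.Sigma
import Pool.Agent.P.MP_247656_co.R.Split

open Finset

namespace Pool.Agent.P.MP_247656_co.R

private lemma lk_cons {v : ℕ} {P Q : Finset (Finset ℕ)} (hP : ∀ A ∈ P, v ∉ A)
    (hQ : ∀ A ∈ Q, v ∉ A) : lk v (P ∪ Q.image (insert v)) = Q := by
  ext A
  rw [mem_lk, mem_union, mem_image]
  constructor
  · rintro ⟨h | ⟨B, hB, hBA⟩, hv⟩
    · exact absurd (mem_insert_self v A) (hP _ h)
    · have : B = A := by
        rw [← erase_insert (hQ B hB), hBA, erase_insert hv]
      exact this ▸ hB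
  · intro h
    exact ⟨Or.inr ⟨A, h, rfl⟩, hQ A h⟩

private lemma dl_cons {v : ℕ} {P Q : Finset (Finset ℕ)} (hP : ∀ A ∈ P, v ∉ A) :
    dl v (P ∪ Q.image (insert v)) = P := by
  ext A
  rw [mem_dl, mem_union, mem_image]
  constructor
  · rintro ⟨h | ⟨B, _, hBA⟩, hv⟩
    · exact h
    · exact absurd (hBA ▸ mem_insert_self v B) hv
  · intro h
    exact ⟨Or.inl h, hP A h⟩

private lemma card_cons' {v : ℕ} {P Q : Finset (Finset ℕ)} (hP : ∀ A ∈ P, v ∉ A)
    (hQ : ∀ A ∈ Q, v ∉ A) : (P ∪ Q.image (insert v)).card = P.card + Q.card := by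
  rw [← card_lk_add_dl v, lk_cons hP hQ, dl_cons hP, add_comm]

private lemma unif_cons {r v : ℕ} {P Q : Finset (Finset ℕ)} (hP : Unif (r + 1) P)
    (hQ : Unif r Q) (hv : ∀ A ∈ Q, v ∉ A) : Unif (r + 1) (P ∪ Q.image (insert v)) := by
  intro A hA
  rcases mem_union.1 hA with h | h
  · exact hP A h
  · obtain ⟨B, hB, rfl⟩ := mem_image.1 h
    rw [card_insert_of_notMem (hv B hB), hQ B hB]

private lemma notMem_of_inside {M v : ℕ} {P : Finset (Finset ℕ)} (h : Inside (range M) P)
    (hv : M ≤ v) : ∀ A ∈ P, v ∉ A := by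
  intro A hA hvA
  have := mem_range.1 (h A hA hvA)
  omega

private lemma inside_pc (r M : ℕ) : Inside (range M) (powersetCard r (range M)) :=
  fun _ hA => (mem_powersetCard.1 hA).1

private lemma unif_pc (r M : ℕ) : Unif r (powersetCard r (range M)) :=
  fun _ hA => (mem_powersetCard.1 hA).2

lemma sig_split {r : ℕ} (hr : 1 ≤ r) (f c : ℕ) :
    sig (r + 1) (f + c) ≤ max (sig (r + 1) f) c + sig r c := by
  obtain ⟨P, hP, rfl⟩ := exists_seg (r := r + 1) (by omega) f
  obtain ⟨Q, hQ, rfl⟩ := exists_seg hr c
  obtain ⟨v, hv⟩ := Infinite.exists_notMem_finset ((P ∪ Q).biUnion id)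
  have hPv : ∀ A ∈ P, v ∉ A := fun A hA h =>
    hv (mem_biUnion.2 ⟨A, mem_union_left _ hA, h⟩)
  have hQv : ∀ A ∈ Q, v ∉ A := fun A hA h =>
    hv (mem_biUnion.2 ⟨A, mem_union_right _ hA, h⟩)
  have h1 := sig_le (t := P.card + Q.card) (unif_cons (seg_unif hP) (seg_unif hQ) hQv)
    (card_cons' hPv hQv).ge
  rw [card_shadow_split v, lk_cons hPv hQv, dl_cons hPv] at h1
  rw [sig_seg hP, sig_seg hQ]
  have h2 : (shadow P ∪ Q).card ≤ max (shadow P).card Q.card := by
    rcases le_total (shadow P).card Q.card with h | h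
    · rw [union_eq_right.2 (seg_nested hQ (seg_shadow hP) h)]
      exact le_max_right _ _
    · rw [union_eq_left.2 (seg_nested (seg_shadow hP) hQ h)]
      exact le_max_left _ _
  omega

lemma sig_casc {r M v : ℕ} (hr : 1 ≤ r) (hv : v ≤ M.choose r) (h : r + 1 ≤ M ∨ 1 ≤ v) :
    sig (r + 1) (M.choose (r + 1) + v) = M.choose r + sig r v := by
  obtain ⟨P, hP, rfl⟩ := exists_seg hr v
  have hin := seg_inside hP hv
  have h1 := notMem_of_inside (inside_pc (r + 1) M) le_rfl
  have h2 := notMem_of_inside hin le_rfl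
  have h3 := sig_seg (seg_cons hP hin)
  rw [card_cons' h1 h2, card_powersetCard, card_range, card_shadow_split M, lk_cons h1 h2,
    dl_cons h1] at h3
  have hsub : P ⊆ powersetCard r (range M) := fun A hA =>
    mem_powersetCard.2 ⟨hin A hA, seg_unif hP A hA⟩
  have h4 : shadow (powersetCard (r + 1) (range M)) ∪ P = powersetCard r (range M) := by
    by_cases hM : r + 1 ≤ M
    · rw [shadow_powersetCard (by rwa [card_range]), union_eq_left.2 hsub]
    · have h5 : 1 ≤ P.card := h.resolve_left hM
      refine eq_of_subset_of_card_le (union_subset (shadow_powersetCard_subset _ _) hsub) ?_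
      have h6 : M.choose r ≤ 1 := by
        rcases Nat.lt_or_ge M r with h7 | h7
        · rw [Nat.choose_eq_zero_of_lt h7]; omega
        · have : M = r := by omega
          rw [this, Nat.choose_self]
      rw [card_powersetCard, card_range]
      exact h6.trans (h5.trans (card_le_card subset_union_right))
  rw [h3, h4, card_powersetCard, card_range, sig_seg hP]

lemma sig_choose {r M : ℕ} (h : r + 1 ≤ M) : sig (r + 1) (M.choose (r + 1)) = M.choose r := by
  have h1 := sig_seg (seg_cons (r := r) (M := M) Colex.isInitSeg_empty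
    (fun A hA => absurd hA (notMem_empty A)))
  rw [image_empty, union_empty, card_powersetCard, card_range,
    shadow_powersetCard (by rwa [card_range]), card_powersetCard, card_range] at h1
  exact h1

lemma sig_choose_le (r M : ℕ) : sig (r + 1) (M.choose (r + 1)) ≤ M.choose r := by
  have h1 := sig_le (t := M.choose (r + 1)) (unif_pc (r + 1) M)
    (by rw [card_powersetCard, card_range])
  have h2 := card_le_card (shadow_powersetCard_subset r (range M))
  rw [card_powersetCard, card_range] at h2
  omega

lemma choose_le_sig {r M c : ℕ} (h : M.choose (r + 1) < c) : M.choose r ≤ sig (r + 1) c := by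
  by_cases hM : r + 1 ≤ M
  · rw [← sig_choose hM]
    exact sig_mono (by omega) h.le
  · obtain ⟨P, hP, rfl⟩ := exists_seg (r := r + 1) (by omega) c
    have h1 := le_card_shadow (seg_unif hP) (card_pos.1 (by omega))
    have h6 : M.choose r ≤ 1 := by
      rcases Nat.lt_or_ge M r with h7 | h7
      · rw [Nat.choose_eq_zero_of_lt h7]; omega
      · have : M = r := by omega
        rw [this, Nat.choose_self]
    rw [sig_seg hP]
    omega

private lemma card_image_insert {v : ℕ} {Q : Finset (Finset ℕ)} (hQ : ∀ A ∈ Q, v ∉ A) :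
    (Q.image (insert v)).card = Q.card := by
  refine card_image_of_injOn fun A hA B hB hAB => ?_
  rw [← erase_insert (hQ A hA), ← erase_insert (hQ B hB)]
  exact congrArg (fun S => Finset.erase S v) hAB

/-- a complete family with h new vertices carrying nested colex segments -/
lemma config {r M h : ℕ} (hr : 1 ≤ r) (p : ℕ → ℕ) (hanti : ∀ i, i + 1 ≤ h → p (i + 1) ≤ p i)
    (hp : p 0 ≤ M.choose r) :
    ∃ G : Finset (Finset ℕ), Unif (r + 1) G ∧ Inside (range (M + h + 1)) G ∧
      Shifted (range (M + h + 1)) G ∧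
      G.card = M.choose (r + 1) + ∑ i ∈ range (h + 1), p i ∧
      (shadow G).card ≤ M.choose r + ∑ i ∈ range (h + 1), sig r (p i) ∧
      p h ≤ (lk (M + h) G).card := by
  choose P hP hPc using fun i => exists_seg hr (p i)
  have hmono : ∀ s t, s ≤ t → t ≤ h → p t ≤ p s := by
    intro s t hst
    induction t, hst using Nat.le_induction with
    | base => intro _; exact le_rfl
    | succ t _ ih => intro ht; exact (hanti t ht).trans (ih (by omega))
  have hin : ∀ i, i ≤ h → Inside (range M) (P i) := fun i hi =>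
    seg_inside (hP i) (by rw [hPc]; exact (hmono 0 i (Nat.zero_le _) hi).trans hp)
  have hnot : ∀ i, i ≤ h → ∀ s, ∀ A ∈ P i, M + s ∉ A := fun i hi s =>
    notMem_of_inside (hin i hi) (by omega)
  have hmem : ∀ A, A ∈ powersetCard (r + 1) (range M) ∪
      (range (h + 1)).biUnion (fun i => (P i).image (insert (M + i))) ↔
      (A ⊆ range M ∧ A.card = r + 1) ∨ ∃ i, i ≤ h ∧ ∃ B ∈ P i, insert (M + i) B = A := by
    intro A
    simp only [mem_union, mem_powersetCard, mem_biUnion, mem_image, mem_range, Nat.lt_succ_iff]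
  refine ⟨powersetCard (r + 1) (range M) ∪
    (range (h + 1)).biUnion (fun i => (P i).image (insert (M + i))), ?_, ?_, ?_, ?_, ?_, ?_⟩
  · intro A hA
    rcases (hmem A).1 hA with h1 | ⟨i, hi, B, hB, rfl⟩
    · exact h1.2
    · rw [card_insert_of_notMem (hnot i hi i B hB), seg_unif (hP i) B hB]
  · intro A hA
    rcases (hmem A).1 hA with h1 | ⟨i, hi, B, hB, rfl⟩
    · exact h1.1.trans (range_subset_range.2 (by omega))
    · exact insert_subset (mem_range.2 (by omega))
        ((hin i hi B hB).trans (range_subset_range.2 (by omega)))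
  · intro A hA i hi j hj hij hiA
    rw [hmem]
    rcases (hmem A).1 hA with h1 | ⟨t, ht, B, hB, rfl⟩
    · left
      have hjM := mem_range.1 (h1.1 hj)
      refine ⟨insert_subset (mem_range.2 (by omega)) ((erase_subset _ _).trans h1.1), ?_⟩
      rw [card_insert_of_notMem (fun h2 => hiA (mem_of_mem_erase h2)), card_erase_of_mem hj, h1.2]
      omega
    · have hiB : i ∉ B := fun h2 => hiA (mem_insert_of_mem h2)
      rcases mem_insert.1 hj with rfl | hjB
      · rw [erase_insert (hnot t ht t B hB)]
        by_cases hiM : i < M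
        · left
          refine ⟨insert_subset (mem_range.2 hiM) (hin t ht B hB), ?_⟩
          rw [card_insert_of_notMem hiB, seg_unif (hP t) B hB]
        · right
          obtain ⟨s, rfl⟩ : ∃ s, i = M + s := ⟨i - M, by omega⟩
          refine ⟨s, by omega, B, ?_, rfl⟩
          exact seg_nested (hP s) (hP t)
            (by rw [hPc, hPc]; exact hmono s t (by omega) ht) hB
      · right
        refine ⟨t, ht, insert i (B.erase j), seg_shifted (hP t) _ B hB i hi j hjB hij hiB, ?_⟩
        have hjM := mem_range.1 (hin t ht B hB hjB)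
        rw [erase_insert_of_ne (by omega), Finset.insert_comm]
  · rw [card_union_of_disjoint, card_powersetCard, card_range, card_biUnion]
    · congr 1
      refine sum_congr rfl fun i hi => ?_
      rw [card_image_insert (hnot i (Nat.lt_succ_iff.1 (mem_range.1 hi)) i), hPc]
    · intro i hi j hj hij
      rw [Function.onFun, disjoint_left]
      intro A hA hA'
      obtain ⟨B, hB, rfl⟩ := mem_image.1 hA
      obtain ⟨C, hC, hCB⟩ := mem_image.1 hA'
      have h2 : M + i ∈ insert (M + j) C := hCB ▸ mem_insert_self _ _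
      rcases mem_insert.1 h2 with h3 | h3
      · exact hij (by omega)
      · exact hnot j (Nat.lt_succ_iff.1 (mem_range.1 hj)) i C hC h3
    · rw [disjoint_left]
      intro A hA hA'
      obtain ⟨i, _, hA'⟩ := mem_biUnion.1 hA'
      obtain ⟨B, _, rfl⟩ := mem_image.1 hA'
      have := mem_range.1 ((mem_powersetCard.1 hA).1 (mem_insert_self _ _))
      omega
  · have hsub : shadow (powersetCard (r + 1) (range M) ∪
        (range (h + 1)).biUnion (fun i => (P i).image (insert (M + i)))) ⊆
        powersetCard r (range M) ∪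
        (range (h + 1)).biUnion (fun i => (shadow (P i)).image (insert (M + i))) := by
      intro C hC
      obtain ⟨A, hA, a, ha, rfl⟩ := mem_shadow_iff.1 hC
      rcases (hmem A).1 hA with h1 | ⟨t, ht, B, hB, rfl⟩
      · refine mem_union_left _ (mem_powersetCard.2 ⟨(erase_subset _ _).trans h1.1, ?_⟩)
        rw [card_erase_of_mem ha, h1.2]
        omega
      · rcases mem_insert.1 ha with rfl | haB
        · rw [erase_insert (hnot t ht t B hB)]
          exact mem_union_left _ (mem_powersetCard.2 ⟨hin t ht B hB, seg_unif (hP t) B hB⟩)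
        · refine mem_union_right _ (mem_biUnion.2 ⟨t, mem_range.2 (by omega), mem_image.2
            ⟨B.erase a, erase_mem_shadow hB haB, ?_⟩⟩)
          have haM := mem_range.1 (hin t ht B hB haB)
          rw [erase_insert_of_ne (by omega)]
    refine (card_le_card hsub).trans ((card_union_le _ _).trans ?_)
    rw [card_powersetCard, card_range]
    refine Nat.add_le_add_left (card_biUnion_le.trans (sum_le_sum fun i _ => ?_)) _
    rw [← hPc, sig_seg (hP i)]
    exact card_image_le
  · rw [← hPc]
    refine card_le_card fun B hB => mem_lk.2 ⟨(hmem _).2 (Or.inr ⟨h, le_rfl, B, hB, rfl⟩), ?_⟩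
    exact hnot h le_rfl h B hB

lemma sig_conf2 {r M a b : ℕ} (hr : 1 ≤ r) (ha : a ≤ M.choose r) (hb : b ≤ M.choose r) :
    sig (r + 1) (M.choose (r + 1) + a + b) ≤ M.choose r + sig r a + sig r b := by
  have key : ∀ a b : ℕ, a ≤ M.choose r → b ≤ a →
      sig (r + 1) (M.choose (r + 1) + a + b) ≤ M.choose r + sig r a + sig r b := by
    intro a b ha hba
    obtain ⟨G, h1, -, -, h2, h3, -⟩ := config (M := M) (h := 1) hr
      (fun i => if i = 0 then a else b)
      (fun i hi => by
        have : i = 0 := by omega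
        subst this
        simpa using hba) (by simpa using ha)
    simp only [sum_range_succ, range_zero, sum_empty, zero_add, if_true, one_ne_zero,
      if_false] at h2 h3
    have h4 := sig_le (t := M.choose (r + 1) + a + b) h1 (by omega)
    omega
  rcases le_total b a with h | h
  · exact key a b ha h
  · have := key b a hb h
    rw [add_right_comm (M.choose (r + 1)) a b]
    omega

lemma sig_subadd {r : ℕ} (hr : 1 ≤ r) (a b : ℕ) : sig r (a + b) ≤ sig r a + sig r b := by
  have h0 : ∀ n : ℕ, n ≤ (n + r).choose r := by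
    intro n
    obtain ⟨s, rfl⟩ : ∃ s, r = s + 1 := ⟨r - 1, by omega⟩
    induction n with
    | zero => exact Nat.zero_le _
    | succ n ih =>
      have h1 : n + 1 + (s + 1) = (n + (s + 1)) + 1 := by omega
      have h2 : 0 < (n + (s + 1)).choose s := Nat.choose_pos (by omega)
      rw [h1, Nat.choose_succ_succ']
      omega
  have h1 : a + b ≤ (a + b + 1 + r).choose r := (Nat.le_succ _).trans (h0 (a + b + 1))
  have h2 := sig_conf2 (M := a + b + 1 + r) (a := a) (b := b) hr (by omega) (by omega)
  have h3 := sig_casc (M := a + b + 1 + r) (v := a + b) hr h1 (Or.inl (by omega))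
  rw [add_assoc] at h2
  omega

end Pool.Agent.P.MP_247656_co.R
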