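import Pool.Agent.P.MP_247656_co.R.N

/-! Families of large minimum degree on a ground set with a superfluous vertex. -/

open Finset

namespace Pool.Agent.P.MP_247656_co.R

/-- shifting potential -/
def pot (F : Finset (Finset ℕ)) : ℕ := ∑ A ∈ F, ∑ i ∈ A, i

lemma cmp_eq {u v : ℕ} (huv : u ≠ v) (A : Finset ℕ) :
    UV.compress ({u} : Finset ℕ) {v} A = if u ∉ A ∧ v ∈ A then insert u (A.erase v) else A := by
  unfold UV.compress
  simp only [disjoint_singleton_left, singleton_subset_iff]
  split_ifs with h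
  · ext z
    simp only [sup_eq_union, mem_sdiff, mem_union, mem_singleton, mem_insert, mem_erase]
    constructor
    · rintro ⟨h1 | h1, h2⟩
      · exact Or.inr ⟨h2, h1⟩
      · exact Or.inl h1
    · rintro (h1 | ⟨h1, h2⟩)
      · exact ⟨Or.inr h1, by rw [h1]; exact huv⟩
      · exact ⟨Or.inl h2, h1⟩
  · rfl

lemma pot_lt {u v : ℕ} (huv : u < v) {F : Finset (Finset ℕ)}
    (hne : ∃ A ∈ F, UV.compress ({u} : Finset ℕ) {v} A ∉ F) :
    pot (UV.compression ({u} : Finset ℕ) {v} F) < pot F := by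
  rw [UV.compression]
  have uA : {A ∈ F | UV.compress ({u} : Finset ℕ) {v} A ∈ F} ∪
      {A ∈ F | UV.compress ({u} : Finset ℕ) {v} A ∉ F} = F := filter_union_filter_not_eq _ _
  have ne₂ : {A ∈ F | UV.compress ({u} : Finset ℕ) {v} A ∉ F}.Nonempty := by
    obtain ⟨A, h1, h2⟩ := hne
    exact ⟨A, mem_filter.2 ⟨h1, h2⟩⟩
  rw [pot, pot, sum_union UV.compress_disjoint]
  conv_rhs => rw [← uA]
  rw [sum_union (disjoint_filter_filter_not _ _ _), add_lt_add_iff_left, filter_image,
    sum_image UV.compress_injOn]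
  refine sum_lt_sum_of_nonempty ne₂ fun A hA ↦ ?_
  rw [mem_filter] at hA
  rw [cmp_eq huv.ne] at hA ⊢
  split_ifs at hA ⊢ with h
  · rw [sum_insert (by simp [h.1]), ← add_sum_erase A (fun i => i) h.2]
    omega
  · exact absurd hA.1 hA.2

lemma exists_shift {r : ℕ} {Ω : Finset ℕ} {F : Finset (Finset ℕ)} (hU : Unif r F)
    (hin : Inside Ω F) (hS : ¬ Shifted Ω F) :
    ∃ u ∈ Ω, ∃ v ∈ Ω, u ≠ v ∧ ∃ F' : Finset (Finset ℕ), Unif r F' ∧ Inside Ω F' ∧
      F'.card = F.card ∧ (shadow F').card ≤ (shadow F).card ∧ pot F' < pot F ∧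
      (∀ z, z ≠ v → (lk z F).card ≤ (lk z F').card) ∧
      (lk u (lk v F)).card + (lk u (dl v F) ∩ dl u (lk v F)).card ≤ (lk v F').card := by
  unfold Shifted at hS
  push Not at hS
  obtain ⟨A, hA, u, hu, v, hv, huv, huA, hnot⟩ := hS
  refine ⟨u, hu, v, hin A hA hv, huv.ne, UV.compression ({u} : Finset ℕ) {v} F, ?_, ?_,
    UV.card_compression _ _ _, ?_, ?_, ?_, ?_⟩
  · intro B hB
    exact Set.Sized.uvCompression (𝒜 := F) (r := r) (by simp) (fun _ h => hU _ h) hB
  · intro B hB
    rcases UV.mem_compression.1 hB with h | ⟨-, C, hC, rfl⟩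
    · exact hin B h.1
    · rw [cmp_eq huv.ne]
      split_ifs
      · exact insert_subset hu ((erase_subset _ _).trans (hin C hC))
      · exact hin C hC
  · refine UV.card_shadow_compression_le _ _ ?_
    intro x hx
    rw [mem_singleton] at hx
    refine ⟨v, mem_singleton_self v, ?_⟩
    rw [hx, erase_singleton, erase_singleton]
    exact UV.isCompressed_self _ _
  · refine pot_lt huv ⟨A, hA, ?_⟩
    rw [cmp_eq huv.ne, if_pos ⟨huA, hv⟩]
    exact hnot
  · intro z hz
    rw [card_lk, card_lk, ← UV.card_compression ({u} : Finset ℕ) {v} (F.filter (fun A => z ∈ A))]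
    refine card_le_card ?_
    intro B hB
    rw [mem_filter]
    rcases UV.mem_compression.1 hB with ⟨h1, h2⟩ | ⟨h1, C, hC, hCB⟩
    · rw [mem_filter] at h1 h2
      exact ⟨UV.mem_compression.2 (Or.inl ⟨h1.1, h2.1⟩), h1.2⟩
    · rw [mem_filter] at h1 hC
      have hzB : z ∈ B := by
        rw [← hCB, cmp_eq huv.ne]
        split_ifs
        · exact mem_insert_of_mem (mem_erase.2 ⟨hz, hC.2⟩)
        · exact hC.2
      exact ⟨UV.mem_compression.2 (Or.inr ⟨fun h => h1 ⟨h, hzB⟩, C, hC.1, hCB⟩), hzB⟩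
  · rw [← card_lk_add_dl u (lk v (UV.compression ({u} : Finset ℕ) {v} F))]
    refine Nat.add_le_add (card_le_card ?_) (card_le_card ?_)
    · intro B hB
      rw [mem_lk, mem_lk] at hB ⊢
      refine ⟨⟨UV.mem_compression.2 (Or.inl ⟨hB.1.1, ?_⟩), hB.1.2⟩, hB.2⟩
      rw [cmp_eq huv.ne, if_neg (by simp)]
      exact hB.1.1
    · intro B hB
      rw [mem_inter, mem_lk, mem_dl, mem_dl, mem_lk] at hB
      rw [mem_dl, mem_lk]
      obtain ⟨⟨⟨h1, h2⟩, h3⟩, ⟨h4, h5⟩, -⟩ := hB
      refine ⟨⟨UV.mem_compression.2 (Or.inl ⟨h4, ?_⟩), h5⟩, h3⟩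
      rw [cmp_eq huv.ne, if_pos ⟨by simp [huv.ne, h3], by simp⟩, erase_insert h5]
      exact h1

lemma crossing {j q s : ℕ} {a : ℕ → ℕ} {x y : ℝ} (hp : Par j q x y) (hc : Cas j q s a)
    {F : Finset (Finset ℕ)} (hU : Unif (j + s + 2) F) {u v : ℕ} (huv : u ≠ v)
    (hdu : rb x (j + 1) + del j q < (lk u F).card) (hdv : rb x (j + 1) + del j q < (lk v F).card)
    (hpq : ((lk u (lk v F)).card : ℝ) + (lk u (dl v F) ∩ dl u (lk v F)).card ≤ rb x (j + 1))
    (hsz : sz j q s a x y ≤ F.card) : bd j q s a x y ≤ (shadow F).card := by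
  have hg0 := g_nonneg hp
  have hd0 := del_nonneg hp
  have hld := lam_le_del hp
  have s1 := card_shadow_split v F
  have s2 := card_lk_add_dl u (shadow (dl v F) ∪ lk v F)
  rw [lk_union, dl_union, lk_shadow, dl_shadow] at s2
  set F0 := dl u (dl v F) with hF0
  set Fu := lk u (dl v F) with hFu
  set Fv := dl u (lk v F) with hFv
  set P := lk u (lk v F) with hP
  set Z := (shadow F0 ∪ Fu ∪ Fv).card with hZ
  have c1 := card_lk_add_dl v F
  have c2 := card_lk_add_dl u (dl v F)
  have c3 := card_lk_add_dl u (lk v F)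
  have c4 := card_lk_add_dl v (lk u F)
  rw [← lk_lk u v F huv, ← lk_dl u v F huv] at c4
  rw [← hF0, ← hFu] at c2
  rw [← hFv, ← hP] at c3
  rw [← hFu, ← hP] at c4
  have hU0 : Unif (j + s + 2) F0 := (hU.dl v).dl u
  have hUu : Unif (j + s + 1) Fu := (hU.dl v).lk u
  have hUv : Unif (j + s + 1) (lk v F) := hU.lk v
  have z1 : sig (j + s + 2) F0.card ≤ Z :=
    (sig_le hU0 le_rfl).trans (card_le_card (subset_union_left.trans subset_union_left))
  have z2 : Fu.card + Fv.card ≤ Z + (Fu ∩ Fv).card := by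
    rw [← card_union_add_card_inter]
    exact Nat.add_le_add_right
      (card_le_card (union_subset_union subset_union_right (subset_refl _))) _
  have z3 : sig (j + s + 1) Fu.card ≤ (shadow Fu ∪ P).card :=
    (sig_le hUu le_rfl).trans (card_le_card subset_union_left)
  have z4 : P.card ≤ (shadow Fu ∪ P).card := card_le_card subset_union_right
  have z5 : sig (j + s + 1) (lk v F).card ≤ (shadow (lk v F)).card := sig_le hUv le_rfl
  have c1R : ((lk v F).card : ℝ) + (dl v F).card = F.card := by exact_mod_cast c1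
  have c2R : (Fu.card : ℝ) + F0.card = (dl v F).card := by exact_mod_cast c2
  have c3R : (P.card : ℝ) + Fv.card = (lk v F).card := by exact_mod_cast c3
  have c4R : (P.card : ℝ) + Fu.card = (lk u F).card := by exact_mod_cast c4
  have z2R : (Fu.card : ℝ) + Fv.card ≤ Z + (Fu ∩ Fv).card := by exact_mod_cast z2
  have hb1 : 1 ≤ (lk v F).card := by
    have : (0 : ℝ) < (lk v F).card := by linarith
    exact_mod_cast this
  by_cases ha : 1 ≤ Fu.card ∧ rb x (j + 1) ≤ Fu.card
  · have h1 := N_sym (f0 := F0.card) (Z := Z) hp hc ha.1 ha.2 hb1 (by linarith) z1 (by linarith)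
      (by linarith)
    have h2 : Z + sig (j + s + 1) Fu.card + sig (j + s + 1) (lk v F).card ≤ (shadow F).card := by
      omega
    have h3 : (Z : ℝ) + sig (j + s + 1) Fu.card + sig (j + s + 1) (lk v F).card
        ≤ (shadow F).card := by exact_mod_cast h2
    linarith
  · have ha' : (Fu.card : ℝ) ≤ rb x (j + 1) := by
      by_cases h : 1 ≤ Fu.card
      · have := not_and.1 ha h
        linarith [not_le.1 this]
      · have : Fu.card = 0 := by omega
        rw [this]; simpa using hg0
    have e1 : j + s + 2 = j + 2 + s := by ring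
    have h1 := L2' (f := F0.card + min (lk v F).card Z) hp hc (by
      unfold sz at hsz
      push_cast
      rcases min_choice ((lk v F).card : ℝ) Z with h | h <;> rw [h] <;> linarith)
    rw [← e1] at h1
    have h2 := sig_split (r := j + s + 1) (by omega) F0.card (min (lk v F).card Z)
    have h3 : sig (j + s + 1) (min (lk v F).card Z) ≤ sig (j + s + 1) (lk v F).card :=
      sig_mono (by omega) (min_le_left _ _)
    have h4 : max (sig (j + s + 1 + 1) F0.card) (min (lk v F).card Z) ≤ Z :=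
      max_le z1 (min_le_right _ _)
    have h5 : sig (j + s + 2) (F0.card + min (lk v F).card Z) + P.card ≤ (shadow F).card := by
      have : sig (j + s + 2) (F0.card + min (lk v F).card Z)
        = sig (j + s + 1 + 1) (F0.card + min (lk v F).card Z) := rfl
      omega
    have h6 : (sig (j + s + 2) (F0.card + min (lk v F).card Z) : ℝ) + P.card
        ≤ (shadow F).card := by exact_mod_cast h5
    unfold bd
    linarith

theorem Dplus {j q s m : ℕ} {a : ℕ → ℕ} {x y : ℝ} (hp : Par j q x y) (hc : Cas j q s a)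
    {Ω : Finset ℕ} (hΩ : Ω.card = m + 1) (hfit : Fits a s m) (F : Finset (Finset ℕ))
    (hU : Unif (j + s + 2) F) (hin : Inside Ω F)
    (hdeg : ∀ v ∈ Ω, 1 ≤ (lk v F).card ∧ rb x (j + 1) ≤ (lk v F).card)
    (hsz : sz j q s a x y ≤ F.card) : bd j q s a x y ≤ (shadow F).card := by
  induction h : pot F using Nat.strong_induction_on generalizing F with
  | _ N ih =>
  by_cases hband : ∃ v ∈ Ω, ((lk v F).card : ℝ) ≤ rb x (j + 1) + del j q
  · obtain ⟨v, hv, h1⟩ := hband
    have hsplitR : ((lk v F).card : ℝ) + (dl v F).card = F.card := by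
      exact_mod_cast card_lk_add_dl v F
    have h2 := bandD (f := (dl v F).card) (l := j + s + 1) hp hc (by omega) (hdeg v hv).1
      (hdeg v hv).2 h1 (by linarith)
    have h3 : ((sig (j + s + 2) (dl v F).card : ℝ)) + sig (j + s + 1) (lk v F).card
        ≤ (shadow F).card := by exact_mod_cast sig_split_le hU v
    linarith
  push Not at hband
  by_cases hS : Shifted Ω F
  · have hne : Ω.Nonempty := card_pos.1 (by omega)
    have e1 : j + s + 2 = j + 2 + s := by ring
    have hw := max'_mem Ω hne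
    exact stA j q s a x y Ω F m (Ω.max' hne) hp hc hΩ hfit (e1 ▸ hU) hin hS hw
      (fun u hu => le_max' _ _ hu) (hdeg _ hw).1 (hdeg _ hw).2 hsz
  obtain ⟨u, hu, v, hv, huv, F', hU', hin', hcard, hsh, hpot, hd1, hd2⟩ := exists_shift hU hin hS
  by_cases hk : 1 ≤ (lk v F').card ∧ rb x (j + 1) ≤ (lk v F').card
  · have h1 := ih (pot F') (by omega) F' hU' hin' (fun z hz => by
      by_cases hzv : z = v
      · rw [hzv]; exact hk
      · have h2 := hd1 z hzv
        have h3 : ((lk z F).card : ℝ) ≤ (lk z F').card := by exact_mod_cast h2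
        exact ⟨(hdeg z hz).1.trans h2, (hdeg z hz).2.trans h3⟩) (by rw [hcard]; exact hsz) rfl
    have h2 : ((shadow F').card : ℝ) ≤ (shadow F).card := by exact_mod_cast hsh
    linarith
  · have hk' : ((lk v F').card : ℝ) ≤ rb x (j + 1) := by
      by_cases h : 1 ≤ (lk v F').card
      · have := not_and.1 hk h
        linarith [not_le.1 this]
      · have : (lk v F').card = 0 := by omega
        rw [this]; simpa using g_nonneg hp
    have h2 : ((lk u (lk v F)).card : ℝ) + (lk u (dl v F) ∩ dl u (lk v F)).card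
        ≤ (lk v F').card := by exact_mod_cast hd2
    exact crossing hp hc hU huv (hband u hu) (hband v hv) (by linarith) hsz

end Pool.Agent.P.MP_247656_co.R
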