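import Mathlib

/-! Definitions for the repaired colex-diversity theorem. -/

open Finset

namespace Pool.Agent.P.MP_247656_co.R

/-- generalised binomial coefficient -/
noncomputable def rb (z : ℝ) (m : ℕ) : ℝ :=
  (∏ i ∈ Finset.range m, (z - (i : ℝ))) / (m.factorial : ℝ)

/-- all members have r elements -/
def Unif (r : ℕ) (F : Finset (Finset ℕ)) : Prop := ∀ A ∈ F, A.card = r

/-- all members lie in Ω -/
def Inside (Ω : Finset ℕ) (F : Finset (Finset ℕ)) : Prop := ∀ A ∈ F, A ⊆ Ω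

/-- the least shadow of a family of at least t r-sets -/
noncomputable def sig (r t : ℕ) : ℕ :=
  sInf {c | ∃ F : Finset (Finset ℕ), Unif r F ∧ t ≤ F.card ∧ (shadow F).card = c}

/-- shifted towards small elements inside Ω -/
def Shifted (Ω : Finset ℕ) (F : Finset (Finset ℕ)) : Prop :=
  ∀ A ∈ F, ∀ i ∈ Ω, ∀ j ∈ A, i < j → i ∉ A → insert i (A.erase j) ∈ F

/-- link of a vertex -/
def lk (v : ℕ) (F : Finset (Finset ℕ)) : Finset (Finset ℕ) := memberSubfamily v F

/-- deletion of a vertex -/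
def dl (v : ℕ) (F : Finset (Finset ℕ)) : Finset (Finset ℕ) := nonMemberSubfamily v F

/-- cascade sum -/
def T (a : ℕ → ℕ) (k s : ℕ) : ℕ := ∑ i ∈ range (s + 1), (a i).choose (k + i)

/-- strictly increasing up to s -/
def Inc (a : ℕ → ℕ) (s : ℕ) : Prop := ∀ i < s, a i < a (i + 1)

/-- the colex segment of the cascade lives on M points -/
def Fits (a : ℕ → ℕ) (s M : ℕ) : Prop := a s + min s 1 ≤ M

/-- admissible parameters: k = j + 2, n = j + q + 2 -/
structure Par (j q : ℕ) (x y : ℝ) : Prop where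
  hj : 1 ≤ j
  hq : 1 ≤ q
  hx1 : (j : ℝ) ≤ x
  hx2 : x ≤ (j : ℝ) + q - 1
  hy1 : (q : ℝ) ≤ y
  hy2 : y ≤ (j : ℝ) + q - 1

/-- admissible cascade -/
structure Cas (j q s : ℕ) (a : ℕ → ℕ) : Prop where
  h0 : a 0 = j + q + 2
  inc : Inc a s

/-- the size threshold -/
noncomputable def sz (j q s : ℕ) (a : ℕ → ℕ) (x y : ℝ) : ℝ :=
  (T a (j + 2) s : ℝ) - rb y q + rb x (j + 1)

/-- the shadow bound -/
noncomputable def bd (j q s : ℕ) (a : ℕ → ℕ) (x y : ℝ) : ℝ :=
  (T a (j + 1) s : ℝ) - rb y (q + 1) + rb x j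

end Pool.Agent.P.MP_247656_co.R
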