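import Pool.Agent.P.MP_247656_co.R.Words

/-! Every copy of the segment is contained in a permuted colex initial segment. -/

open Finset

namespace Pool.Agent.P.MP_247656_co.R

/-- the `L` largest naturals below `m`, in decreasing order -/
def linkTop : ℕ → ℕ → List ℕ
  | _, 0 => []
  | m, L + 1 => (m - 1) :: linkTop (m - 1) L

lemma linkTop_length (L : ℕ) : ∀ m, (linkTop m L).length = L := by
  induction L with
  | zero => intro m; rfl
  | succ L ih => intro m; simp [linkTop, ih]

lemma linkTop_lt (L : ℕ) : ∀ m, L ≤ m → ∀ v ∈ linkTop m L, v < m := by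
  induction L with
  | zero => intro m _ v hv; simp [linkTop] at hv
  | succ L ih =>
    intro m hm v hv
    simp only [linkTop, List.mem_cons] at hv
    rcases hv with rfl | hv
    · omega
    · have := ih (m - 1) (by omega) v hv
      omega

lemma linkTop_nodup (L : ℕ) : ∀ m, L ≤ m → (linkTop m L).Nodup := by
  induction L with
  | zero => intro m _; simp [linkTop]
  | succ L ih =>
    intro m hm
    simp only [linkTop, List.nodup_cons]
    exact ⟨fun h => lt_irrefl _ (linkTop_lt L (m - 1) (by omega) _ h), ih (m - 1) (by omega)⟩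

lemma link_down (w : List Bool) : ∀ (m : ℕ) (B C : Finset ℕ), w.length + 1 ≤ m →
    (∀ b ∈ B, b < m) → toColex C ≤ toColex B → Pw w (linkTop m (w.length + 1)) B →
    Pw w (linkTop m (w.length + 1)) C := by
  induction w with
  | nil =>
    intro m B C _ hB hCB h
    simp only [List.length_nil, linkTop, Pw] at h ⊢
    intro hc
    have hB' : ∀ b ∈ B, b < m - 1 := fun b hb => by
      have h1 := hB b hb
      have h2 : b ≠ m - 1 := fun e => h (e ▸ hb)
      omega
    exact lt_irrefl _ (Colex.forall_lt_mono hCB hB' _ hc)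
  | cons x w ih =>
    intro m B C hm hB hCB h
    rw [List.length_cons] at hm h ⊢
    have hout : m - 1 ∉ B → (∀ b ∈ B, b < m - 1) ∧ m - 1 ∉ C := by
      intro h0
      have hB' : ∀ b ∈ B, b < m - 1 := fun b hb => by
        have h1 := hB b hb
        have h2 : b ≠ m - 1 := fun e => h0 (e ▸ hb)
        omega
      exact ⟨hB', fun hc => lt_irrefl _ (Colex.forall_lt_mono hCB hB' _ hc)⟩
    cases x with
    | false =>
      rw [linkTop, Pw] at h ⊢
      exact ⟨(hout h.1).2, ih (m - 1) B C (by omega) (hout h.1).1 hCB h.2⟩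
    | true =>
      rw [linkTop, Pw] at h ⊢
      by_cases hc : m - 1 ∈ C
      · right
        have hb : m - 1 ∈ B := by
          by_contra h0
          exact (hout h0).2 hc
        have hP : Pw w (linkTop (m - 1) (w.length + 1)) B := h.resolve_left (not_not.2 hb)
        have hcong : ∀ D : Finset ℕ, Pw w (linkTop (m - 1) (w.length + 1)) (D \ {m - 1}) ↔
            Pw w (linkTop (m - 1) (w.length + 1)) D := by
          intro D
          refine Pw_congr fun v hv => ?_
          have := linkTop_lt _ (m - 1) (by omega) v hv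
          simp only [mem_sdiff, mem_singleton, and_iff_left_iff_imp]
          intro _
          omega
        refine (hcong C).1 (ih (m - 1) (B \ {m - 1}) (C \ {m - 1}) (by omega) ?_ ?_
          ((hcong B).2 hP))
        · intro b hb'
          rw [mem_sdiff, mem_singleton] at hb'
          have := hB b hb'.1
          have := hb'.2
          omega
        · exact (Colex.toColex_sdiff_le_toColex_sdiff (singleton_subset_iff.2 hc)
            (singleton_subset_iff.2 hb)).2 hCB
      · exact Or.inl hc

lemma link_transport {f : ℕ → ℕ} (hf : Function.Injective f) (B : Finset ℕ) (w : List Bool) :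
    ∀ l : List ℕ, Pw w (l.map f) (B.image f) ↔ Pw w l B := by
  induction w with
  | nil =>
    intro l
    cases l with
    | nil => simp [Pw]
    | cons v l => simp [Pw, hf.eq_iff]
  | cons x w ih =>
    intro l
    cases l with
    | nil => cases x <;> simp [Pw]
    | cons v l =>
      cases x
      · rw [List.map_cons, Pw, Pw, ih, hf.mem_finset_image]
      · rw [List.map_cons, Pw, Pw, ih, hf.mem_finset_image]

lemma link_step {Ω : Finset ℕ} {v : ℕ} (hv : v ∉ Ω) (π : Equiv.Perm ℕ)
    (h : (range Ω.card).image π = Ω) : ∃ ρ : Equiv.Perm ℕ,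
    (range (Ω.card + 1)).image ρ = insert v Ω ∧ ρ Ω.card = v ∧ ∀ i < Ω.card, ρ i = π i := by
  have h1 : ∀ i < Ω.card, (π.trans (Equiv.swap (π Ω.card) v)) i = π i := by
    intro i hi
    have hi' : π i ∈ Ω := by
      rw [← h]
      exact mem_image_of_mem _ (mem_range.2 hi)
    rw [Equiv.trans_apply, Equiv.swap_apply_of_ne_of_ne]
    · intro e
      have := π.injective e
      omega
    · rintro e
      exact hv (e ▸ hi')
  have h2 : (π.trans (Equiv.swap (π Ω.card) v)) Ω.card = v := by simp
  refine ⟨π.trans (Equiv.swap (π Ω.card) v), ?_, h2, h1⟩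
  rw [range_add_one, image_insert, h2]
  congr 1
  refine Eq.trans (image_congr fun i hi => h1 i (mem_range.1 (mem_coe.1 hi))) h

lemma link_perm0 (Ω : Finset ℕ) : ∃ π : Equiv.Perm ℕ, (range Ω.card).image π = Ω := by
  induction Ω using Finset.induction_on with
  | empty => exact ⟨1, by simp⟩
  | insert v Ω hv ih =>
    obtain ⟨π, h⟩ := ih
    obtain ⟨ρ, h1, -⟩ := link_step hv π h
    exact ⟨ρ, by rw [card_insert_of_notMem hv, h1]⟩

lemma link_perm (l : List ℕ) : ∀ Ω : Finset ℕ, l.Nodup → (∀ v ∈ l, v ∈ Ω) →
    l.length ≤ Ω.card ∧ ∃ π : Equiv.Perm ℕ, (range Ω.card).image π = Ω ∧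
      (linkTop Ω.card l.length).map π = l := by
  induction l with
  | nil =>
    intro Ω _ _
    obtain ⟨π, h⟩ := link_perm0 Ω
    exact ⟨Nat.zero_le _, π, h, rfl⟩
  | cons v l ih =>
    intro Ω hnd hsub
    rw [List.nodup_cons] at hnd
    have hv : v ∈ Ω := hsub v List.mem_cons_self
    obtain ⟨hle, π, h1, h2⟩ := ih (Ω.erase v) hnd.2 fun u hu =>
      mem_erase.2 ⟨fun e => hnd.1 (e ▸ hu), hsub u (List.mem_cons_of_mem _ hu)⟩
    obtain ⟨ρ, g1, g2, g3⟩ := link_step (notMem_erase v Ω) π h1
    have hc : Ω.card = (Ω.erase v).card + 1 := (card_erase_add_one hv).symm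
    rw [insert_erase hv] at g1
    refine ⟨by rw [List.length_cons]; omega, ρ, by rw [hc]; exact g1, ?_⟩
    rw [hc, List.length_cons, linkTop, Nat.add_sub_cancel, List.map_cons, g2]
    congr 1
    refine Eq.trans (List.map_congr_left fun i hi => g3 i (linkTop_lt _ _ hle i hi)) h2

lemma link_nat (n k : ℕ) (w : List Bool) (l : List ℕ) (Ω : Finset ℕ) (hO : Ord w l Ω)
    (hΩ : Ω.card = n + 1 + w.length) :
    ∃ π : Equiv.Perm ℕ, ∀ A ∈ Seg w l Ω (k + w.count true), ∃ B : Finset ℕ,
      B.image π = A ∧ B.card = k + w.count true ∧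
      {C : Finset ℕ | C.card = k + w.count true ∧ toColex C < toColex B}.ncard < tw n k w := by
  classical
  obtain ⟨hle, π, h1, h2⟩ := link_perm l Ω hO.nd hO.sub
  rw [hO.len] at hle h2
  refine ⟨π, fun A hA => ?_⟩
  rw [Seg, mem_filter, mem_powersetCard] at hA
  obtain ⟨⟨hAΩ, hAc⟩, hAP⟩ := hA
  have e1 : (A.image π.symm).image π = A := by
    rw [image_image]
    simp
  have e2 : (A.image π.symm).card = k + w.count true := by
    rw [card_image_of_injective _ π.symm.injective, hAc]
  refine ⟨A.image π.symm, e1, e2, ?_⟩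
  set B := A.image π.symm with hB
  have hBlt : ∀ b ∈ B, b < Ω.card := by
    intro b hb
    have h3 : π b ∈ Ω := hAΩ (e1 ▸ mem_image_of_mem π hb)
    rw [← h1, π.injective.mem_finset_image] at h3
    exact mem_range.1 h3
  have hBP : Pw w (linkTop Ω.card (w.length + 1)) B := by
    rw [← link_transport π.injective, h2, e1]
    exact hAP
  have hO' : Ord w (linkTop Ω.card (w.length + 1)) (range Ω.card) :=
    ⟨linkTop_length _ _, linkTop_nodup _ _ hle, fun v hv => mem_range.2 (linkTop_lt _ _ hle v hv)⟩
  have hcard := card_Seg n k w _ _ hO' (by rw [card_range, hΩ])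
  have hmem : ∀ C : Finset ℕ, C.card = k + w.count true → toColex C ≤ toColex B →
      C ∈ Seg w (linkTop Ω.card (w.length + 1)) (range Ω.card) (k + w.count true) := by
    intro C hC hCB
    rw [Seg, mem_filter, mem_powersetCard]
    exact ⟨⟨fun c hc => mem_range.2 (Colex.forall_lt_mono hCB hBlt c hc), hC⟩,
      link_down w _ B C hle hBlt hCB hBP⟩
  rw [← hcard, ← Set.ncard_coe_finset]
  refine Set.ncard_lt_ncard ⟨fun C hC => mem_coe.2 (hmem C hC.1 hC.2.le), fun h => ?_⟩
    (Finset.finite_toSet _)
  exact lt_irrefl _ (h (mem_coe.2 (hmem B e2 le_rfl))).2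

lemma link_pnat (n k : ℕ) (w : List Bool) (l : List ℕ) (Ω : Finset ℕ) (hO : Ord w l Ω)
    (hΩ : Ω.card = n + 1 + w.length) :
    ∃ σ : Equiv.Perm ℕ+, ∀ A : Finset ℕ+,
      A.image PNat.natPred ∈ Seg w l Ω (k + w.count true) → ∃ B : Finset ℕ+,
      B.image σ = A ∧ B.card = k + w.count true ∧
      {C : Finset ℕ+ | C.card = k + w.count true ∧ toColex C < toColex B}.ncard < tw n k w := by
  obtain ⟨π, hπ⟩ := link_nat n k w l Ω hO hΩ
  refine ⟨Equiv.pnatEquivNat.trans (π.trans Equiv.pnatEquivNat.symm), fun A hA => ?_⟩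
  obtain ⟨B, h1, h2, h3⟩ := hπ _ hA
  have hinj : Function.Injective PNat.natPred := PNat.natPred_strictMono.injective
  have hback : ∀ D : Finset ℕ, (D.image Nat.succPNat).image PNat.natPred = D := by
    intro D
    rw [image_image]
    have : PNat.natPred ∘ Nat.succPNat = id := funext fun x => Nat.natPred_succPNat x
    rw [this, image_id]
  refine ⟨B.image Nat.succPNat, ?_, ?_, ?_⟩
  · apply image_injective hinj
    show ((B.image Nat.succPNat).image _).image PNat.natPred = A.image PNat.natPred
    rw [← h1, image_image, image_image]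
    refine image_congr fun x _ => ?_
    simp
  · rw [card_image_of_injective _ Nat.succPNat_injective, h2]
  · have e : {C : Finset ℕ+ | C.card = k + w.count true ∧
        toColex C < toColex (B.image Nat.succPNat)} =
        (fun C : Finset ℕ+ => C.image PNat.natPred) ⁻¹'
          {C : Finset ℕ | C.card = k + w.count true ∧ toColex C < toColex B} := by
      ext C
      simp only [Set.mem_preimage, Set.mem_ofPred_eq]
      rw [card_image_of_injective _ hinj,
        ← Colex.toColex_image_lt_toColex_image PNat.natPred_strictMono, hback]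
    rw [e, Set.ncard_preimage_of_injective_subset_range (image_injective hinj)
      fun D _ => ⟨_, hback D⟩]
    exact h3

end Pool.Agent.P.MP_247656_co.R
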