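import Pool.Agent.P.MP_247656_co.R.Binom
import Pool.Agent.P.MP_247656_co.R.Conf

open Finset

namespace Pool.Agent.P.MP_247656_co.R

/-- Lovasz form of Kruskal-Katona for shifted families, with a level comparison -/
lemma lov_shifted (m : ℕ) : ∀ (Ω : Finset ℕ) (F : Finset (Finset ℕ)) (l p : ℕ) (x : ℝ),
    Ω.card = m → Unif l F → Inside Ω F → Shifted Ω F → F.Nonempty → p + 1 ≤ l → (p : ℝ) ≤ x →
    rb x (p + 1) ≤ F.card → rb x p ≤ (shadow F).card := by
  induction m with
  | zero =>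
    intro Ω F l p x hΩ hU hI _ hne hpl _ _
    obtain ⟨A, hA⟩ := hne
    have h1 := card_le_card (hI A hA)
    rw [hU A hA, hΩ] at h1
    omega
  | succ m ih =>
    intro Ω F l p x hΩ hU hI hS hne hpl hpx hcard
    have hl : (l : ℝ) ≤ (shadow F).card := by exact_mod_cast le_card_shadow hU hne
    have hpl' : (p : ℝ) + 1 ≤ l := by exact_mod_cast hpl
    rcases lt_or_ge x ((p : ℝ) + 1) with hx | hx
    · have h1 : rb x p ≤ rb ((p + 1 : ℕ) : ℝ) p := rb_mono (by linarith) (by push_cast; linarith)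
      rw [rb_nat, Nat.choose_succ_self_right] at h1
      push_cast at h1
      linarith
    rcases p with _ | p
    · rw [rb_zero]
      simp only [Nat.cast_zero] at hpl'
      linarith
    obtain ⟨l, rfl⟩ : ∃ l', l = l' + 1 := ⟨l - 1, by omega⟩
    have hΩne : Ω.Nonempty := card_pos.1 (by omega)
    set v := Ω.min' hΩne with hv
    have hvΩ : v ∈ Ω := Ω.min'_mem hΩne
    have hmin : ∀ u ∈ Ω, v ≤ u := fun u hu => Ω.min'_le u hu
    have hce : (Ω.erase v).card = m := by rw [card_erase_of_mem hvΩ, hΩ]; rfl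
    have hsum : ((lk v F).card : ℝ) + (dl v F).card = F.card := by
      exact_mod_cast card_lk_add_dl v F
    push_cast at hx hpx hpl'
    have hlk : rb (x - 1) (p + 1) ≤ (lk v F).card := by
      by_contra hc
      push Not at hc
      have h1 := rb_pascal x (p + 1)
      have h2 : 0 ≤ rb (x - 1) (p + 1 + 1) := rb_nonneg (by push_cast; linarith)
      have h3 : rb (x - 1) (p + 1 + 1) < (dl v F).card := by linarith
      have h4 : (dl v F).Nonempty := by
        rw [← card_pos]
        have : (0 : ℝ) < (dl v F).card := by linarith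
        exact_mod_cast this
      have h5 := ih (Ω.erase v) (dl v F) (l + 1) (p + 1) (x - 1) hce (hU.dl v) (hI.dl v)
        (hS.dl v) h4 hpl (by push_cast; linarith) h3.le
      have h6 : ((shadow (dl v F)).card : ℝ) ≤ (lk v F).card := by
        exact_mod_cast card_le_card (hS.shadow_dl_subset hI hvΩ hmin)
      linarith
    have h7 : 0 < rb (x - 1) (p + 1) := rb_pos (by push_cast; linarith)
    have h8 : (lk v F).Nonempty := by
      rw [← card_pos]
      have : (0 : ℝ) < (lk v F).card := by linarith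
      exact_mod_cast this
    have h9 := ih (Ω.erase v) (lk v F) l p (x - 1) hce (hU.lk v) (hI.lk v) (hS.lk v) h8
      (by omega) (by linarith) hlk
    have h10 : ((shadow F).card : ℝ) = (lk v F).card + (shadow (lk v F)).card := by
      exact_mod_cast hS.card_shadow hI hvΩ hmin
    rw [h10, rb_pascal x p]
    linarith

lemma lov {l p v : ℕ} {x : ℝ} (hl : p + 1 ≤ l) (hv : 1 ≤ v) (hx : (p : ℝ) ≤ x)
    (h : rb x (p + 1) ≤ v) : rb x p ≤ sig l v := by
  obtain ⟨P, hP, hc⟩ := exists_seg (r := l) (by omega) v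
  have hI : Inside (P.sup id) P := fun A hA => Finset.le_sup (f := id) hA
  have h1 := lov_shifted _ (P.sup id) P l p x rfl (seg_unif hP) hI (seg_shifted hP _)
    (card_pos.1 (by omega)) hl hx (by rw [hc]; exact h)
  rw [← hc, sig_seg hP]
  exact h1

private lemma U0_core (r : ℕ) (Ω : Finset ℕ) (F : Finset (Finset ℕ)) (m t w : ℕ)
    (hΩ : Ω.card = m + 1) (hU : Unif (r + 2) F) (hI : Inside Ω F) (hS : Shifted Ω F)
    (hw : w ∈ Ω) (hmax : ∀ u ∈ Ω, u ≤ w) (hlk : 1 ≤ (lk w F).card) (ht : t ≤ F.card)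
    (htm : t ≤ m.choose (r + 2))
    (H : ∀ (v m' : ℕ), (Ω.erase v).card = m' + 1 → w ∈ Ω.erase v → (∃ B ∈ lk v F, w ∈ B) →
      (lk v F).card ≤ m'.choose (r + 1) →
      sig (r + 1) (lk v F).card + 1 ≤ (shadow (lk v F)).card) :
    sig (r + 2) t + 1 ≤ (shadow F).card := by
  have hΩne : Ω.Nonempty := ⟨w, hw⟩
  set v := Ω.min' hΩne with hv
  have hvΩ : v ∈ Ω := Ω.min'_mem hΩne
  have hmin : ∀ u ∈ Ω, v ≤ u := fun u hu => Ω.min'_le u hu
  obtain ⟨A0, hA0⟩ := card_pos.1 hlk
  obtain ⟨hA, hwA0⟩ := mem_lk.1 hA0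
  have hcA : (insert w A0).card = r + 2 := hU _ hA
  rw [card_insert_of_notMem hwA0] at hcA
  obtain ⟨j, hj⟩ : A0.Nonempty := card_pos.1 (by omega)
  have hjw : j ≠ w := fun h => hwA0 (h ▸ hj)
  have hjΩ : j ∈ Ω := hI _ hA (mem_insert_of_mem hj)
  have hvw : v < w := lt_of_le_of_lt (hmin j hjΩ) (lt_of_le_of_ne (hmax j hjΩ) hjw)
  have hwe : w ∈ Ω.erase v := mem_erase.2 ⟨hvw.ne', hw⟩
  have hce : (Ω.erase v).card = m := by rw [card_erase_of_mem hvΩ, hΩ]; rfl
  obtain ⟨m', rfl⟩ : ∃ m', m = m' + 1 := ⟨m - 1, by have := card_pos.2 ⟨w, hwe⟩; omega⟩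
  have hB : ∃ B ∈ lk v F, w ∈ B := by
    by_cases hvA : v ∈ insert w A0
    · refine ⟨(insert w A0).erase v, mem_lk.2 ⟨?_, notMem_erase _ _⟩,
        mem_erase.2 ⟨hvw.ne', mem_insert_self _ _⟩⟩
      rw [insert_erase hvA]
      exact hA
    · have hvj : v < j := lt_of_le_of_ne (hmin j hjΩ) fun h => hvA (h ▸ mem_insert_of_mem hj)
      refine ⟨(insert w A0).erase j, mem_lk.2 ⟨hS _ hA v hvΩ j (mem_insert_of_mem hj) hvj hvA,
        fun h => hvA (mem_of_mem_erase h)⟩, mem_erase.2 ⟨hjw.symm, mem_insert_self _ _⟩⟩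
  have hsh := hS.card_shadow hI hvΩ hmin
  rcases lt_or_ge (m'.choose (r + 1)) (lk v F).card with hc | hc
  · have h1 := choose_le_sig hc
    have h2 : sig (r + 1) (lk v F).card ≤ (shadow (lk v F)).card := sig_le (hU.lk v) le_rfl
    have h3 : sig (r + 2) t ≤ sig (r + 2) ((m' + 1).choose (r + 2)) := sig_mono (by omega) htm
    have h4 : sig (r + 2) ((m' + 1).choose (r + 2)) ≤ (m' + 1).choose (r + 1) :=
      sig_choose_le (r + 1) (m' + 1)
    have h5 : (m' + 1).choose (r + 1) = m'.choose r + m'.choose (r + 1) :=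
      Nat.choose_succ_succ' m' r
    omega
  · have h1 := H v m' hce hwe hB hc
    have h2 : sig (r + 2) t ≤ sig (r + 2) ((dl v F).card + (lk v F).card) :=
      sig_mono (by omega) (by have := card_lk_add_dl v F; omega)
    have h3 : sig (r + 2) ((dl v F).card + (lk v F).card) ≤
        max (sig (r + 2) (dl v F).card) (lk v F).card + sig (r + 1) (lk v F).card :=
      sig_split (r := r + 1) (by omega) _ _
    have h4 : sig (r + 2) (dl v F).card ≤ (shadow (dl v F)).card := sig_le (hU.dl v) le_rfl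
    have h5 := card_le_card (hS.shadow_dl_subset hI hvΩ hmin)
    rw [max_eq_right (h4.trans h5)] at h3
    omega

/-- a shifted family using a superfluous top vertex is not optimal -/
lemma U0 (r : ℕ) : ∀ (Ω : Finset ℕ) (F : Finset (Finset ℕ)) (m t w : ℕ),
    Ω.card = m + 1 → Unif (r + 2) F → Inside Ω F → Shifted Ω F → w ∈ Ω → (∀ u ∈ Ω, u ≤ w) →
    1 ≤ (lk w F).card → t ≤ F.card → t ≤ m.choose (r + 2) →
    sig (r + 2) t + 1 ≤ (shadow F).card := by
  induction r with
  | zero =>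
    intro Ω F m t w hΩ hU hI hS hw hmax hlk ht htm
    refine U0_core 0 Ω F m t w hΩ hU hI hS hw hmax hlk ht htm ?_
    rintro v m' hce hwe ⟨B, hB, hwB⟩ hc
    exfalso
    have hU' : Unif 1 (lk v F) := hU.lk v
    have hBw : B = {w} := by
      obtain ⟨a, ha⟩ := card_eq_one.1 (hU' B hB)
      rw [ha] at hwB ⊢
      rw [mem_singleton.1 hwB]
    subst hBw
    have hsub : (Ω.erase v).image (fun u => ({u} : Finset ℕ)) ⊆ lk v F := by
      intro C hC
      obtain ⟨u, hu, rfl⟩ := mem_image.1 hC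
      rcases eq_or_lt_of_le (hmax u (mem_of_mem_erase hu)) with h | h
      · rw [h]; exact hB
      · have h1 := hS.lk v {w} hB u hu w (mem_singleton_self w) h
          (fun h2 => h.ne (mem_singleton.1 h2))
        simpa using h1
    have h1 := card_le_card hsub
    rw [card_image_of_injective _ singleton_injective, hce] at h1
    rw [zero_add, Nat.choose_one_right] at hc
    omega
  | succ r ih =>
    intro Ω F m t w hΩ hU hI hS hw hmax hlk ht htm
    refine U0_core (r + 1) Ω F m t w hΩ hU hI hS hw hmax hlk ht htm ?_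
    rintro v m' hce hwe ⟨B, hB, hwB⟩ hc
    refine ih (Ω.erase v) (lk v F) m' _ w hce (hU.lk v) (hI.lk v) (hS.lk v) hwe
      (fun u hu => hmax u (mem_of_mem_erase hu)) ?_ le_rfl hc
    refine card_pos.2 ⟨B.erase w, mem_lk.2 ⟨?_, notMem_erase _ _⟩⟩
    rw [insert_erase hwB]
    exact hB

end Pool.Agent.P.MP_247656_co.R
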