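import Pool.Agent.P.MP_247656_co.R.Casc

/-! Copies of a colex segment, described by a binary word and a list of top vertices. -/

open Finset

namespace Pool.Agent.P.MP_247656_co.R

/-- membership test of the segment: the trace on the listed vertices is at most the word -/
def Pw : List Bool → List ℕ → Finset ℕ → Prop
  | [], v :: _, A => v ∉ A
  | false :: w, v :: l, A => v ∉ A ∧ Pw w l A
  | true :: w, v :: l, A => v ∉ A ∨ Pw w l A
  | _, [], _ => True

/-- size of the segment, n = size of the last block, k = level in the last block -/
def tw (n k : ℕ) : List Bool → ℕ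
  | [] => n.choose k
  | false :: w => tw n k w
  | true :: w => tw n k w + (n + 1 + w.length).choose (k + w.count true + 1)

open Classical in
/-- the copy of the segment at level r -/
noncomputable def Seg (w : List Bool) (l : List ℕ) (Ω : Finset ℕ) (r : ℕ) : Finset (Finset ℕ) :=
  (powersetCard r Ω).filter (Pw w l)

/-- an admissible list of top vertices -/
structure Ord (w : List Bool) (l : List ℕ) (Ω : Finset ℕ) : Prop where
  len : l.length = w.length + 1
  nd : l.Nodup
  sub : ∀ v ∈ l, v ∈ Ω

private lemma Pw_nil (w : List Bool) (A : Finset ℕ) : Pw w [] A := by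
  rcases w with _ | ⟨b, w⟩
  · simp [Pw]
  · cases b <;> simp [Pw]

lemma Pw_anti {w : List Bool} {l : List ℕ} {A B : Finset ℕ} (h : Pw w l A) (hBA : B ⊆ A) :
    Pw w l B := by
  induction w generalizing l with
  | nil =>
    rcases l with _ | ⟨v, l⟩
    · exact Pw_nil _ _
    · simp only [Pw] at h ⊢
      exact fun hv => h (hBA hv)
  | cons b w ih =>
    rcases l with _ | ⟨v, l⟩
    · exact Pw_nil _ _
    · cases b
      · simp only [Pw] at h ⊢
        exact ⟨fun hv => h.1 (hBA hv), ih h.2⟩
      · simp only [Pw] at h ⊢
        exact h.imp (fun h1 hv => h1 (hBA hv)) ih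

lemma Pw_congr {w : List Bool} {l : List ℕ} {A B : Finset ℕ} (h : ∀ v ∈ l, v ∈ A ↔ v ∈ B) :
    Pw w l A ↔ Pw w l B := by
  induction w generalizing l with
  | nil =>
    rcases l with _ | ⟨v, l⟩
    · exact iff_of_true (Pw_nil _ _) (Pw_nil _ _)
    · simp only [Pw]
      rw [h v (by simp)]
  | cons b w ih =>
    rcases l with _ | ⟨v, l⟩
    · exact iff_of_true (Pw_nil _ _) (Pw_nil _ _)
    · have h1 := h v (by simp)
      have h2 := ih (l := l) (fun u hu => h u (by simp [hu]))
      cases b
      · simp only [Pw]
        rw [h1, h2]
      · simp only [Pw]
        rw [h1, h2]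

lemma Pw_compl {w : List Bool} {l : List ℕ} {Ω B : Finset ℕ} (hlen : l.length = w.length + 1)
    (hsub : ∀ v ∈ l, v ∈ Ω) : Pw (w.map (fun b => !b)) l (Ω \ B) ↔ ¬ Pw w l B := by
  induction w generalizing l with
  | nil =>
    rcases l with _ | ⟨v, l⟩
    · simp at hlen
    · have hv := hsub v (by simp)
      simp [Pw, hv]
  | cons b w ih =>
    rcases l with _ | ⟨v, l⟩
    · simp at hlen
    · have hv := hsub v (by simp)
      have h2 := ih (l := l) (by simpa using hlen) (fun u hu => hsub u (by simp [hu]))
      cases b
      · simp only [List.map_cons, Bool.not_false, Pw]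
        rw [h2]
        simp only [Finset.mem_sdiff, hv, true_and, not_not]
        tauto
      · simp only [List.map_cons, Bool.not_true, Pw]
        rw [h2]
        simp only [Finset.mem_sdiff, hv, true_and, not_not]
        tauto

lemma exists_ord (w : List Bool) {Ω : Finset ℕ} (h : w.length + 1 ≤ Ω.card) : ∃ l, Ord w l Ω := by
  obtain ⟨S, hS, hc⟩ := Finset.exists_subset_card_eq h
  refine ⟨S.toList, ?_, S.nodup_toList, fun v hv => hS (Finset.mem_toList.1 hv)⟩
  rw [Finset.length_toList, hc]

open Classical in
private lemma filter_avoid (Ω : Finset ℕ) (v r : ℕ) (P : Finset ℕ → Prop) :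
    (powersetCard r Ω).filter (fun A => v ∉ A ∧ P A) = (powersetCard r (Ω.erase v)).filter P := by
  ext A
  simp only [Finset.mem_filter, Finset.mem_powersetCard, Finset.subset_erase]
  tauto

open Classical in
private lemma card_filter_contain {Ω : Finset ℕ} {v : ℕ} (hv : v ∈ Ω) (r : ℕ)
    (P : Finset ℕ → Prop) :
    ((powersetCard (r + 1) Ω).filter (fun A => v ∈ A ∧ P (A.erase v))).card
      = ((powersetCard r (Ω.erase v)).filter P).card := by
  refine Finset.card_bij' (fun A _ => A.erase v) (fun B _ => insert v B) ?_ ?_ ?_ ?_
  · intro A hA
    simp only [Finset.mem_filter, Finset.mem_powersetCard] at hA ⊢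
    refine ⟨⟨Finset.erase_subset_erase _ hA.1.1, ?_⟩, hA.2.2⟩
    rw [Finset.card_erase_of_mem hA.2.1, hA.1.2]
    rfl
  · intro B hB
    simp only [Finset.mem_filter, Finset.mem_powersetCard, Finset.subset_erase] at hB ⊢
    refine ⟨⟨Finset.insert_subset hv hB.1.1.1, ?_⟩, Finset.mem_insert_self _ _, ?_⟩
    · rw [Finset.card_insert_of_notMem hB.1.1.2, hB.1.2]
    · rw [Finset.erase_insert hB.1.1.2]
      exact hB.2
  · intro A hA
    simp only [Finset.mem_filter] at hA
    exact Finset.insert_erase hA.2.1
  · intro B hB
    simp only [Finset.mem_filter, Finset.mem_powersetCard, Finset.subset_erase] at hB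
    exact Finset.erase_insert hB.1.1.2

private lemma Ord_tail {b : Bool} {w : List Bool} {v : ℕ} {l : List ℕ} {Ω : Finset ℕ}
    (h : Ord (b :: w) (v :: l) Ω) : Ord w l (Ω.erase v) := by
  have hnd := List.nodup_cons.1 h.nd
  refine ⟨by simpa using h.len, hnd.2, fun u hu => ?_⟩
  refine Finset.mem_erase.2 ⟨?_, h.sub u (by simp [hu])⟩
  rintro rfl
  exact hnd.1 hu

lemma card_Seg (n k : ℕ) (w : List Bool) : ∀ (l : List ℕ) (Ω : Finset ℕ), Ord w l Ω →
    Ω.card = n + 1 + w.length → (Seg w l Ω (k + w.count true)).card = tw n k w := by
  classical
  induction w with
  | nil =>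
    intro l Ω ho hc
    rcases l with _ | ⟨v, l⟩
    · have := ho.len
      simp at this
    · have hv := ho.sub v (by simp)
      have e : Seg [] (v :: l) Ω (k + ([] : List Bool).count true)
          = powersetCard k (Ω.erase v) := by
        ext A
        simp only [Seg, Pw, Finset.mem_filter, Finset.mem_powersetCard, Finset.subset_erase,
          List.count_nil, Nat.add_zero]
        tauto
      rw [e, Finset.card_powersetCard, Finset.card_erase_of_mem hv, hc]
      simp [tw]
  | cons b w ih =>
    intro l Ω ho hc
    rcases l with _ | ⟨v, l⟩
    · have := ho.len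
      simp at this
    · have hv := ho.sub v (by simp)
      have hc' : (Ω.erase v).card = n + 1 + w.length := by
        rw [Finset.card_erase_of_mem hv, hc]
        simp only [List.length_cons]
        omega
      have ih' := ih l (Ω.erase v) (Ord_tail ho) hc'
      have hnd := (List.nodup_cons.1 ho.nd).1
      cases b
      · have e : Seg (false :: w) (v :: l) Ω (k + (false :: w).count true)
            = Seg w l (Ω.erase v) (k + w.count true) := by
          ext A
          simp only [Seg, Pw, Finset.mem_filter, Finset.mem_powersetCard, Finset.subset_erase,
            List.count_cons, Bool.false_beq, Bool.not_true, Bool.false_eq_true, if_false,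
            Nat.add_zero]
          tauto
        rw [e, ih']
        simp [tw]
      · have hcnt : k + (true :: w).count true = k + w.count true + 1 := by
          simp only [List.count_cons_self]
          omega
        rw [hcnt]
        have e : Seg (true :: w) (v :: l) Ω (k + w.count true + 1)
            = (powersetCard (k + w.count true + 1) Ω).filter
                (fun A => v ∈ A ∧ Pw w l (A.erase v))
              ∪ powersetCard (k + w.count true + 1) (Ω.erase v) := by
          ext A
          have hP : Pw w l (A.erase v) ↔ Pw w l A := by
            refine Pw_congr fun u hu => ?_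
            have : u ≠ v := by
              rintro rfl
              exact hnd hu
            simp [this]
          simp only [Seg, Pw, Finset.mem_filter, Finset.mem_powersetCard, Finset.subset_erase,
            Finset.mem_union, hP]
          tauto
        rw [e, Finset.card_union_of_disjoint]
        · have h1 := card_filter_contain hv (k + w.count true) (Pw w l)
          have h2 : ((powersetCard (k + w.count true + 1) Ω).filter
                (fun A => v ∈ A ∧ Pw w l (A.erase v))).card = tw n k w := by
            rw [← ih']
            convert h1 using 2
            rfl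
          rw [h2, Finset.card_powersetCard, hc']
          simp [tw]
        · rw [Finset.disjoint_left]
          intro A hA hB
          simp only [Finset.mem_filter, Finset.mem_powersetCard, Finset.subset_erase] at hA hB
          exact hB.1.2 hA.2.1

lemma shadow_Seg (w : List Bool) (l : List ℕ) (Ω : Finset ℕ) (r : ℕ) :
    shadow (Seg w l Ω (r + 1)) ⊆ Seg w l Ω r := by
  intro B hB
  obtain ⟨A, hA, x, hx, rfl⟩ := Finset.mem_shadow_iff.1 hB
  simp only [Seg, Finset.mem_filter, Finset.mem_powersetCard] at hA ⊢
  refine ⟨⟨(Finset.erase_subset _ _).trans hA.1.1, ?_⟩, Pw_anti hA.2 (Finset.erase_subset _ _)⟩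
  rw [Finset.card_erase_of_mem hx, hA.1.2]
  rfl

private lemma choose_dual {N a b : ℕ} (h : a + b = N + 1) :
    N.choose b + N.choose a = (N + 1).choose a := by
  rcases a with _ | a
  · have : b = N + 1 := by omega
    subst this
    simp
  · have e : N.choose b = N.choose a := Nat.choose_symm_of_eq_add (by omega)
    rw [e, Nat.choose_succ_succ]

private lemma count_dual' (w : List Bool) :
    (w.map (fun b => !b)).count true + w.count true = w.length := by
  induction w with
  | nil => simp
  | cons b w ih =>
    cases b
    · simp only [List.map_cons, Bool.not_false, List.count_cons_self, List.length_cons]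
      rw [List.count_cons_of_ne (by simp)]
      omega
    · simp only [List.map_cons, Bool.not_true, List.count_cons_self, List.length_cons]
      rw [List.count_cons_of_ne (by simp)]
      omega

/-- the dual word has the complementary count -/
lemma tw_dual {n k k' : ℕ} (h : k + k' = n + 1) (w : List Bool) :
    tw n k' (w.map (fun b => !b)) + tw n k w
      = (n + 1 + w.length).choose (k + w.count true) := by
  induction w with
  | nil =>
    simp only [List.map_nil, tw, List.length_nil, List.count_nil, Nat.add_zero]
    exact choose_dual h
  | cons b w ih =>
    have hd := count_dual' w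
    cases b
    · have hc : (false :: w).count true = w.count true := List.count_cons_of_ne (by simp)
      simp only [List.map_cons, Bool.not_false, tw, List.length_cons, List.length_map, hc]
      have key := choose_dual (N := n + 1 + w.length) (a := k + w.count true)
        (b := k' + (w.map (fun b => !b)).count true + 1) (by omega)
      rw [← Nat.add_assoc (n + 1) w.length 1, ← key]
      omega
    · simp only [List.map_cons, Bool.not_true, tw, List.length_cons, List.count_cons_self]
      rw [← Nat.add_assoc (n + 1) w.length 1, ← Nat.add_assoc k _ 1, Nat.choose_succ_succ']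
      omega

lemma count_dual (w : List Bool) :
    (w.map (fun b => !b)).count true + w.count true = w.length := by
  exact count_dual' w

/-- a word gives a cascade -/
lemma exists_casc (n : ℕ) (w : List Bool) : ∃ a : ℕ → ℕ, a 0 = n ∧ Inc a (w.count true) ∧
    Fits a (w.count true) (n + 1 + w.length) ∧ (w = [] → Fits a (w.count true) n) ∧
    ∀ k, T a k (w.count true) = tw n k w := by
  induction w with
  | nil =>
    refine ⟨fun _ => n, rfl, ?_, ?_, ?_, ?_⟩
    · intro i hi
      simp at hi
    · simp [Fits]
    · intro _
      simp [Fits]
    · intro k
      simp [T, tw]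
  | cons b w ih =>
    obtain ⟨a, h0, hinc, hfit, -, hT⟩ := ih
    cases b
    · have hc : (false :: w).count true = w.count true := List.count_cons_of_ne (by simp)
      rw [hc]
      refine ⟨a, h0, hinc, ?_, by simp, fun k => ?_⟩
      · simp only [Fits, List.length_cons] at hfit ⊢
        omega
      · rw [hT k]
        simp [tw]
    · rw [List.count_cons_self]
      set s := w.count true with hs
      refine ⟨Function.update a (s + 1) (n + 1 + w.length), ?_, ?_, ?_, by simp, fun k => ?_⟩
      · rw [Function.update_of_ne (by omega)]
        exact h0
      · intro i hi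
        rcases Nat.lt_succ_iff_lt_or_eq.1 hi with h | h
        · rw [Function.update_of_ne (by omega), Function.update_of_ne (by omega)]
          exact hinc i h
        · subst h
          rw [Function.update_of_ne (by omega), Function.update_self]
          simp only [Fits] at hfit
          rcases Nat.eq_zero_or_pos s with h | h
          · rw [h, h0]
            omega
          · omega
      · simp only [Fits, Function.update_self, List.length_cons]
        omega
      · have e : T (Function.update a (s + 1) (n + 1 + w.length)) k (s + 1)
            = T a k s + (n + 1 + w.length).choose (k + s + 1) := by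
          unfold T
          rw [Finset.sum_range_succ _ (s + 1), Function.update_self]
          congr 1
          refine Finset.sum_congr rfl fun i hi => ?_
          have := Finset.mem_range.1 hi
          rw [Function.update_of_ne (by omega)]
        rw [e, hT k]
        simp [tw, hs]

private lemma tw_replicate (n k m : ℕ) (w : List Bool) :
    tw n k (List.replicate m false ++ w) = tw n k w := by
  induction m with
  | zero => simp
  | succ m ih => simpa [List.replicate_succ, tw] using ih

private lemma count_replicate_false (m : ℕ) (w : List Bool) :
    (List.replicate m false ++ w).count true = w.count true := by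
  induction m with
  | zero => simp
  | succ m ih =>
    rw [List.replicate_succ, List.cons_append, List.count_cons_of_ne (by simp), ih]

private lemma Inc_le {a : ℕ → ℕ} {s : ℕ} (hi : Inc a s) : a 0 ≤ a s := by
  induction s with
  | zero => exact le_rfl
  | succ s ih =>
    have h1 := ih (fun i h => hi i (by omega))
    have h2 := hi s (by omega)
    omega

/-- a cascade gives a word of any sufficiently large length -/
lemma exists_word {a : ℕ → ℕ} {s L : ℕ} (hi : Inc a s) (hL : a s ≤ a 0 + L) :
    ∃ w : List Bool, w.length = L ∧ w.count true = s ∧ ∀ k, T a k s = tw (a 0) k w := by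
  induction s generalizing L with
  | zero =>
    refine ⟨List.replicate L false ++ [], by simp, ?_, fun k => ?_⟩
    · rw [count_replicate_false]
      rfl
    · rw [tw_replicate]
      simp [T, tw]
  | succ s ih =>
    have hi' : Inc a s := fun i h => hi i (by omega)
    have h1 := Inc_le hi'
    have h2 := hi s (by omega)
    obtain ⟨w, hlen, hcnt, hT⟩ := ih (L := a (s + 1) - a 0 - 1) hi' (by omega)
    refine ⟨List.replicate (L - (a (s + 1) - a 0)) false ++ true :: w, ?_, ?_, fun k => ?_⟩
    · simp only [List.length_append, List.length_replicate, List.length_cons, hlen]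
      omega
    · rw [count_replicate_false, List.count_cons_self, hcnt]
    · rw [tw_replicate]
      have e : a 0 + 1 + w.length = a (s + 1) := by omega
      simp only [tw, e, hcnt]
      rw [← hT k]
      unfold T
      rw [Finset.sum_range_succ _ (s + 1)]
      rfl

end Pool.Agent.P.MP_247656_co.R
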