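import Pool.Agent.P.MP_247656_co.R.D
import Pool.Agent.P.MP_247656_co.R.Words

/-! The main induction on the word, with the duality step. -/

open Finset

namespace Pool.Agent.P.MP_247656_co.R

/-- the statement for a word -/
def StW (w : List Bool) : Prop := ∀ (j q : ℕ) (x y : ℝ) (Ω : Finset ℕ) (F : Finset (Finset ℕ)),
  Par j q x y → ¬ (x = j ∧ y = (j : ℝ) + q - 1) → Ω.card = (j + q + 2) + 1 + w.length →
  Unif (j + 2 + w.count true) F → Inside Ω F →
  (∀ l, Ord w l Ω → 1 ≤ (F \ Seg w l Ω (j + 2 + w.count true)).card ∧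
    rb x (j + 1) ≤ (F \ Seg w l Ω (j + 2 + w.count true)).card) →
  (tw (j + q + 2) (j + 2) w : ℝ) - rb y q + rb x (j + 1) ≤ F.card →
  (tw (j + q + 2) (j + 1) w : ℝ) - rb y (q + 1) + rb x j ≤ (shadow F).card

lemma mem_Seg {w : List Bool} {l : List ℕ} {Ω A : Finset ℕ} {r : ℕ} :
    A ∈ Seg w l Ω r ↔ (A ⊆ Ω ∧ A.card = r) ∧ Pw w l A := by
  classical
  unfold Seg
  rw [mem_filter, mem_powersetCard]

lemma stW_nil : StW [] := by
  intro j q x y Ω F hp _ hΩ hU hin hdiv hsz
  obtain ⟨a, h0, hinc, -, hfit, hT⟩ := exists_casc (j + q + 2) []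
  have h1 := Dplus (s := List.count true []) (m := j + q + 2) hp ⟨h0, hinc⟩ (Ω := Ω)
    (by simpa using hΩ) (hfit rfl) F (by simpa using hU) hin ?_ (by unfold sz; rw [hT]; exact hsz)
  · unfold bd at h1
    rwa [hT] at h1
  · intro v hv
    obtain ⟨h1, h2⟩ := hdiv [v] ⟨rfl, by simp, by simpa using hv⟩
    have h3 : (F \ Seg [] [v] Ω (j + 2 + List.count true [])).card ≤ (lk v F).card := by
      rw [card_lk]
      refine card_le_card ?_
      intro A hA
      rw [mem_sdiff, mem_Seg] at hA
      rw [mem_filter]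
      refine ⟨hA.1, ?_⟩
      by_contra hv'
      exact hA.2 ⟨⟨hin A hA.1, hU A hA.1⟩, hv'⟩
    have h4 : ((F \ Seg [] [v] Ω (j + 2 + List.count true [])).card : ℝ) ≤ (lk v F).card := by
      exact_mod_cast h3
    exact ⟨h1.trans h3, h2.trans h4⟩

lemma stW_false {w : List Bool} (IH : StW w) : StW (false :: w) := by
  intro j q x y Ω F hp hcor hΩ hU hin hdiv hsz
  have hcount : List.count true (false :: w) = List.count true w := by simp
  rw [hcount] at hU hdiv
  have ht : ∀ k, tw (j + q + 2) k (false :: w) = tw (j + q + 2) k w := fun k => rfl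
  rw [ht] at hsz ⊢
  rw [List.length_cons] at hΩ
  have e1 : j + 2 + List.count true w = j + List.count true w + 2 := by ring
  by_cases hdeg : ∀ v ∈ Ω, 1 ≤ (lk v F).card ∧ rb x (j + 1) ≤ (lk v F).card
  · obtain ⟨a, h0, hinc, hfit, -, hT⟩ := exists_casc (j + q + 2) w
    have h1 := Dplus (s := List.count true w) (m := j + q + 2 + 1 + w.length) hp ⟨h0, hinc⟩
      (Ω := Ω) (by omega) hfit F (e1 ▸ hU) hin hdeg (by unfold sz; rw [hT]; exact hsz)
    unfold bd at h1
    rwa [hT] at h1
  simp only [not_forall] at hdeg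
  obtain ⟨v, hv, hd⟩ := hdeg
  have hΩ' : (Ω.erase v).card = (j + q + 2) + 1 + w.length := by
    rw [card_erase_of_mem hv]; omega
  have key : ∀ l, Ord w l (Ω.erase v) →
      1 ≤ (dl v F \ Seg w l (Ω.erase v) (j + 2 + w.count true)).card + (lk v F).card ∧
      rb x (j + 1) ≤
        ((dl v F \ Seg w l (Ω.erase v) (j + 2 + w.count true)).card : ℝ) + (lk v F).card := by
    intro l hl
    obtain ⟨h1, h2⟩ := hdiv (v :: l) ⟨by simp [hl.len], by
      rw [List.nodup_cons]
      exact ⟨fun h => (mem_erase.1 (hl.sub v h)).1 rfl, hl.nd⟩, by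
      intro u hu
      rcases List.mem_cons.1 hu with rfl | hu
      · exact hv
      · exact mem_of_mem_erase (hl.sub u hu)⟩
    have h3 : (F \ Seg (false :: w) (v :: l) Ω (j + 2 + List.count true w)).card ≤
        (dl v F \ Seg w l (Ω.erase v) (j + 2 + w.count true)).card + (lk v F).card := by
      rw [card_lk]
      refine le_trans (card_le_card ?_) (card_union_le _ _)
      intro A hA
      rw [mem_sdiff, mem_Seg] at hA
      rw [mem_union, mem_filter, mem_sdiff, mem_dl, mem_Seg]
      by_cases hvA : v ∈ A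
      · exact Or.inr ⟨hA.1, hvA⟩
      · exact Or.inl ⟨⟨hA.1, hvA⟩, fun h => hA.2 ⟨⟨hin A hA.1, hU A hA.1⟩, hvA, h.2⟩⟩
    have h4 : ((F \ Seg (false :: w) (v :: l) Ω (j + 2 + List.count true w)).card : ℝ) ≤
        (dl v F \ Seg w l (Ω.erase v) (j + 2 + w.count true)).card + (lk v F).card := by
      exact_mod_cast h3
    exact ⟨h1.trans h3, h2.trans h4⟩
  have hsplitR : ((lk v F).card : ℝ) + (dl v F).card = F.card := by
    exact_mod_cast card_lk_add_dl v F
  have hsh : ((shadow (dl v F)).card : ℝ) + (shadow (lk v F)).card ≤ (shadow F).card := by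
    have h1 := card_shadow_split v F
    have h3 : (shadow (dl v F)).card ≤ (shadow (dl v F) ∪ lk v F).card :=
      card_le_card subset_union_left
    have : (shadow (dl v F)).card + (shadow (lk v F)).card ≤ (shadow F).card := by omega
    exact_mod_cast this
  by_cases hd0 : (lk v F).card = 0
  · have h1 := IH j q x y (Ω.erase v) (dl v F) hp hcor hΩ' (hU.dl v) (hin.dl v)
      (fun l hl => by simpa [hd0] using key l hl) (by rw [hd0] at hsplitR; push_cast at hsplitR; linarith)
    have h2 : (0 : ℝ) ≤ (shadow (lk v F)).card := Nat.cast_nonneg _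
    linarith
  · have hd1 : 1 ≤ (lk v F).card := by omega
    have hd1R : (1 : ℝ) ≤ (lk v F).card := by exact_mod_cast hd1
    have hdg : ((lk v F).card : ℝ) < rb x (j + 1) := not_le.1 (not_and.1 hd hd1)
    obtain ⟨x', hx'1, hx'⟩ := rb_surj (m := j + 1) (by omega)
      (c := rb x (j + 1) - (lk v F).card) (by linarith)
    obtain ⟨z, hz1, hz⟩ := rb_surj (m := j + 1) (by omega) (c := (lk v F).card) (by linarith)
    have hxj : ((j + 1 : ℕ) : ℝ) - 1 ≤ x := by push_cast; linarith [hp.hx1]
    have hx'x : x' ≤ x := le_of_rb_le (m := j + 1) (by omega) hxj (by linarith)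
    have hjx' : (j : ℝ) < x' := lt_of_rb_lt (m := j + 1) hx'1 (by rw [rb_self_succ]; linarith)
    push_cast at hx'1 hz1
    have h1 := IH j q x' y (Ω.erase v) (dl v F)
      ⟨hp.hj, hp.hq, hjx'.le, hx'x.trans hp.hx2, hp.hy1, hp.hy2⟩ (fun h => hjx'.ne' h.1) hΩ'
      (hU.dl v) (hin.dl v) (fun l hl => by
        have h2 := (key l hl).2
        refine ⟨?_, by linarith⟩
        have : (0 : ℝ) < (dl v F \ Seg w l (Ω.erase v) (j + 2 + w.count true)).card := by linarith
        exact_mod_cast this) (by linarith)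
    have h2 := lov (l := j + List.count true w + 1) (p := j) (by omega) hd1 (x := z)
      (by linarith) hz.le
    have h3 : (sig (j + List.count true w + 1) (lk v F).card : ℝ) ≤ (shadow (lk v F)).card := by
      exact_mod_cast sig_le ((e1 ▸ hU : Unif (j + List.count true w + 1 + 1) F).lk v) le_rfl
    have h4 := rb_subadd (j := j) (x := x) (x' := x') (z := z) (by linarith) hjx'.le
      (by linarith) (by linarith)
    linarith

lemma stW_dual {w : List Bool} (H : StW (w.map (fun b => !b))) : StW w := by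
  intro j q x y Ω F hp hcor hΩ hU hin hdiv hsz
  by_contra hcon
  push Not at hcon
  set w' := w.map (fun b => !b) with hw'
  have hlen : w'.length = w.length := by simp [hw']
  have hcnt : w'.count true + w.count true = w.length := count_dual w
  set c := w.count true with hc
  set c' := w'.count true with hc'
  have e1 : j + 2 + c = j + 1 + c + 1 := by ring
  have hU' : Unif (j + 1 + c + 1) F := e1 ▸ hU
  set N := powersetCard (j + 1 + c) Ω \ shadow F with hN
  have hNin : Inside Ω N := fun B hB => (mem_powersetCard.1 (mem_sdiff.1 hB).1).1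
  set G := N.image (fun B => Ω \ B) with hG
  have hGU : Unif (q + 2 + c') G := by
    intro A hA
    obtain ⟨B, hB, rfl⟩ := mem_image.1 hA
    have h1 := mem_powersetCard.1 (mem_sdiff.1 hB).1
    rw [card_sdiff_of_subset h1.1, h1.2]
    omega
  have hGin : Inside Ω G := by
    intro A hA
    obtain ⟨B, hB, rfl⟩ := mem_image.1 hA
    exact sdiff_subset
  have hshsub : shadow F ⊆ powersetCard (j + 1 + c) Ω := fun B hB =>
    mem_powersetCard.2 ⟨hin.shadow B hB, hU'.shadow B hB⟩
  have hGc : G.card + (shadow F).card = Ω.card.choose (j + 1 + c) := by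
    rw [hG, card_image_sdiff hNin, hN, card_sdiff_add_card_eq_card hshsub, card_powersetCard]
  have hGs : (shadow G).card + F.card ≤ Ω.card.choose (j + 1 + c + 1) := card_shadow_dual hU' hin
  have d1 := tw_dual (n := j + q + 2) (k := j + 1) (k' := q + 2) (by ring) w
  have d2 := tw_dual (n := j + q + 2) (k := j + 2) (k' := q + 1) (by ring) w
  rw [← hΩ, ← hw', ← hc] at d1 d2
  rw [e1] at d2
  have hGcR : (G.card : ℝ) + (shadow F).card
      = tw (j + q + 2) (q + 2) w' + tw (j + q + 2) (j + 1) w := by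
    rw [← d1] at hGc; exact_mod_cast hGc
  have hGsR : ((shadow G).card : ℝ) + F.card
      ≤ tw (j + q + 2) (q + 1) w' + tw (j + q + 2) (j + 2) w := by
    rw [← d2] at hGs; exact_mod_cast hGs
  obtain ⟨a, h0, hinc, -, -, hT⟩ := exists_casc (j + q + 2) w
  rw [← hc] at hinc hT
  have hμ : 0 ≤ rb y (q + 1) := rb_nonneg (by push_cast; linarith [hp.hy1])
  have key : ∀ l, Ord w' l Ω → (tw (j + q + 2) (j + 1) w : ℝ) + rb x j - (shadow F).card ≤
      (G \ Seg w' l Ω (q + 2 + c')).card := by
    intro l hl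
    have hl' : Ord w l Ω := ⟨by rw [hl.len, hlen], hl.nd, hl.sub⟩
    obtain ⟨h1, h2⟩ := hdiv l hl'
    set C := Seg w l Ω (j + 2 + c) with hC
    set D := Seg w l Ω (j + 1 + c) with hD
    have hCc : C.card = tw (j + q + 2) (j + 2) w := card_Seg (j + q + 2) (j + 2) w l Ω hl' hΩ
    have hCD : shadow C ⊆ D := by rw [hC, e1]; exact shadow_Seg w l Ω _
    have hFC : (F ∪ C).card = (F \ C).card + C.card := (card_sdiff_add_card F C).symm
    have hFCU : Unif (j + 2 + c) (F ∪ C) := by
      intro A hA
      rcases mem_union.1 hA with h | h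
      · exact hU A h
      · exact (mem_Seg.1 h).1.2
    have h3 := L1 (a := a) (s := c) (p := j) (f := (F ∪ C).card) (u := x) hinc (by omega) hp.hx1
      (by rw [h0]; push_cast; linarith [hp.hx2]) (by rw [hT]; omega)
      (by rw [hT, hFC, hCc]; push_cast; linarith)
    rw [hT] at h3
    have h4 := sig_le hFCU le_rfl
    have h5 : shadow (F ∪ C) ⊆ D ∪ shadow F := by
      intro B hB
      rw [mem_shadow_iff] at hB
      obtain ⟨A, hA, z, hz, rfl⟩ := hB
      rcases mem_union.1 hA with h | h
      · exact mem_union_right _ (erase_mem_shadow h hz)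
      · exact mem_union_left _ (hCD (erase_mem_shadow h hz))
    have h6 := card_le_card h5
    rw [← card_sdiff_add_card] at h6
    have h7 : (D \ shadow F).card ≤ (G \ Seg w' l Ω (q + 2 + c')).card := by
      rw [← card_image_sdiff (Ω := Ω) (G := D \ shadow F)
        (fun B hB => (mem_Seg.1 (mem_sdiff.1 hB).1).1.1)]
      refine card_le_card ?_
      intro A hA
      obtain ⟨B, hB, rfl⟩ := mem_image.1 hA
      rw [mem_sdiff, hD, mem_Seg] at hB
      rw [mem_sdiff, mem_Seg]
      refine ⟨mem_image.2 ⟨B, mem_sdiff.2 ⟨mem_powersetCard.2 hB.1.1, hB.2⟩, rfl⟩, fun h => ?_⟩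
      exact (Pw_compl hl'.len hl'.sub).1 h.2 hB.1.2
    have h8 : sig (j + 2 + c) (F ∪ C).card ≤
        (G \ Seg w' l Ω (q + 2 + c')).card + (shadow F).card := by omega
    have h9 : (sig (j + 2 + c) (F ∪ C).card : ℝ) ≤
        (G \ Seg w' l Ω (q + 2 + c')).card + (shadow F).card := by exact_mod_cast h8
    linarith
  have key1 : ∀ l, Ord w' l Ω → 1 ≤ (G \ Seg w' l Ω (q + 2 + c')).card := by
    intro l hl
    have h1 := key l hl
    have : (0 : ℝ) < (G \ Seg w' l Ω (q + 2 + c')).card := by linarith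
    exact_mod_cast this
  have en : q + j + 2 = j + q + 2 := by ring
  have hΩ' : Ω.card = q + j + 2 + 1 + w'.length := by rw [hlen, en]; exact hΩ
  obtain ⟨hj, hq, hx1, hx2, hy1, hy2⟩ := hp
  rcases lt_or_eq_of_le hy2 with hy | hy
  · have hyq : ((q + 1 : ℕ) : ℝ) - 1 ≤ y := by push_cast; linarith
    have m1 : rb y (q + 1) < rb ((j : ℝ) + q - 1) (q + 1) := rb_strictMono (by omega) hyq hy
    set τ := min ((tw (j + q + 2) (j + 1) w : ℝ) + rb x j - (shadow F).card)
      (rb ((j : ℝ) + q - 1) (q + 1)) with hτ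
    have t1 : τ ≤ (tw (j + q + 2) (j + 1) w : ℝ) + rb x j - (shadow F).card := min_le_left _ _
    have t2 : τ ≤ rb ((j : ℝ) + q - 1) (q + 1) := min_le_right _ _
    have t3 : rb y (q + 1) < τ := lt_min (by linarith) m1
    obtain ⟨y', hy'1, hy'⟩ := rb_surj (m := q + 1) (by omega) (c := τ) (by linarith)
    have hyy : y < y' := lt_of_rb_lt (m := q + 1) hy'1 (by linarith)
    have hy'2 : y' ≤ (j : ℝ) + q - 1 :=
      le_of_rb_le (m := q + 1) (by omega) (by linarith) (by linarith)
    have h1 := H q j y' x Ω G ⟨hq, hj, by linarith, by linarith, hx1, by linarith⟩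
      (fun h => by linarith [h.1]) hΩ' hGU hGin
      (fun l hl => ⟨key1 l hl, by linarith [key l hl]⟩) (by rw [en]; linarith)
    rw [en] at h1
    have m2 : rb y q < rb y' q := rb_strictMono hq (by linarith) hyy
    linarith
  · have hxj : (j : ℝ) < x := lt_of_le_of_ne hx1 (fun h => hcor ⟨h.symm, hy⟩)
    have m1 : 1 < rb x j := by
      have := rb_strictMono (z := (j : ℝ)) (w := x) hj (by linarith) hxj
      rwa [rb_self] at this
    set τ := max (rb y (q + 1) - (tw (j + q + 2) (j + 1) w : ℝ) + (shadow F).card) 1 with hτ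
    have t1 : rb y (q + 1) - (tw (j + q + 2) (j + 1) w : ℝ) + (shadow F).card ≤ τ :=
      le_max_left _ _
    have t2 : 1 ≤ τ := le_max_right _ _
    have t3 : τ < rb x j := max_lt (by linarith) m1
    obtain ⟨x', hx'1, hx'⟩ := rb_surj (m := j) hj (c := τ) (by linarith)
    have hxx : x' < x := lt_of_rb_lt (m := j) (by linarith) (by linarith)
    have hjx' : (j : ℝ) ≤ x' := le_of_rb_le (m := j) hj hx'1 (by rw [rb_self]; linarith)
    have h1 := H q j y x' Ω G ⟨hq, hj, hy1, by linarith, hjx', by linarith⟩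
      (fun h => by linarith [h.2]) hΩ' hGU hGin
      (fun l hl => ⟨key1 l hl, by linarith [key l hl]⟩) (by rw [en]; linarith)
    rw [en] at h1
    have m2 : rb x' (j + 1) < rb x (j + 1) :=
      rb_strictMono (by omega) (by push_cast; linarith) hxx
    linarith

theorem stW (w : List Bool) : StW w := by
  induction h : w.length generalizing w with
  | zero =>
    rw [List.length_eq_zero_iff] at h
    rw [h]; exact stW_nil
  | succ L ih =>
    obtain ⟨b, w', rfl⟩ := List.exists_cons_of_length_eq_add_one h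
    have hL : w'.length = L := by simpa using h
    cases b
    · exact stW_false (ih w' hL)
    · apply stW_dual
      exact stW_false (ih (w'.map (fun b => !b)) (by simpa using hL))

end Pool.Agent.P.MP_247656_co.R
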