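import Pool.Agent.P.MP_247656_co.R.A

/-! The numerical inequality behind a shift that destroys the minimum degree. -/

open Finset

namespace Pool.Agent.P.MP_247656_co.R

lemma A_conf {j q s M h : ℕ} {a : ℕ → ℕ} {x y : ℝ} (hp : Par j q x y) (hc : Cas j q s a)
    (p : ℕ → ℕ) (hanti : ∀ i, i + 1 ≤ h → p (i + 1) ≤ p i) (hp0 : p 0 ≤ M.choose (j + s + 1))
    (h1 : 1 ≤ p h) (hg : rb x (j + 1) ≤ p h) (hfit : T a (j + 2) s ≤ (M + h).choose (j + s + 2))
    (hsz : sz j q s a x y ≤ (M.choose (j + s + 2) : ℝ) + ∑ i ∈ range (h + 1), (p i : ℝ)) :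
    bd j q s a x y ≤ (M.choose (j + s + 1) : ℝ) + ∑ i ∈ range (h + 1), (sig (j + s + 1) (p i) : ℝ) := by
  obtain ⟨G, hU, hin, hS, hcard, hsh, hdeg⟩ := config (r := j + s + 1) (M := M) (h := h)
    (by omega) p hanti hp0
  have e : j + s + 2 = j + 2 + s := by ring
  have hF : Fits a s (M + h) :=
    fits_of_T_le hc.inc (k := j + 2) (by omega) (by rw [hc.h0]; omega) (by rw [← e]; exact hfit)
  have hdegR : (p h : ℝ) ≤ (lk (M + h) G).card := by exact_mod_cast hdeg
  have h2 := stA j q s a x y (range (M + h + 1)) G (M + h) (M + h) hp hc (card_range _) hF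
    (by rw [← e]; exact hU) hin hS (by simp) (fun u hu => by rw [mem_range] at hu; omega)
    (by omega) (by linarith) (by rw [hcard]; push_cast; exact hsz)
  have h3 : ((shadow G).card : ℝ) ≤
      (M.choose (j + s + 1) : ℝ) + ∑ i ∈ range (h + 1), (sig (j + s + 1) (p i) : ℝ) := by
    exact_mod_cast hsh
  linarith

lemma A2' {j q s M b c : ℕ} {a : ℕ → ℕ} {x y : ℝ} (hp : Par j q x y) (hc : Cas j q s a)
    (hcb : c ≤ b) (hb : b ≤ M.choose (j + s + 1)) (h1 : 1 ≤ c) (hg : rb x (j + 1) ≤ c)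
    (hfit : T a (j + 2) s ≤ (M + 1).choose (j + s + 2))
    (hsz : sz j q s a x y ≤ (M.choose (j + s + 2) : ℝ) + b + c) :
    bd j q s a x y ≤ (M.choose (j + s + 1) : ℝ) + sig (j + s + 1) b + sig (j + s + 1) c := by
  have := A_conf (h := 1) (M := M) hp hc (fun i => if i = 0 then b else c)
    (fun i hi => by
      have : i = 0 := by omega
      subst this; simpa using hcb)
    (by simpa using hb) (by simpa using h1) (by simpa using hg) hfit
    (by simp [Finset.sum_range_succ]; linarith)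
  simp [Finset.sum_range_succ] at this
  linarith

lemma A2 {j q s M b c : ℕ} {a : ℕ → ℕ} {x y : ℝ} (hp : Par j q x y) (hc : Cas j q s a)
    (hb : b ≤ M.choose (j + s + 1)) (hc' : c ≤ M.choose (j + s + 1)) (h1 : 1 ≤ b) (h1' : 1 ≤ c)
    (hg : rb x (j + 1) ≤ b) (hg' : rb x (j + 1) ≤ c)
    (hfit : T a (j + 2) s ≤ (M + 1).choose (j + s + 2))
    (hsz : sz j q s a x y ≤ (M.choose (j + s + 2) : ℝ) + b + c) :
    bd j q s a x y ≤ (M.choose (j + s + 1) : ℝ) + sig (j + s + 1) b + sig (j + s + 1) c := by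
  rcases le_total c b with h | h
  · exact A2' hp hc h hb h1' hg' hfit hsz
  · have := A2' hp hc h hc' h1 hg hfit (by linarith)
    linarith

lemma A3' {j q s M b c d : ℕ} {a : ℕ → ℕ} {x y : ℝ} (hp : Par j q x y) (hc : Cas j q s a)
    (hcb : c ≤ b) (hdc : d ≤ c) (hb : b ≤ M.choose (j + s + 1)) (h1 : 1 ≤ d)
    (hg : rb x (j + 1) ≤ d) (hfit : T a (j + 2) s ≤ (M + 2).choose (j + s + 2))
    (hsz : sz j q s a x y ≤ (M.choose (j + s + 2) : ℝ) + b + c + d) :
    bd j q s a x y ≤ (M.choose (j + s + 1) : ℝ) + sig (j + s + 1) b + sig (j + s + 1) c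
      + sig (j + s + 1) d := by
  have := A_conf (h := 2) (M := M) hp hc (fun i => if i = 0 then b else if i = 1 then c else d)
    (fun i hi => by
      have : i = 0 ∨ i = 1 := by omega
      rcases this with rfl | rfl
      · simpa using hcb
      · simpa using hdc)
    (by simpa using hb) (by simpa using h1) (by simpa using hg) hfit
    (by simp [Finset.sum_range_succ]; linarith)
  simp [Finset.sum_range_succ] at this
  linarith

lemma A3 {j q s M b c d : ℕ} {a : ℕ → ℕ} {x y : ℝ} (hp : Par j q x y) (hc : Cas j q s a)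
    (hcb : c ≤ b) (hb : b ≤ M.choose (j + s + 1)) (hd : d ≤ M.choose (j + s + 1))
    (h1 : 1 ≤ c) (h1' : 1 ≤ d) (hg : rb x (j + 1) ≤ c) (hg' : rb x (j + 1) ≤ d)
    (hfit : T a (j + 2) s ≤ (M + 2).choose (j + s + 2))
    (hsz : sz j q s a x y ≤ (M.choose (j + s + 2) : ℝ) + b + c + d) :
    bd j q s a x y ≤ (M.choose (j + s + 1) : ℝ) + sig (j + s + 1) b + sig (j + s + 1) c
      + sig (j + s + 1) d := by
  rcases le_total d c with h | h
  · exact A3' hp hc hcb h hb h1' hg' hfit hsz
  · rcases le_total d b with h' | h'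
    · have := A3' hp hc h' h hb h1 hg hfit (by linarith)
      linarith
    · have := A3' hp hc h' hcb hd h1 hg hfit (by linarith)
      linarith

/-- the width of the band -/
noncomputable def del (j q : ℕ) : ℝ := rb ((j : ℝ) + q - 1) j

lemma lam_le_del {j q : ℕ} {x y : ℝ} (hp : Par j q x y) : rb x j ≤ del j q :=
  rb_mono (by linarith [hp.hx1]) hp.hx2

lemma del_nonneg {j q : ℕ} {x y : ℝ} (hp : Par j q x y) : 0 ≤ del j q :=
  rb_nonneg (by linarith [hp.hx1, hp.hx2])

lemma g_nonneg {j q : ℕ} {x y : ℝ} (hp : Par j q x y) : 0 ≤ rb x (j + 1) :=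
  rb_nonneg (by push_cast; linarith [hp.hx1])

lemma Y_nonneg {j q : ℕ} {x y : ℝ} (hp : Par j q x y) : 0 ≤ rb y q :=
  rb_nonneg (by linarith [hp.hy1])

lemma g_del {j q : ℕ} {x y : ℝ} (hp : Par j q x y) :
    rb x (j + 1) + del j q ≤ rb ((j : ℝ) + q) (j + 1) := by
  have h1 := rb_pascal ((j : ℝ) + q) j
  have h2 : rb x (j + 1) ≤ rb ((j : ℝ) + q - 1) (j + 1) :=
    rb_mono (by push_cast; linarith [hp.hx1]) hp.hx2
  unfold del; linarith

lemma Y_del {j q : ℕ} {x y : ℝ} (hp : Par j q x y) :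
    rb y q + del j q ≤ rb ((j : ℝ) + q) q := by
  have h1 := rb_top j q hp.hq
  have h2 : rb y q ≤ rb ((j : ℝ) + q - 1) q := rb_mono (by linarith [hp.hy1]) hp.hy2
  unfold del; linarith

lemma bandD {j q s f e l : ℕ} {a : ℕ → ℕ} {x y : ℝ} (hp : Par j q x y) (hc : Cas j q s a)
    (hl : j + 1 ≤ l) (he1 : 1 ≤ e) (he : rb x (j + 1) ≤ e)
    (he2 : (e : ℝ) ≤ rb x (j + 1) + del j q) (hf : sz j q s a x y ≤ (f : ℝ) + e) :
    bd j q s a x y ≤ (sig (j + s + 2) f : ℝ) + sig l e := by
  have e1 : j + s + 2 = j + 2 + s := by ring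
  rw [e1]
  exact bandN hp hc hl he1 he (by linarith [Y_del hp]) (by linarith [g_del hp]) hf

lemma gapR {j q s M : ℕ} {a : ℕ → ℕ} {x y : ℝ} (hp : Par j q x y) (hc : Cas j q s a)
    (h : M.choose (j + s + 2) < T a (j + 2) s) :
    (M.choose (j + s + 2) : ℝ) + rb x (j + 1) + rb y q + 2 * del j q ≤ T a (j + 2) s := by
  have e1 : j + s + 2 = j + 1 + 1 + s := by ring
  have h1 := T_gap (a := a) (s := s) (M := M) (k := j + 1) hc.inc (by rw [hc.h0]; omega)
    (by rw [← e1]; exact h)
  rw [← e1, hc.h0] at h1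
  have e2 : j + q + 2 - 1 = j + q + 1 := by omega
  rw [e2, Nat.choose_succ_succ' (j + q) j] at h1
  have h2 : (M.choose (j + s + 2) : ℝ) + ((j + q).choose j + (j + q).choose (j + 1))
      ≤ T a (j + 2) s := by exact_mod_cast h1
  have h3 := g_del hp
  have h4 := Y_del hp
  have e3 : (j : ℝ) + q = ((j + q : ℕ) : ℝ) := by push_cast; ring
  rw [e3, rb_nat] at h3 h4
  rw [← Nat.choose_symm_add] at h4
  linarith

lemma exists_M {l Z : ℕ} (hl : 1 ≤ l) (hZ : 1 ≤ Z) :
    ∃ M, l ≤ M ∧ M.choose l ≤ Z ∧ Z < (M + 1).choose l := by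
  have hex : ∃ M, Z < (M + 1).choose l := by
    refine ⟨Z + l, ?_⟩
    obtain ⟨l', rfl⟩ : ∃ l', l = l' + 1 := ⟨l - 1, by omega⟩
    clear hZ hl
    induction Z with
    | zero => exact Nat.choose_pos (by omega)
    | succ Z ih =>
      have e : Z + 1 + (l' + 1) + 1 = (Z + (l' + 1) + 1) + 1 := by ring
      rw [e, Nat.choose_succ_succ']
      have : 0 < (Z + (l' + 1) + 1).choose l' := Nat.choose_pos (by omega)
      omega
  classical
  have h1 := Nat.find_spec hex
  have h2 : (Nat.find hex).choose l ≤ Z := by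
    rcases Nat.eq_zero_or_pos (Nat.find hex) with h | h
    · rw [h, Nat.choose_eq_zero_of_lt (by omega)]; omega
    · have := Nat.find_min hex (m := Nat.find hex - 1) (by omega)
      rw [Nat.sub_add_cancel h] at this
      omega
  refine ⟨Nat.find hex, ?_, h2, h1⟩
  by_contra hc
  have h3 : (Nat.find hex + 1).choose l ≤ l.choose l := Nat.choose_le_choose l (by omega)
  rw [Nat.choose_self] at h3
  omega

lemma N_main {j q s f0 b c Z : ℕ} {a : ℕ → ℕ} {x y : ℝ} (hp : Par j q x y) (hc : Cas j q s a)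
    (hcb : c ≤ b) (hc1 : 1 ≤ c) (hcg : rb x (j + 1) ≤ c) (hZ : sig (j + s + 2) f0 ≤ Z)
    (hZ2 : (b : ℝ) + c ≤ Z + rb x (j + 1)) (hsz : sz j q s a x y ≤ (f0 : ℝ) + b + c) :
    bd j q s a x y ≤ (Z : ℝ) + sig (j + s + 1) b + sig (j + s + 1) c := by
  have hj := hp.hj
  have hbZ : b ≤ Z := by
    have : (b : ℝ) ≤ Z := by linarith
    exact_mod_cast this
  have hg0 := g_nonneg hp
  have hY0 := Y_nonneg hp
  have hd0 := del_nonneg hp
  have hld := lam_le_del hp
  have hcbR : (c : ℝ) ≤ b := by exact_mod_cast hcb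
  have e1 : j + s + 2 = j + 2 + s := by ring
  have hL2 : ∀ f : ℕ, (T a (j + 2) s : ℝ) - rb y q ≤ f →
      (T a (j + 1) s : ℝ) - rb y (q + 1) ≤ sig (j + s + 2) f := by
    intro f hf
    rw [e1]; exact L2' hp hc hf
  by_cases hband : (c : ℝ) ≤ rb x (j + 1) + del j q
  · have h1 := bandD (f := f0 + b) (l := j + s + 1) hp hc (by omega) hc1 hcg hband
      (by push_cast; linarith)
    have h2 := sig_split (r := j + s + 1) (by omega) f0 b
    have h3 : sig (j + s + 2) (f0 + b) ≤ Z + sig (j + s + 1) b :=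
      h2.trans (Nat.add_le_add_right (max_le hZ hbZ) _)
    have h4 : (sig (j + s + 2) (f0 + b) : ℝ) ≤ Z + sig (j + s + 1) b := by exact_mod_cast h3
    linarith
  push Not at hband
  obtain ⟨M, hlM, hM1, hM2⟩ := exists_M (l := j + s + 1) (Z := Z) (by omega) (by omega)
  have p1 : (M + 1).choose (j + s + 1) = M.choose (j + s) + M.choose (j + s + 1) :=
    Nat.choose_succ_succ' M (j + s)
  have p2 : (M + 1).choose (j + s + 2) = M.choose (j + s + 1) + M.choose (j + s + 2) :=
    Nat.choose_succ_succ' M (j + s + 1)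
  have p3 : (M + 1 + 1).choose (j + s + 2)
      = (M + 1).choose (j + s + 1) + (M + 1).choose (j + s + 2) :=
    Nat.choose_succ_succ' (M + 1) (j + s + 1)
  have hf0 : f0 < (M + 1).choose (j + s + 2) := by
    by_contra hcon
    have h1 := sig_mono (r := j + s + 2) (by omega) (not_lt.1 hcon)
    have h2 := sig_choose (r := j + s + 1) (M := M + 1) (by omega)
    have h3 : sig (j + s + 2) ((M + 1).choose (j + s + 2)) = (M + 1).choose (j + s + 1) := h2
    omega
  have hK1 : 1 ≤ M.choose (j + s + 1) := Nat.choose_pos hlM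
  obtain ⟨v, hv1, hv2, hv3⟩ : ∃ v, f0 ≤ M.choose (j + s + 2) + v ∧ v < M.choose (j + s + 1) ∧
      M.choose (j + s + 1) + sig (j + s + 1) v ≤ Z := by
    by_cases h : f0 ≤ M.choose (j + s + 2)
    · exact ⟨0, by omega, by omega, by rw [sig_zero]; omega⟩
    · refine ⟨f0 - M.choose (j + s + 2), by omega, by omega, ?_⟩
      have h1 := sig_casc (r := j + s + 1) (M := M) (v := f0 - M.choose (j + s + 2)) (by omega)
        (by omega) (Or.inr (by omega))
      have h2 : M.choose (j + s + 1 + 1) + (f0 - M.choose (j + s + 2)) = f0 := by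
        have : j + s + 1 + 1 = j + s + 2 := rfl
        rw [this]; omega
      rw [h2] at h1
      have h3 : sig (j + s + 2) f0 = M.choose (j + s + 1)
        + sig (j + s + 1) (f0 - M.choose (j + s + 2)) := h1
      omega
  set K := M.choose (j + s + 1) with hK
  set K' := M.choose (j + s) with hK'
  set C := M.choose (j + s + 2) with hC
  have hv1R : (f0 : ℝ) ≤ C + v := by exact_mod_cast hv1
  have hv2R : (v : ℝ) < K := by exact_mod_cast hv2
  have hv3R : (K : ℝ) + sig (j + s + 1) v ≤ Z := by exact_mod_cast hv3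
  have hM2R : (Z : ℝ) < K' + K := by rw [p1] at hM2; exact_mod_cast hM2
  have hsz0 := hsz
  unfold sz at hsz
  have hfit2 : T a (j + 2) s ≤ (M + 1 + 1).choose (j + s + 2) := by
    by_contra hcon
    have h1 := gapR hp hc (not_le.1 hcon)
    rw [p3, p2, p1] at h1
    push_cast at h1
    linarith
  by_cases hbK : b ≤ K
  · by_cases hvg : 1 ≤ v ∧ rb x (j + 1) ≤ v
    · have h1 := A3 (M := M) hp hc hcb hbK hv2.le hc1 hvg.1 hcg hvg.2 hfit2 (by linarith)
      linarith
    · have hvg' : (v : ℝ) ≤ rb x (j + 1) := by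
        by_cases h : 1 ≤ v
        · have := not_and.1 hvg h
          linarith [not_le.1 this]
        · have : v = 0 := by omega
          rw [this]; simpa using hg0
      by_cases hfit1 : T a (j + 2) s ≤ (M + 1).choose (j + s + 2)
      · have hfit1R : (T a (j + 2) s : ℝ) ≤ K + C := by rw [p2] at hfit1; exact_mod_cast hfit1
        have hcK : (c : ℝ) ≤ K := by exact_mod_cast hcb.trans hbK
        have h1 := A2 (M := M) (b := b) (c := min K (c + v)) hp hc hbK (min_le_left _ _)
          (by omega) (le_min hK1 (by omega)) (by linarith)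
          (by push_cast; exact le_min (by linarith) (by linarith [Nat.cast_nonneg (α := ℝ) v]))
          hfit1 (by
            unfold sz
            push_cast
            rcases min_choice (K : ℝ) (c + v) with h | h <;> rw [h] <;> linarith)
        have h2 : sig (j + s + 1) (min K (c + v)) ≤ sig (j + s + 1) c + sig (j + s + 1) v :=
          (sig_mono (by omega) (min_le_right _ _)).trans (sig_subadd (by omega) c v)
        have h3 : (sig (j + s + 1) (min K (c + v)) : ℝ) ≤ sig (j + s + 1) c + sig (j + s + 1) v := by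
          exact_mod_cast h2
        linarith
      · have h1 := gapR hp hc (not_le.1 hfit1)
        rw [p2] at h1
        push_cast at h1
        have h2 := sig_conf2 (r := j + s + 1) (M := M) (by omega) hbK (hcb.trans hbK)
        have h3 : (sig (j + s + 2) (C + b + c) : ℝ) ≤ K + sig (j + s + 1) b + sig (j + s + 1) c := by
          exact_mod_cast h2
        have h4 := hL2 (C + b + c) (by push_cast; linarith)
        unfold bd
        linarith
  · obtain ⟨b', rfl⟩ : ∃ b', b = K + b' := ⟨b - K, by omega⟩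
    have hb'1 : 1 ≤ b' := by omega
    have hb'K : b' ≤ K' := by omega
    have h1 := sig_casc (r := j + s) (M := M) (v := b') (by omega) hb'K (Or.inr hb'1)
    have h1R : (sig (j + s + 1) (K + b') : ℝ) = K' + sig (j + s) b' := by exact_mod_cast h1
    push_cast at hZ2 hsz hsz0 hcbR
    have hb'0 : (0 : ℝ) ≤ b' := Nat.cast_nonneg _
    by_cases hdir : (T a (j + 2) s : ℝ) - rb y q ≤ (K + C : ℝ) + c
    · have h2 := sig_conf2 (r := j + s + 1) (M := M + 1) (a := c) (b := 0) (by omega)
        (by omega) (by omega)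
      rw [sig_zero] at h2
      have h2' : sig (j + s + 2) ((M + 1).choose (j + s + 2) + c)
          ≤ (M + 1).choose (j + s + 1) + sig (j + s + 1) c := h2
      rw [p1, p2] at h2'
      have h3 : (sig (j + s + 2) (K + C + c) : ℝ) ≤ K' + K + sig (j + s + 1) c := by
        exact_mod_cast h2'
      have h4 := hL2 (K + C + c) (by push_cast; linarith)
      have h5 : (0 : ℝ) ≤ sig (j + s) b' := Nat.cast_nonneg _
      unfold bd
      linarith
    · push Not at hdir
      have hwg : rb x (j + 1) < (v : ℝ) + b' := by linarith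
      have h2 := A2 (M := M + 1) (b := v + b') (c := c) hp hc (by omega) (by omega) (by omega) hc1
        (by push_cast; linarith) hcg hfit2 (by rw [p2]; push_cast; linarith)
      have h3 := sig_split (r := j + s) (by omega) v b'
      have h4 : max (sig (j + s + 1) v) b' + K ≤ Z := by
        have : (b' : ℝ) + K ≤ Z := by linarith
        have : b' + K ≤ Z := by exact_mod_cast this
        omega
      have h5 : sig (j + s + 1) (v + b') + K ≤ Z + sig (j + s) b' := by omega
      have h6 : (sig (j + s + 1) (v + b') : ℝ) + K ≤ Z + sig (j + s) b' := by exact_mod_cast h5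
      rw [p1] at h2
      push_cast at h2
      linarith

lemma N_sym {j q s f0 b c Z : ℕ} {a : ℕ → ℕ} {x y : ℝ} (hp : Par j q x y) (hc : Cas j q s a)
    (hb1 : 1 ≤ b) (hbg : rb x (j + 1) ≤ b) (hc1 : 1 ≤ c) (hcg : rb x (j + 1) ≤ c)
    (hZ : sig (j + s + 2) f0 ≤ Z)
    (hZ2 : (b : ℝ) + c ≤ Z + rb x (j + 1)) (hsz : sz j q s a x y ≤ (f0 : ℝ) + b + c) :
    bd j q s a x y ≤ (Z : ℝ) + sig (j + s + 1) b + sig (j + s + 1) c := by
  rcases le_total c b with h | h
  · exact N_main hp hc h hc1 hcg hZ hZ2 hsz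
  · have := N_main hp hc h hb1 hbg hZ (by linarith) (by linarith)
    linarith

end Pool.Agent.P.MP_247656_co.R
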