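import Pool.Agent.P.MP_247656_co.R.Defs

open Finset

namespace Pool.Agent.P.MP_247656_co.R

/-- a family on `Fin N` read as a family of sets of naturals -/
def Sigma_up {N : ℕ} (G : Finset (Finset (Fin N))) : Finset (Finset ℕ) :=
  G.image fun A => A.map Fin.valEmbedding

lemma Sigma_mem_up {N : ℕ} {G : Finset (Finset (Fin N))} {A : Finset (Fin N)} :
    A.map Fin.valEmbedding ∈ Sigma_up G ↔ A ∈ G :=
  (map_injective Fin.valEmbedding).mem_finset_image

lemma Sigma_card_up {N : ℕ} (G : Finset (Finset (Fin N))) : (Sigma_up G).card = G.card :=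
  card_image_of_injective _ (map_injective _)

lemma Sigma_lift {N : ℕ} {B : Finset ℕ} (h : ∀ b ∈ B, b < N) :
    ∃ A : Finset (Fin N), A.map Fin.valEmbedding = B := by
  refine ⟨univ.filter fun i => (i : ℕ) ∈ B, ?_⟩
  ext b
  simp only [mem_map, mem_filter, mem_univ, true_and, Fin.valEmbedding_apply]
  exact ⟨fun ⟨i, hi, e⟩ => e ▸ hi, fun hb => ⟨⟨b, h b hb⟩, hb, rfl⟩⟩

lemma Sigma_down {N : ℕ} {F : Finset (Finset ℕ)} (h : ∀ B ∈ F, ∀ b ∈ B, b < N) :
    ∃ G : Finset (Finset (Fin N)), Sigma_up G = F := by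
  refine ⟨univ.filter fun A => A.map Fin.valEmbedding ∈ F, ?_⟩
  ext B
  simp only [Sigma_up, mem_image, mem_filter, mem_univ, true_and]
  refine ⟨fun ⟨A, hA, e⟩ => e ▸ hA, fun hB => ?_⟩
  obtain ⟨A, rfl⟩ := Sigma_lift (h B hB)
  exact ⟨A, hB, rfl⟩

lemma Sigma_shadow_up {N : ℕ} (G : Finset (Finset (Fin N))) :
    shadow (Sigma_up G) = Sigma_up (shadow G) := by
  ext B
  simp only [Sigma_up, mem_shadow_iff, mem_image]
  constructor
  · rintro ⟨_, ⟨A, hA, rfl⟩, b, hb, rfl⟩
    obtain ⟨a, ha, rfl⟩ := mem_map.1 hb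
    exact ⟨A.erase a, ⟨A, hA, a, ha, rfl⟩, map_erase _ _ _⟩
  · rintro ⟨_, ⟨A, hA, a, ha, rfl⟩, rfl⟩
    exact ⟨_, ⟨A, hA, rfl⟩, _, mem_map_of_mem _ ha, (map_erase _ _ _).symm⟩

lemma Sigma_lt_up {N : ℕ} {A B : Finset (Fin N)} :
    toColex (A.map Fin.valEmbedding) < toColex (B.map Fin.valEmbedding) ↔
      toColex A < toColex B := by
  rw [map_eq_image, map_eq_image]
  exact Colex.toColex_image_lt_toColex_image Fin.val_strictMono

lemma Sigma_sized_up {N r : ℕ} {G : Finset (Finset (Fin N))} :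
    Unif r (Sigma_up G) ↔ (G : Set (Finset (Fin N))).Sized r := by
  constructor
  · intro h A hA
    simpa using h _ (Sigma_mem_up.2 hA)
  · intro h B hB
    obtain ⟨A, hA, rfl⟩ := mem_image.1 hB
    rw [card_map]; exact h hA

lemma Sigma_seg_up {N r : ℕ} {G : Finset (Finset (Fin N))} :
    Colex.IsInitSeg (Sigma_up G) r ↔ Colex.IsInitSeg G r := by
  constructor
  · intro h
    refine ⟨Sigma_sized_up.1 fun _ hA => h.1 hA, fun s t hs ht => ?_⟩
    exact Sigma_mem_up.1 (h.2 (Sigma_mem_up.2 hs) ⟨Sigma_lt_up.2 ht.1, by simpa using ht.2⟩)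
  · intro h
    refine ⟨fun _ hA => Sigma_sized_up.2 h.1 _ hA, fun s t hs ht => ?_⟩
    obtain ⟨A, hA, rfl⟩ := mem_image.1 hs
    obtain ⟨B, rfl⟩ := Sigma_lift (N := N) (Colex.forall_lt_mono ht.1.le fun b hb => by
      obtain ⟨a, _, rfl⟩ := mem_map.1 hb
      exact a.2)
    exact Sigma_mem_up.2 (h.2 hA ⟨Sigma_lt_up.1 ht.1, by simpa using ht.2⟩)

lemma Sigma_bound (F : Finset (Finset ℕ)) : ∃ N, ∀ B ∈ F, ∀ b ∈ B, b < N :=
  ⟨F.sup (fun B => B.sup id) + 1, fun B hB b hb => Nat.lt_succ_of_le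
    ((le_sup (f := id) hb).trans (le_sup (f := fun B : Finset ℕ => B.sup id) hB))⟩

lemma exists_seg {r : ℕ} (hr : 1 ≤ r) (t : ℕ) :
    ∃ P : Finset (Finset ℕ), Colex.IsInitSeg P r ∧ P.card = t := by
  induction t with
  | zero => exact ⟨∅, Colex.isInitSeg_empty, rfl⟩
  | succ t ih =>
    obtain ⟨P, hP, rfl⟩ := ih
    obtain ⟨N, hN⟩ := Sigma_bound P
    have wf : WellFounded ((· < ·) : Colex (Finset ℕ) → Colex (Finset ℕ) → Prop) :=
      (Finset.orderIsoColex.symm.toOrderEmbedding.wellFoundedLT).wf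
    have hne : ({s | (ofColex s).card = r ∧ ofColex s ∉ P} : Set (Colex (Finset ℕ))).Nonempty :=
      ⟨toColex (Ico N (N + r)), by simp, fun h => by
        have := hN _ h N (mem_Ico.2 ⟨le_rfl, by omega⟩)
        omega⟩
    obtain ⟨s, ⟨hs1, hs2⟩, hs3⟩ := wf.has_min _ hne
    refine ⟨insert (ofColex s) P, ⟨fun A hA => ?_, fun A B hA hB => ?_⟩,
      card_insert_of_notMem hs2⟩
    · rcases mem_insert.1 (mem_coe.1 hA) with rfl | hA
      · exact hs1
      · exact hP.1 hA
    · rcases mem_insert.1 hA with rfl | hA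
      · by_contra hc
        exact hs3 (toColex B) ⟨hB.2, fun h => hc (mem_insert_of_mem h)⟩ hB.1
      · exact mem_insert_of_mem (hP.2 hA hB)

lemma seg_unif {r : ℕ} {P : Finset (Finset ℕ)} (hP : Colex.IsInitSeg P r) : Unif r P :=
  fun _ hA => hP.1 hA

/-- Kruskal-Katona over the naturals -/
lemma kk {r : ℕ} {P F : Finset (Finset ℕ)} (hP : Colex.IsInitSeg P r) (hF : Unif r F)
    (h : P.card ≤ F.card) : (shadow P).card ≤ (shadow F).card := by
  obtain ⟨N, hN⟩ := Sigma_bound (P ∪ F)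
  obtain ⟨G, rfl⟩ := Sigma_down (F := P) fun B hB => hN B (mem_union_left _ hB)
  obtain ⟨G', rfl⟩ := Sigma_down (F := F) fun B hB => hN B (mem_union_right _ hB)
  rw [Sigma_shadow_up, Sigma_shadow_up, Sigma_card_up, Sigma_card_up]
  rw [Sigma_card_up, Sigma_card_up] at h
  exact kruskal_katona (Sigma_sized_up.1 hF) h (Sigma_seg_up.1 hP)

lemma seg_shadow {r : ℕ} {P : Finset (Finset ℕ)} (hP : Colex.IsInitSeg P (r + 1)) :
    Colex.IsInitSeg (shadow P) r := by
  obtain ⟨N, hN⟩ := Sigma_bound P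
  obtain ⟨G, rfl⟩ := Sigma_down hN
  rw [Sigma_shadow_up, Sigma_seg_up]
  exact (Sigma_seg_up.1 hP).shadow

lemma Sigma_lt_of_top {M a : ℕ} {A B : Finset ℕ} (ha : a ∈ A) (hM : M ≤ a) (hB : B ⊆ range M) :
    toColex B < toColex A :=
  Colex.toColex_lt_toColex_iff_exists_forall_lt.2 ⟨a, ha, fun h => by
    have := mem_range.1 (hB h); omega, fun b hb _ => by
    have := mem_range.1 (hB hb); omega⟩

lemma seg_inside {r M : ℕ} {P : Finset (Finset ℕ)} (hP : Colex.IsInitSeg P r)
    (h : P.card ≤ M.choose r) : Inside (range M) P := by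
  intro A hA a ha
  by_contra hc
  have hM : M ≤ a := by simpa using hc
  have h1 : insert A (powersetCard r (range M)) ⊆ P := by
    refine insert_subset hA fun B hB => ?_
    obtain ⟨b1, b2⟩ := mem_powersetCard.1 hB
    exact hP.2 hA ⟨Sigma_lt_of_top ha hM b1, b2⟩
  have h2 := card_le_card h1
  rw [card_insert_of_notMem fun h => hc ((mem_powersetCard.1 h).1 ha), card_powersetCard,
    card_range] at h2
  omega

lemma seg_shifted {r : ℕ} {P : Finset (Finset ℕ)} (hP : Colex.IsInitSeg P r) (Ω : Finset ℕ) :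
    Shifted Ω P := by
  intro A hA i _ j hj hij hi
  refine hP.2 hA ⟨Colex.toColex_lt_toColex_iff_exists_forall_lt.2 ⟨j, hj, ?_, ?_⟩, ?_⟩
  · simp only [mem_insert, mem_erase]; omega
  · intro b hb hbA
    rcases mem_insert.1 hb with rfl | hb
    · exact hij
    · exact absurd (mem_of_mem_erase hb) hbA
  · rw [card_insert_of_notMem fun h => hi (mem_of_mem_erase h), card_erase_add_one hj]
    exact hP.1 hA

lemma seg_nested {r : ℕ} {P Q : Finset (Finset ℕ)} (hP : Colex.IsInitSeg P r)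
    (hQ : Colex.IsInitSeg Q r) (h : Q.card ≤ P.card) : Q ⊆ P := by
  rcases hP.total hQ with h1 | h1
  · exact (eq_of_subset_of_card_le h1 h).ge
  · exact h1

/-- adding a new top vertex to an initial segment -/
lemma seg_cons {r M : ℕ} {P : Finset (Finset ℕ)} (hP : Colex.IsInitSeg P r)
    (h : Inside (range M) P) :
    Colex.IsInitSeg (powersetCard (r + 1) (range M) ∪ P.image (insert M)) (r + 1) := by
  constructor
  · intro A hA
    rcases mem_union.1 (mem_coe.1 hA) with hA | hA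
    · exact (mem_powersetCard.1 hA).2
    · obtain ⟨B, hB, rfl⟩ := mem_image.1 hA
      rw [card_insert_of_notMem fun hM => by simpa using h B hB hM, hP.1 hB]
  · intro A C hA hC
    rcases mem_union.1 hA with hA | hA
    · refine mem_union_left _ (mem_powersetCard.2 ⟨fun c hc => mem_range.2 ?_, hC.2⟩)
      exact Colex.forall_lt_mono hC.1.le
        (fun b hb => mem_range.1 ((mem_powersetCard.1 hA).1 hb)) c hc
    · obtain ⟨B, hB, rfl⟩ := mem_image.1 hA
      have hMB : M ∉ B := fun hM => by simpa using h B hB hM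
      by_cases hM : M ∈ C
      · refine mem_union_right _ (mem_image.2 ⟨C.erase M, hP.2 hB ⟨?_, ?_⟩, insert_erase hM⟩)
        · have := (Colex.toColex_sdiff_lt_toColex_sdiff (u := {M}) (singleton_subset_iff.2 hM)
            (singleton_subset_iff.2 (mem_insert_self M B))).2 hC.1
          rwa [sdiff_singleton_eq_erase, sdiff_singleton_eq_erase, erase_insert hMB] at this
        · rw [card_erase_of_mem hM, hC.2]; rfl
      · refine mem_union_left _ (mem_powersetCard.2 ⟨fun c hc => mem_range.2 ?_, hC.2⟩)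
        have := Colex.forall_le_mono hC.1.le (a := M) (fun b hb => by
          rcases mem_insert.1 hb with rfl | hb
          · exact le_rfl
          · exact (mem_range.1 (h B hB hb)).le) c hc
        exact lt_of_le_of_ne this fun e => hM (e ▸ hc)

lemma sig_le {r t : ℕ} {F : Finset (Finset ℕ)} (hF : Unif r F) (h : t ≤ F.card) :
    sig r t ≤ (shadow F).card :=
  Nat.sInf_le ⟨F, hF, h, rfl⟩

lemma sig_seg {r : ℕ} {P : Finset (Finset ℕ)} (hP : Colex.IsInitSeg P r) :
    sig r P.card = (shadow P).card := by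
  refine le_antisymm (sig_le (seg_unif hP) le_rfl) ?_
  refine le_csInf ⟨_, P, seg_unif hP, le_rfl, rfl⟩ ?_
  rintro _ ⟨F, hF, h, rfl⟩
  exact kk hP hF h

lemma sig_mono {r t t' : ℕ} (hr : 1 ≤ r) (h : t ≤ t') : sig r t ≤ sig r t' := by
  obtain ⟨P, hP, rfl⟩ := exists_seg hr t'
  rw [sig_seg hP]
  exact sig_le (seg_unif hP) h

lemma sig_zero (r : ℕ) : sig r 0 = 0 := by
  have := sig_seg (Colex.isInitSeg_empty (α := ℕ) (r := r))
  simpa using this

end Pool.Agent.P.MP_247656_co.R
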